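import Pool.Agent.Work.MP_453366_nt.Defs
import Pool.Agent.Work.MP_45c923_nt.VmCnt
import Pool.Agent.Work.MP_45c923_nt.WBil

/-! Vinogradov's bilinear inequality. -/

set_option autoImplicit false

namespace Pool.Agent.Work.MP_453366_nt

open Finset Pool.Agent.Lib.LargeSieve Pool.Agent.Work.MP_45c923_nt

namespace Bil

/-- the additive character of `ℤ ^ r` with frequency vector `α` -/
noncomputable def psi {r : ℕ} (α : Fin r → ℝ) : AddChar (Fin r → ℤ) ℂ where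
  toFun v := ee (∑ j, α j * (v j : ℝ))
  map_zero_eq_one' := by simp
  map_add_eq_mul' := by
    intro a b
    rw [← ee_add, ← sum_add_distrib]
    congr 1
    refine sum_congr rfl fun j _ => ?_
    simp only [Pi.add_apply]
    push_cast
    ring

lemma psi_apply {r : ℕ} (α : Fin r → ℝ) (v : Fin r → ℤ) :
    psi α v = ee (∑ j, α j * (v j : ℝ)) := rfl

lemma ee_sum {ι : Type*} (s : Finset ι) (f : ι → ℝ) : ee (∑ i ∈ s, f i) = ∏ i ∈ s, ee (f i) := by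
  classical
  induction s using Finset.induction_on with
  | empty => simp
  | insert a s ha ih => rw [sum_insert ha, prod_insert ha, ee_add, ih]

lemma psi_sub {r : ℕ} (α : Fin r → ℝ) (u v : Fin r → ℤ) :
    psi α (u - v) = psi α u * (starRingEnd ℂ) (psi α v) := by
  rw [psi_apply, psi_apply, psi_apply, conj_ee, ← ee_add, ← sub_eq_add_neg, ← sum_sub_distrib]
  congr 1
  refine sum_congr rfl fun j _ => ?_
  simp only [Pi.sub_apply]
  push_cast
  ring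

lemma pw_bound (l m Z : ℕ) (u : Fin m → ℕ) (hu : ∀ i, u i < Z) (t : Fin l) :
    0 ≤ (∑ i, pw l (u i)) t ∧ (∑ i, pw l (u i)) t ≤ (m * Z ^ (t.val + 1) : ℕ) := by
  rw [Finset.sum_apply]
  refine ⟨sum_nonneg fun i _ => by unfold pw; positivity, ?_⟩
  refine (sum_le_card_nsmul _ _ ((Z : ℤ) ^ (t.val + 1)) fun i _ => ?_).trans (by simp)
  unfold pw
  exact pow_le_pow_left₀ (by positivity) (by exact_mod_cast (hu i).le) _

/-- the box `∏ [0, N j]` -/
def box {r : ℕ} (N : Fin r → ℕ) : Finset (Fin r → ℤ) :=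
  Fintype.piFinset fun j => (range (N j + 1)).map Nat.castEmbedding

lemma mem_box {r : ℕ} (N : Fin r → ℕ) (v : Fin r → ℤ) (h : ∀ j, 0 ≤ v j ∧ v j ≤ N j) :
    v ∈ box N := by
  refine Fintype.mem_piFinset.2 fun j => mem_map.2 ⟨(v j).toNat, ?_, ?_⟩
  · have := h j
    rw [mem_range]; omega
  · have := h j
    simp only [Nat.castEmbedding_apply]; omega

lemma sum_box {r : ℕ} (α : Fin r → ℝ) (N : Fin r → ℕ) (ν : Fin r → ℤ) :
    ∑ l ∈ box N, psi α (l * ν) =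
      ∏ j, ∑ t ∈ range (N j + 1), ee ((t : ℝ) * (α j * ν j)) := by
  have e : ∀ j, ∑ t ∈ range (N j + 1), ee ((t : ℝ) * (α j * ν j)) =
      ∑ t ∈ (range (N j + 1)).map (Nat.castEmbedding : ℕ ↪ ℤ), ee ((t : ℝ) * (α j * ν j)) := by
    intro j
    rw [sum_map]
    simp
  simp only [e]
  rw [prod_univ_sum]
  refine sum_congr rfl fun l _ => ?_
  rw [psi_apply, ee_sum]
  refine prod_congr rfl fun j _ => ?_
  congr 1
  simp only [Pi.mul_apply]
  push_cast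
  ring

lemma mean_sq {r : ℕ} (α : Fin r → ℝ) (N : Fin r → ℕ) {β : Type*} (T : Finset β)
    (Φ : β → Fin r → ℤ) (hΦ : ∀ z ∈ T, ∀ j, 0 ≤ Φ z j ∧ Φ z j ≤ N j)
    (b : β → ℂ) (hb : ∀ w, ‖b w‖ ≤ 1) :
    ∑ l ∈ box N, ‖∑ w ∈ T, b w * psi α (l * Φ w)‖ ^ 2 ≤
      (cnt T Φ : ℝ) * ∏ j, DD (α j) (N j) := by
  classical
  obtain ⟨K, hK⟩ : ∃ K : (Fin r → ℤ) → ℝ, ∀ ν, K ν =
    ∏ j, ‖∑ t ∈ range (N j + 1), ee ((t : ℝ) * (α j * ν j))‖ := ⟨_, fun _ => rfl⟩
  have hK0 : ∀ ν, 0 ≤ K ν := fun ν => by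
    rw [hK]; exact prod_nonneg fun _ _ => norm_nonneg _
  have e : ((∑ l ∈ box N, ‖∑ w ∈ T, b w * psi α (l * Φ w)‖ ^ 2 : ℝ) : ℂ) =
      ∑ p ∈ T ×ˢ T, b p.1 * (starRingEnd ℂ) (b p.2) *
        ∑ l ∈ box N, psi α (l * (Φ p.1 - Φ p.2)) := by
    rw [Complex.ofReal_sum]
    simp only [normSq_sum_eq, ← sum_product' T T]
    rw [sum_comm]
    refine sum_congr rfl fun p _ => ?_
    rw [mul_sum]
    refine sum_congr rfl fun l _ => ?_
    rw [mul_sub, psi_sub, map_mul (starRingEnd ℂ)]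
    ring
  have e2 := congrArg norm e
  rw [Complex.norm_real, Real.norm_of_nonneg (sum_nonneg fun _ _ => by positivity)] at e2
  rw [e2]
  refine (norm_sum_le _ _).trans ?_
  have e3 : ∀ p ∈ T ×ˢ T, ‖b p.1 * (starRingEnd ℂ) (b p.2) *
      ∑ l ∈ box N, psi α (l * (Φ p.1 - Φ p.2))‖ ≤ K (Φ p.1 - Φ p.2) := by
    intro p _
    rw [norm_mul, norm_mul, Complex.norm_conj, sum_box, norm_prod, ← hK]
    exact mul_le_of_le_one_left (hK0 _) (mul_le_one₀ (hb _) (norm_nonneg _) (hb _))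
  refine (sum_le_sum e3).trans ?_
  have hm : ∀ p ∈ T ×ˢ T, Φ p.1 - Φ p.2 ∈
      Fintype.piFinset fun j => Icc (-(N j : ℤ)) (N j) := by
    intro p hp
    refine Fintype.mem_piFinset.2 fun j => ?_
    have h1 := hΦ _ (mem_product.1 hp).1 j
    have h2 := hΦ _ (mem_product.1 hp).2 j
    rw [mem_Icc, Pi.sub_apply]
    constructor <;> linarith only [h1, h2, h1.1, h1.2, h2.1, h2.2]
  rw [← sum_fiberwise_of_maps_to' hm K]
  unfold DD
  rw [prod_univ_sum, mul_sum]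
  refine sum_le_sum fun ν _ => ?_
  rw [sum_const, nsmul_eq_mul, ← hK]
  refine mul_le_mul_of_nonneg_right ?_ (hK0 _)
  have h1 := cnt_shift T Φ ν
  have h2 : ((T ×ˢ T).filter fun p => Φ p.1 - Φ p.2 = ν) =
      (T ×ˢ T).filter fun p => Φ p.1 = Φ p.2 + ν :=
    filter_congr fun p _ => sub_eq_iff_eq_add'
  rw [h2]
  exact_mod_cast h1

lemma bilin {r : ℕ} (α : Fin r → ℝ) (N : Fin r → ℕ) {β : Type*} (T : Finset β)
    (Φ : β → Fin r → ℤ) (hΦ : ∀ z ∈ T, ∀ j, 0 ≤ Φ z j ∧ Φ z j ≤ N j)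
    (a b : β → ℂ) (ha : ∀ w, ‖a w‖ ≤ 1) (hb : ∀ w, ‖b w‖ ≤ 1) :
    ‖∑ z ∈ T, ∑ w ∈ T, a z * b w * psi α (Φ z * Φ w)‖ ^ 2 ≤
      (cnt T Φ : ℝ) ^ 2 * ∏ j, DD (α j) (N j) := by
  classical
  obtain ⟨G, hG⟩ : ∃ G : (Fin r → ℤ) → ℝ, ∀ t, G t = ‖∑ w ∈ T, b w * psi α (t * Φ w)‖ :=
    ⟨_, fun _ => rfl⟩
  have hm : ∀ z ∈ T, Φ z ∈ box N := fun z hz => mem_box N _ (hΦ z hz)
  have e1 : ‖∑ z ∈ T, ∑ w ∈ T, a z * b w * psi α (Φ z * Φ w)‖ ≤
      ∑ t ∈ box N, ((T.filter fun z => Φ z = t).card : ℝ) * G t := by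
    refine (norm_sum_le _ _).trans ?_
    simp only [← nsmul_eq_mul, ← sum_const]
    rw [sum_fiberwise_of_maps_to' hm G]
    refine sum_le_sum fun z _ => ?_
    simp only [mul_assoc, ← mul_sum, norm_mul, hG]
    exact mul_le_of_le_one_left (norm_nonneg _) (ha z)
  refine (pow_le_pow_left₀ (norm_nonneg _) e1 2).trans
    ((sum_mul_sq_le_sq_mul_sq _ _ _).trans ?_)
  have h1 : ∑ t ∈ box N, ((T.filter fun z => Φ z = t).card : ℝ) ^ 2 = cnt T Φ := by
    exact_mod_cast (VmCntAux.cnt_eq_sum T Φ (box N) hm).symm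
  have h2 := mean_sq α N T Φ hΦ b hb
  simp only [← hG] at h2
  rw [h1]
  calc _ ≤ (cnt T Φ : ℝ) * ((cnt T Φ : ℝ) * ∏ j, DD (α j) (N j)) := by gcongr
    _ = _ := by ring

lemma card_le_of_diam (F : Finset ℤ) (L : ℝ) (hL : 0 ≤ L)
    (h : ∀ x ∈ F, ∀ y ∈ F, (x : ℝ) - y ≤ L) : (F.card : ℝ) ≤ L + 1 := by
  rcases F.eq_empty_or_nonempty with rfl | hne
  · simp only [card_empty, Nat.cast_zero]; linarith
  have h1 : F ⊆ Icc (F.min' hne) (F.max' hne) := fun x hx =>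
    mem_Icc.2 ⟨F.min'_le x hx, F.le_max' x hx⟩
  have h2 := card_le_card h1
  have h3 := Int.card_Icc_of_le (F.min' hne) (F.max' hne)
    (by have := F.min'_le _ (F.max'_mem hne); omega)
  have h4 : (F.card : ℤ) ≤ F.max' hne + 1 - F.min' hne := by rw [← h3]; exact_mod_cast h2
  have h5 : (F.card : ℝ) ≤ (F.max' hne : ℝ) + 1 - F.min' hne := by exact_mod_cast h4
  have h6 := h _ (F.max'_mem hne) _ (F.min'_mem hne)
  linarith

lemma card_near (α η : ℝ) (N : ℕ) (hα : α ≠ 0) (hη : 0 ≤ η) :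
    (((Icc (-(N : ℤ)) N).filter fun ν : ℤ => dZ (α * ν) < η).card : ℝ) ≤
      (2 * (N * |α|) + 2) * (2 * η / |α| + 1) := by
  classical
  have ha : 0 < |α| := abs_pos.2 hα
  set S := (Icc (-(N : ℤ)) N).filter fun ν : ℤ => dZ (α * ν) < η with hS
  have hb : ∀ ν ∈ S, |((round (α * ν) : ℤ) : ℝ)| ≤ N * |α| + 1 / 2 := by
    intro ν hν
    have h1 := mem_Icc.1 (mem_filter.1 hν).1
    have h2 : |(ν : ℝ)| ≤ N := by
      rw [abs_le]
      exact ⟨by exact_mod_cast h1.1, by exact_mod_cast h1.2⟩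
    have h3 : |α * ν| ≤ N * |α| := by
      rw [abs_mul, mul_comm]
      exact mul_le_mul_of_nonneg_right h2 ha.le
    have h4 := abs_sub_round (α * ν)
    have h5 := abs_sub_abs_le_abs_sub ((round (α * ν) : ℤ) : ℝ) (α * ν)
    rw [abs_sub_comm] at h5
    linarith only [h3, h4, h5]
  have h1 : ((S.image fun ν : ℤ => round (α * ν)).card : ℝ) ≤ (2 * (N * |α|) + 1) + 1 := by
    refine card_le_of_diam _ _ (by positivity) fun x hx y hy => ?_
    obtain ⟨u, hu, rfl⟩ := mem_image.1 hx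
    obtain ⟨v, hv, rfl⟩ := mem_image.1 hy
    have e1 := abs_le.1 (hb u hu)
    have e2 := abs_le.1 (hb v hv)
    linarith only [e1, e2, e1.1, e1.2, e2.1, e2.2]
  have h2 : ∀ m ∈ S.image fun ν : ℤ => round (α * ν),
      ((S.filter fun ν : ℤ => round (α * ν) = m).card : ℝ) ≤ 2 * η / |α| + 1 := by
    intro m _
    refine card_le_of_diam _ _ (by positivity) fun x hx y hy => ?_
    obtain ⟨hx1, hx2⟩ := mem_filter.1 hx
    obtain ⟨hy1, hy2⟩ := mem_filter.1 hy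
    have e1 := (mem_filter.1 hx1).2
    have e2 := (mem_filter.1 hy1).2
    unfold dZ at e1 e2
    rw [hx2] at e1
    rw [hy2] at e2
    rw [le_div_iff₀ ha]
    have e3 : |α * x - α * y| ≤ 2 * η := by
      have := abs_sub_le (α * x) (m : ℝ) (α * y)
      rw [abs_sub_comm (m : ℝ)] at this
      linarith
    rw [← mul_sub, abs_mul, mul_comm] at e3
    exact (mul_le_mul_of_nonneg_right (le_abs_self _) ha.le).trans e3
  rw [card_eq_sum_card_image (fun ν : ℤ => round (α * ν)) S]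
  push_cast
  refine (sum_le_card_nsmul _ _ _ h2).trans ?_
  rw [nsmul_eq_mul]
  exact mul_le_mul_of_nonneg_right (by linarith) (by positivity)

lemma card_sym (N : ℕ) : ((Icc (-(N : ℤ)) N).card : ℝ) = 2 * N + 1 := by
  have h := Int.card_Icc_of_le (-(N : ℤ)) N (by omega)
  have h2 : ((Icc (-(N : ℤ)) N).card : ℤ) = 2 * N + 1 := by rw [h]; ring
  exact_mod_cast h2

end Bil

theorem bil_bound (r s Z : ℕ) (hs : 1 ≤ s) (α : Fin r → ℝ) :
    ‖∑ x ∈ range Z, ∑ y ∈ range Z, ee (∑ j, α j * ((x : ℝ) * y) ^ (j.val + 1))‖ ^ (2 * s ^ 2) ≤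
      (Z : ℝ) ^ (4 * s * (s - 1)) * (JJ r s Z : ℝ) ^ 2 *
        ∏ j : Fin r, DD (α j) (s * Z ^ (j.val + 1)) := by
  obtain ⟨n, rfl⟩ : ∃ n, s = n + 1 := ⟨s - 1, by omega⟩
  obtain ⟨θ, a, hθ, ha, h1⟩ := WBilAux.holder_step (Bil.psi α) (range Z) (range Z) (pw r) (pw r)
    (fun _ => 1) (fun _ => 1) (by simp) (by simp) n
  obtain ⟨θ', a', hθ', ha', h2⟩ := WBilAux.holder_step (Bil.psi α) (tup (n + 1) (range Z))
    (range Z) (fun z => ∑ i, pw r (z i)) (pw r) a θ ha hθ n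
  have h3 := Bil.bilin α (fun j => (n + 1) * Z ^ (j.val + 1)) (tup (n + 1) (range Z))
    (fun z => ∑ i, pw r (z i))
    (fun z hz j => Bil.pw_bound r (n + 1) Z z (fun i => mem_range.1 (mem_tup.1 hz i)) j)
    a' θ' ha' hθ'
  have e : ∀ x y : ℕ, Bil.psi α (pw r x * pw r y) =
      ee (∑ j, α j * ((x : ℝ) * y) ^ (j.val + 1)) := by
    intro x y
    rw [Bil.psi_apply]
    congr 1
    refine sum_congr rfl fun j _ => ?_
    simp only [Pi.mul_apply, pw]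
    push_cast
    ring
  simp only [mul_one, one_mul, e, card_range] at h1
  simp only [card_tup, Nat.cast_pow, card_range] at h2
  have h4 := pow_le_pow_left₀ (by positivity) h1 (n + 1)
  rw [mul_pow] at h4
  have h5 := pow_le_pow_left₀ (by positivity)
    (h4.trans (mul_le_mul_of_nonneg_left h2 (by positivity))) 2
  rw [mul_pow, mul_pow] at h5
  have h6 := h5.trans (mul_le_mul_of_nonneg_left (mul_le_mul_of_nonneg_left h3 (by positivity))
    (by positivity))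
  refine le_trans (le_of_eq ?_) (h6.trans (le_of_eq ?_))
  · rw [← pow_mul, ← pow_mul]
    congr 1
    ring
  · unfold JJ
    simp only [Nat.add_sub_cancel]
    ring

lemma DD_nonneg (α : ℝ) (N : ℕ) : 0 ≤ DD α N := sum_nonneg fun _ _ => norm_nonneg _

lemma DD_triv (α : ℝ) (N : ℕ) (hN : 1 ≤ N) : DD α N ≤ 32 * (N : ℝ) ^ 2 := by
  have hN' : (1 : ℝ) ≤ N := by exact_mod_cast hN
  unfold DD
  refine (sum_le_card_nsmul _ _ _ fun ν _ => norm_sum_ee_le_card (N + 1) _).trans ?_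
  rw [nsmul_eq_mul, Bil.card_sym]
  push_cast
  nlinarith only [hN']

lemma DD_le (α ρ : ℝ) (N : ℕ) (hN : 1 ≤ N) (hρ : 0 < ρ) (h1 : |α| * ρ ≤ 1) (h2 : ρ ^ 2 ≤ N)
    (h3 : ρ ^ 2 ≤ (N : ℝ) ^ 2 * |α|) : DD α N ≤ 32 * (N : ℝ) ^ 2 / ρ := by
  classical
  have hN' : (1 : ℝ) ≤ N := by exact_mod_cast hN
  rcases le_total ρ 1 with hρ1 | hρ1
  · refine (DD_triv α N hN).trans ?_
    rw [le_div_iff₀ hρ]
    exact mul_le_of_le_one_right (by positivity) hρ1
  have hα : α ≠ 0 := by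
    rintro rfl
    rw [abs_zero, mul_zero] at h3
    nlinarith only [h3, hρ]
  have ha : 0 < |α| := abs_pos.2 hα
  have hη : 0 < ρ / N := by positivity
  obtain ⟨Q, hQ⟩ : ∃ Q : ℝ, Q = N / ρ := ⟨_, rfl⟩
  have hQ0 : 0 ≤ Q := by rw [hQ]; positivity
  have c1 : ρ ≤ Q := by rw [hQ, le_div_iff₀ hρ]; nlinarith only [h2]
  have c2 : N * |α| ≤ Q := by
    rw [hQ, le_div_iff₀ hρ, mul_assoc]
    exact mul_le_of_le_one_right (by positivity) h1
  have c3 : ρ / N / |α| ≤ Q := by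
    rw [hQ, div_div, div_le_div_iff₀ (by positivity) hρ]
    nlinarith only [h3]
  have hc := Bil.card_near α (ρ / N) N hα hη.le
  have c4 : (2 * (N * |α|) + 2) * (2 * (ρ / N) / |α| + 1) =
      4 * ρ + 2 * (N * |α|) + 4 * (ρ / N / |α|) + 2 := by
    field_simp
    ring
  have c5 : (((Icc (-(N : ℤ)) N).filter fun ν : ℤ => dZ (α * ν) < ρ / N).card : ℝ) ≤ 12 * Q := by
    rw [c4] at hc
    linarith only [hρ1, c1, c2, c3, hc]
  unfold DD
  rw [← sum_filter_add_sum_filter_not _ (fun ν : ℤ => dZ (α * ν) < ρ / N)]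
  have d1 : ∑ ν ∈ (Icc (-(N : ℤ)) N).filter (fun ν : ℤ => dZ (α * ν) < ρ / N),
      ‖∑ t ∈ range (N + 1), ee ((t : ℝ) * (α * ν))‖ ≤ 12 * Q * (2 * N) := by
    refine (sum_le_card_nsmul _ _ _ fun ν _ => norm_sum_ee_le_card (N + 1) _).trans ?_
    rw [nsmul_eq_mul]
    refine mul_le_mul c5 ?_ (by positivity) (by positivity)
    push_cast
    linarith only [hN']
  have d2 : ∑ ν ∈ (Icc (-(N : ℤ)) N).filter (fun ν : ℤ => ¬ dZ (α * ν) < ρ / N),
      ‖∑ t ∈ range (N + 1), ee ((t : ℝ) * (α * ν))‖ ≤ (3 * N) * (Q / 2) := by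
    refine (sum_le_card_nsmul _ _ (Q / 2) fun ν hν => ?_).trans ?_
    · have e1 := not_lt.1 (mem_filter.1 hν).2
      refine (norm_sum_ee_le _ _ (hη.trans_le e1)).trans ?_
      have e2 : Q / 2 = 1 / (2 * (ρ / N)) := by rw [hQ]; field_simp
      rw [e2]
      exact one_div_le_one_div_of_le (by positivity) (by linarith only [e1])
    · rw [nsmul_eq_mul]
      refine mul_le_mul_of_nonneg_right ?_ (by positivity)
      have e1 : (((Icc (-(N : ℤ)) N).filter fun ν : ℤ => ¬ dZ (α * ν) < ρ / N).card : ℝ) ≤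
          (Icc (-(N : ℤ)) N).card := by exact_mod_cast card_filter_le _ _
      rw [Bil.card_sym] at e1
      linarith only [hN', e1]
  have d3 : 32 * (N : ℝ) ^ 2 / ρ = 32 * (N * Q) := by rw [hQ]; ring
  rw [d3]
  have d4 : 0 ≤ (N : ℝ) * Q := by positivity
  nlinarith only [d1, d2, d4]

end Pool.Agent.Work.MP_453366_nt
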