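import Pool.Agent.Lib.LargeSieve.Additive

/-! Definitions for the equidistribution argument. -/

set_option autoImplicit false

namespace Pool.Agent.Work.MP_453366_nt

open Finset Pool.Agent.Lib.LargeSieve

noncomputable section

/-- sum of geometric sums along the multiples of `α` -/
def DD (α : ℝ) (N : ℕ) : ℝ :=
  ∑ ν ∈ Icc (-(N : ℤ)) N, ‖∑ t ∈ range (N + 1), ee ((t : ℝ) * (α * ν))‖

/-- the test function `cos (π y) ^ (2 r)` -/
def bump (r : ℕ) (y : ℝ) : ℝ := (Real.cos (Real.pi * y) ^ 2) ^ r

end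

end Pool.Agent.Work.MP_453366_nt
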