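import Pool.Agent.Work.MP_453366_nt.Defs

/-! Oscillatory integrals and comparison of sums with integrals. -/

set_option autoImplicit false

namespace Pool.Agent.Work.MP_453366_nt

open Finset Pool.Agent.Lib.LargeSieve

lemma norm_ee_sub_ee (x y : ℝ) : ‖ee x - ee y‖ ≤ 7 * |x - y| := by
  have e : ee x - ee y = ee y * (ee (x - y) - 1) := by
    rw [mul_sub, ← ee_add]; simp
  rw [e, norm_mul, norm_ee, one_mul]
  have h : ‖ee (x - y) - 1‖ ≤ ‖2 * Real.pi * (x - y)‖ := Real.norm_exp_I_mul_ofReal_sub_one_le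
  refine h.trans ?_
  rw [Real.norm_eq_abs, abs_mul, abs_of_pos (by positivity : (0 : ℝ) < 2 * Real.pi)]
  have := Real.pi_lt_d2
  have := abs_nonneg (x - y)
  nlinarith

lemma continuous_ee : Continuous ee := by
  unfold ee
  fun_prop

namespace Int

lemma continuousOn_ee_div (Y : ℝ) {A B : ℝ} (hA : 0 < A) (hB : 0 < B) :
    ContinuousOn (fun t : ℝ => ee (Y / t)) (Set.uIcc A B) := by
  refine continuous_ee.comp_continuousOn (continuousOn_const.div continuousOn_id ?_)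
  intro t ht
  have : min A B ≤ t := ht.1
  have h2 : 0 < min A B := lt_min hA hB
  exact (h2.trans_le this).ne'

lemma hasDerivAt_ee_div (Y : ℝ) {t : ℝ} (ht : t ≠ 0) :
    HasDerivAt (fun t : ℝ => ((t : ℂ) ^ 2) * ee (Y / t))
      (2 * (t : ℂ) * ee (Y / t) - (Complex.I * (2 * Real.pi * Y : ℝ)) * ee (Y / t)) t := by
  have h0 : HasDerivAt (fun t : ℝ => (t : ℂ)) 1 t := Complex.ofRealCLM.hasDerivAt
  have h1 : HasDerivAt (fun t : ℝ => 2 * Real.pi * (Y / t)) (2 * Real.pi * (-Y / t ^ 2)) t := by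
    have := ((hasDerivAt_inv ht).const_mul Y).const_mul (2 * Real.pi)
    simp only [div_eq_mul_inv]
    exact this.congr_deriv (by ring)
  have h2 := (h1.ofReal_comp.const_mul Complex.I).cexp
  have h3 := (h0.pow 2).mul h2
  have htc : (t : ℂ) ≠ 0 := by exact_mod_cast ht
  refine HasDerivAt.congr_deriv h3 ?_
  simp only [ee, Pi.pow_apply]
  push_cast
  field_simp
  ring

lemma ee_div_diff (Y : ℝ) {s t u : ℝ} (hs : 0 < s) (hst : s ≤ t) (htu : t ≤ u) :
    ‖ee (Y / u) - ee (Y / t)‖ ≤ 7 * |Y| * (1 / s - 1 / u) := by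
  have ht : 0 < t := hs.trans_le hst
  have hu : 0 < u := ht.trans_le htu
  refine (norm_ee_sub_ee _ _).trans ?_
  have e : Y / u - Y / t = Y * (1 / u - 1 / t) := by ring
  have h1 : 1 / u ≤ 1 / t := one_div_le_one_div_of_le ht htu
  have h2 : 1 / t ≤ 1 / s := one_div_le_one_div_of_le hs hst
  rw [e, abs_mul, abs_of_nonpos (by linarith : 1 / u - 1 / t ≤ 0), mul_assoc]
  gcongr
  linarith

end Int

lemma intervalIntegrable_ee_div (Y : ℝ) {A B : ℝ} (hA : 0 < A) (hB : 0 < B) :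
    IntervalIntegrable (fun t : ℝ => ee (Y / t)) MeasureTheory.volume A B :=
  (Int.continuousOn_ee_div Y hA hB).intervalIntegrable

lemma norm_integral_ee_div_le (Y : ℝ) (hY : Y ≠ 0) {A B : ℝ} (hA : 0 < A) (hAB : A ≤ B) :
    ‖∫ t in A..B, ee (Y / t)‖ ≤ B ^ 2 / (2 * |Y|) := by
  have hB : 0 < B := hA.trans_le hAB
  have hc := Int.continuousOn_ee_div Y hA hB
  have hi1 : IntervalIntegrable (fun t : ℝ => 2 * (t : ℂ) * ee (Y / t))
      MeasureTheory.volume A B := by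
    refine ContinuousOn.intervalIntegrable (ContinuousOn.mul ?_ hc)
    fun_prop
  have hi0 := intervalIntegrable_ee_div Y hA hB
  have hi2 := hi0.const_mul (Complex.I * (2 * Real.pi * Y : ℝ))
  have hF := intervalIntegral.integral_eq_sub_of_hasDerivAt (a := A) (b := B)
    (f := fun t : ℝ => ((t : ℂ) ^ 2) * ee (Y / t))
    (f' := fun t : ℝ =>
      2 * (t : ℂ) * ee (Y / t) - (Complex.I * (2 * Real.pi * Y : ℝ)) * ee (Y / t))
    (fun t ht => Int.hasDerivAt_ee_div Y (by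
      rw [Set.uIcc_of_le hAB] at ht
      exact (hA.trans_le ht.1).ne')) (hi1.sub hi2)
  rw [intervalIntegral.integral_sub hi1 hi2, intervalIntegral.integral_const_mul] at hF
  have hn1 : ‖∫ t in A..B, 2 * (t : ℂ) * ee (Y / t)‖ ≤ B ^ 2 - A ^ 2 := by
    have h1 : ‖∫ t in A..B, 2 * (t : ℂ) * ee (Y / t)‖ ≤ ∫ t in A..B, 2 * t := by
      refine intervalIntegral.norm_integral_le_of_norm_le hAB ?_ ?_
      · refine Filter.Eventually.of_forall fun t ht => ?_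
        have : 0 < t := hA.trans ht.1
        simp [abs_of_pos this]
      · exact (by fun_prop : Continuous fun t : ℝ => 2 * t).intervalIntegrable _ _
    rw [intervalIntegral.integral_const_mul, integral_id] at h1
    linarith
  have e : (Complex.I * (2 * Real.pi * Y : ℝ)) * ∫ t in A..B, ee (Y / t)
      = (∫ t in A..B, 2 * (t : ℂ) * ee (Y / t))
        - ((B : ℂ) ^ 2 * ee (Y / B) - (A : ℂ) ^ 2 * ee (Y / A)) := by
    rw [← hF]; ring
  have hn2 : ‖(B : ℂ) ^ 2 * ee (Y / B) - (A : ℂ) ^ 2 * ee (Y / A)‖ ≤ B ^ 2 + A ^ 2 := by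
    refine (norm_sub_le _ _).trans (le_of_eq ?_)
    simp
  have hn3 : ‖(Complex.I * (2 * Real.pi * Y : ℝ)) * ∫ t in A..B, ee (Y / t)‖ ≤ 2 * B ^ 2 := by
    rw [e]
    refine (norm_sub_le _ _).trans ?_
    linarith
  rw [norm_mul, norm_mul, Complex.norm_I, one_mul, Complex.norm_real, Real.norm_eq_abs, abs_mul,
    abs_of_pos (by positivity : (0 : ℝ) < 2 * Real.pi)] at hn3
  have hYp : 0 < |Y| := abs_pos.2 hY
  rw [le_div_iff₀ (by positivity)]
  have hpi := Real.pi_gt_three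
  have hnn : 0 ≤ |Y| * ‖∫ t in A..B, ee (Y / t)‖ := by positivity
  nlinarith

namespace Int

lemma sum_sub_integral (Y : ℝ) {A : ℕ} (hA : 1 ≤ A) (B : ℕ) (hAB : A ≤ B) :
    ‖∑ u ∈ Ioc A B, ee (Y / u) - ∫ t in (A : ℝ)..B, ee (Y / t)‖
      ≤ 7 * |Y| * (1 / A - 1 / B) := by
  induction B, hAB using Nat.le_induction with
  | base => simp
  | succ B hAB ih =>
    have hAr : (0 : ℝ) < A := by exact_mod_cast hA
    have hBr : (0 : ℝ) < B := by exact_mod_cast hA.trans hAB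
    have hB1 : (0 : ℝ) < (B + 1 : ℕ) := by positivity
    have hle : (B : ℝ) ≤ (B + 1 : ℕ) := by exact_mod_cast Nat.le_succ B
    rw [Finset.sum_Ioc_succ_top hAB, ← intervalIntegral.integral_add_adjacent_intervals
      (intervalIntegrable_ee_div Y hAr hBr) (intervalIntegrable_ee_div Y hBr hB1)]
    have h1 : ‖ee (Y / (B + 1 : ℕ)) - ∫ t in (B : ℝ)..(B + 1 : ℕ), ee (Y / t)‖
        ≤ 7 * |Y| * (1 / B - 1 / (B + 1 : ℕ)) := by
      have e : ee (Y / (B + 1 : ℕ)) - ∫ t in (B : ℝ)..(B + 1 : ℕ), ee (Y / t)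
          = ∫ t in (B : ℝ)..(B + 1 : ℕ), (ee (Y / (B + 1 : ℕ)) - ee (Y / t)) := by
        rw [intervalIntegral.integral_sub intervalIntegrable_const
          (intervalIntegrable_ee_div Y hBr hB1)]
        simp
      rw [e]
      refine (intervalIntegral.norm_integral_le_of_norm_le_const
        (C := 7 * |Y| * (1 / B - 1 / (B + 1 : ℕ))) ?_).trans (le_of_eq ?_)
      · intro t ht
        rw [Set.uIoc_of_le hle] at ht
        exact ee_div_diff Y hBr ht.1.le ht.2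
      · simp
    calc _ = ‖(∑ u ∈ Ioc A B, ee (Y / u) - ∫ t in (A : ℝ)..B, ee (Y / t))
          + (ee (Y / (B + 1 : ℕ)) - ∫ t in (B : ℝ)..(B + 1 : ℕ), ee (Y / t))‖ := by
          congr 1; ring
      _ ≤ _ := norm_add_le _ _
      _ ≤ 7 * |Y| * (1 / A - 1 / B) + 7 * |Y| * (1 / B - 1 / (B + 1 : ℕ)) := add_le_add ih h1
      _ = _ := by ring

lemma abel_core (Y : ℝ) {A : ℕ} (hA : 1 ≤ A) (a : ℕ → ℝ) {E : ℝ} (B : ℕ) (hAB : A ≤ B)
    (h : ∀ x, A ≤ x → x ≤ B → |∑ u ∈ Ioc A x, a u| ≤ E) :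
    ‖∑ u ∈ Ioc A B, (a u : ℂ) * ee (Y / u) - ((∑ u ∈ Ioc A B, a u : ℝ) : ℂ) * ee (Y / B)‖
      ≤ E * (7 * |Y| * (1 / A - 1 / B)) := by
  induction B, hAB using Nat.le_induction with
  | base => simp
  | succ B hAB ih =>
    have ih' := ih (fun x h1 h2 => h x h1 (by omega))
    have hBr : (0 : ℝ) < B := by exact_mod_cast hA.trans hAB
    have hle : (B : ℝ) ≤ (B + 1 : ℕ) := by exact_mod_cast Nat.le_succ B
    have hS := h B hAB (by omega)
    have h1 : ‖((∑ u ∈ Ioc A B, a u : ℝ) : ℂ) * (ee (Y / (B + 1 : ℕ)) - ee (Y / B))‖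
        ≤ E * (7 * |Y| * (1 / B - 1 / (B + 1 : ℕ))) := by
      rw [norm_mul, Complex.norm_real, Real.norm_eq_abs]
      exact mul_le_mul hS (ee_div_diff Y hBr le_rfl hle) (norm_nonneg _)
        ((abs_nonneg _).trans hS)
    rw [Finset.sum_Ioc_succ_top hAB, Finset.sum_Ioc_succ_top hAB]
    calc _ = ‖(∑ u ∈ Ioc A B, (a u : ℂ) * ee (Y / u)
            - ((∑ u ∈ Ioc A B, a u : ℝ) : ℂ) * ee (Y / B))
          - ((∑ u ∈ Ioc A B, a u : ℝ) : ℂ) * (ee (Y / (B + 1 : ℕ)) - ee (Y / B))‖ := by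
          congr 1; push_cast; ring
      _ ≤ _ := norm_sub_le _ _
      _ ≤ E * (7 * |Y| * (1 / A - 1 / B)) + E * (7 * |Y| * (1 / B - 1 / (B + 1 : ℕ))) :=
          add_le_add ih' h1
      _ = _ := by ring

end Int

lemma norm_sum_sub_integral_le (Y : ℝ) {A B : ℕ} (hA : 1 ≤ A) (hAB : A ≤ B) :
    ‖∑ u ∈ Ioc A B, ee (Y / u) - ∫ t in (A : ℝ)..B, ee (Y / t)‖ ≤ 7 * |Y| / A := by
  refine (Int.sum_sub_integral Y hA B hAB).trans ?_
  have : 0 ≤ 7 * |Y| * (1 / (B : ℝ)) := by positivity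
  have e : 7 * |Y| / A = 7 * |Y| * (1 / (A : ℝ)) := by ring
  rw [e, mul_sub]
  linarith

/-- partial summation against the weight `e(Y/u)` -/
lemma abel_ee_div (Y : ℝ) {A B : ℕ} (hA : 1 ≤ A) (a : ℕ → ℝ) {E : ℝ} (hE : 0 ≤ E)
    (h : ∀ x, A ≤ x → x ≤ B → |∑ u ∈ Ioc A x, a u| ≤ E) :
    ‖∑ u ∈ Ioc A B, (a u : ℂ) * ee (Y / u)‖ ≤ E * (1 + 7 * |Y| / A) := by
  rcases le_or_gt A B with hAB | hAB
  · have h1 := Int.abel_core Y hA a B hAB h
    have h2 : ‖((∑ u ∈ Ioc A B, a u : ℝ) : ℂ) * ee (Y / B)‖ ≤ E := by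
      rw [norm_mul, Complex.norm_real, Real.norm_eq_abs, norm_ee, mul_one]
      exact h B hAB le_rfl
    have h3 : 0 ≤ E * (7 * |Y| * (1 / (B : ℝ))) := by positivity
    calc _ = ‖(∑ u ∈ Ioc A B, (a u : ℂ) * ee (Y / u)
            - ((∑ u ∈ Ioc A B, a u : ℝ) : ℂ) * ee (Y / B))
          + ((∑ u ∈ Ioc A B, a u : ℝ) : ℂ) * ee (Y / B)‖ := by
          congr 1; ring
      _ ≤ _ := norm_add_le _ _
      _ ≤ E * (7 * |Y| * (1 / A - 1 / B)) + E := add_le_add h1 h2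
      _ = E * (1 + 7 * |Y| / A) - E * (7 * |Y| * (1 / (B : ℝ))) := by ring
      _ ≤ _ := by linarith
  · rw [Finset.Ioc_eq_empty (by omega)]
    simp only [sum_empty, norm_zero]
    positivity

end Pool.Agent.Work.MP_453366_nt
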