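import Pool.Agent.Lib.ANT.MeanValue
import Pool.Agent.Work.MP_453366_nt.Defs

-- merged part: Pool.Agent.Work.MP_453366_nt.Vau
section
/-! Vaughan's identity for a general bounded weight on a dyadic interval. -/

set_option autoImplicit false

namespace Pool.Agent.Work.MP_453366_nt

open Finset ArithmeticFunction

namespace Vau

open Pool.Agent.Lib.LargeSieve Pool.Agent.Lib.ANT

lemma sum_low_div_le (f : ArithmeticFunction ℝ) (W X : ℕ) (C : ℝ) (hC : 0 ≤ C)
    (h : ∀ n ≤ W, |f n| ≤ C) : ∑ n ∈ Icc 1 X, |lowPart f W n| * (1 / (n : ℝ)) ≤ C * HH W := by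
  unfold HH
  rw [mul_sum]
  calc _ = ∑ n ∈ Icc 1 X with n ≤ W, |f n| * (1 / (n : ℝ)) := by
        rw [sum_filter]
        refine sum_congr rfl fun n _ => ?_
        rw [lowPart_apply]; split_ifs <;> simp
    _ ≤ ∑ n ∈ Icc 1 X with n ≤ W, C * (1 / (n : ℝ)) :=
        sum_le_sum fun n hn => mul_le_mul_of_nonneg_right (h n (mem_filter.1 hn).2) (by positivity)
    _ ≤ _ := by
        refine sum_le_sum_of_subset_of_nonneg (fun n hn => ?_) fun _ _ _ => by positivity
        simp only [mem_filter, mem_Icc] at hn ⊢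
        omega

lemma card_near_le (s : Finset ℕ) (v : ℕ) (t : ℝ) (ht : 0 ≤ t) :
    (#(s.filter fun w : ℕ => |(v : ℝ) - w| ≤ t) : ℝ) ≤ 2 * t + 1 := by
  have h1 : (s.filter fun w : ℕ => |(v : ℝ) - w| ≤ t) ⊆ Icc (v - ⌊t⌋₊) (v + ⌊t⌋₊) := by
    intro w hw
    have h := abs_le.1 (mem_filter.1 hw).2
    rw [mem_Icc]
    constructor
    · rcases le_total v w with hvw | hvw
      · omega
      · have : v - w ≤ ⌊t⌋₊ := Nat.le_floor (by rw [Nat.cast_sub hvw]; exact h.2)
        omega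
    · rcases le_total w v with hvw | hvw
      · omega
      · have : w - v ≤ ⌊t⌋₊ := Nat.le_floor (by rw [Nat.cast_sub hvw]; linarith only [h, h.1])
        omega
  have h2 : #(s.filter fun w : ℕ => |(v : ℝ) - w| ≤ t) ≤ 2 * ⌊t⌋₊ + 1 := by
    refine (card_le_card h1).trans ?_
    rw [Nat.card_Icc]; omega
  have h3 : (#(s.filter fun w : ℕ => |(v : ℝ) - w| ≤ t) : ℝ) ≤ 2 * ⌊t⌋₊ + 1 := by exact_mod_cast h2
  linarith only [h3, ht, Nat.floor_le ht]

lemma block (κ : ℕ → ℂ) (P W : ℕ) (η : ℝ) (hW : 1 ≤ W) (hη : 0 ≤ η)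
    (hκ : ∀ n, ‖κ n‖ ≤ 1) (hs : ∀ n, n ≤ P ∨ 2 * P < n → κ n = 0)
    (h2 : ∀ v w : ℕ, W < v → v < w → w < 2 * v → w * W ≤ 2 * P → η * v ≤ (w : ℝ) - v →
      ‖∑ u ∈ Icc 1 (2 * P), κ (u * v) * (starRingEnd ℂ) (κ (u * w))‖ ≤ η * P / v)
    (α β : ℕ → ℝ) (L : ℝ) (hL : 0 ≤ L) (hα : ∀ v, |α v| ≤ 1)
    (hβ : ∀ u ≤ 2 * P, |β u| ≤ L) (V : ℕ) (s : Finset ℕ)
    (hsV : ∀ v ∈ s, V ≤ v ∧ v < 2 * V ∧ W < v ∧ v * W ≤ 2 * P) :
    ‖∑ v ∈ s, (α v : ℂ) * ∑ u ∈ Icc 1 (2 * P), (β u : ℂ) * κ (u * v)‖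
      ≤ 5 * L * P * √(η + 1 / W) := by
  rcases s.eq_empty_or_nonempty with rfl | ⟨v₀, hv₀⟩
  · simp only [sum_empty, norm_zero]; positivity
  have hV0 : 0 < V := by have := hsV v₀ hv₀; omega
  have hWV : W ≤ 2 * V := by have := hsV v₀ hv₀; omega
  have hVr : (0 : ℝ) < V := by exact_mod_cast hV0
  have hWr : (0 : ℝ) < W := by exact_mod_cast hW
  have hWVr : (W : ℝ) ≤ 2 * V := by exact_mod_cast hWV
  have hcard : (#s : ℝ) ≤ V := by
    have : #s ≤ V := by
      refine (card_le_card (t := Ico V (2 * V)) fun v hv => ?_).trans ?_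
      · have := hsV v hv; rw [mem_Ico]; omega
      · rw [Nat.card_Ico]; omega
    exact_mod_cast this
  have hzero : ∀ v ∈ s, ∀ u, ¬ u ≤ 2 * P / V → κ (u * v) = 0 := by
    intro v hv u hu
    apply hs
    right
    have h1 := (Nat.div_lt_iff_lt_mul hV0).1 (not_le.1 hu)
    exact h1.trans_le (Nat.mul_le_mul_left _ (hsV v hv).1)
  have hcnt : (#{u ∈ Icc 1 (2 * P) | u ≤ 2 * P / V} : ℝ) ≤ 2 * P / V := by
    have : #{u ∈ Icc 1 (2 * P) | u ≤ 2 * P / V} ≤ 2 * P / V := by
      refine (card_le_card (t := Icc 1 (2 * P / V)) fun u hu => ?_).trans (by simp)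
      simp only [mem_filter, mem_Icc] at hu ⊢; omega
    refine le_trans (by exact_mod_cast this) (Nat.cast_div_le.trans (le_of_eq ?_))
    push_cast; ring
  set Z : ℕ → ℂ := fun u => ∑ v ∈ s, (α v : ℂ) * κ (u * v) with hZ
  set G : ℕ → ℕ → ℂ := fun v w =>
    ∑ u ∈ Icc 1 (2 * P), κ (u * v) * (starRingEnd ℂ) (κ (u * w)) with hG
  have hG1 : ∀ v ∈ s, ∀ w, ‖G v w‖ ≤ 2 * P / V := by
    intro v hv w
    refine le_trans ?_ hcnt
    rw [card_filter]
    push_cast
    refine (norm_sum_le _ _).trans (sum_le_sum fun u _ => ?_)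
    split_ifs with h
    · rw [norm_mul, Complex.norm_conj]
      exact mul_le_one₀ (hκ _) (norm_nonneg _) (hκ _)
    · rw [hzero v hv u h, zero_mul, norm_zero]
  have hGs : ∀ v w, ‖G v w‖ = ‖G w v‖ := by
    intro v w
    rw [← Complex.norm_conj, hG]
    simp only [map_sum, map_mul, Complex.conj_conj, mul_comm]
  have hG2' : ∀ v ∈ s, ∀ w ∈ s, 2 * η * V < (w : ℝ) - v → ‖G v w‖ ≤ η * P / V := by
    intro v hv w hw h
    obtain ⟨a1, a2, a3, a4⟩ := hsV v hv
    obtain ⟨b1, b2, b3, b4⟩ := hsV w hw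
    have a1r : (V : ℝ) ≤ v := by exact_mod_cast a1
    have a2r : (v : ℝ) ≤ 2 * V := by exact_mod_cast a2.le
    have hvw : v < w := by
      have : (0 : ℝ) ≤ 2 * η * V := by positivity
      have : (v : ℝ) < w := by linarith only [h, this]
      exact_mod_cast this
    refine (h2 v w a3 hvw (by omega) b4 (by linarith only [h, hη, a2r, mul_nonneg_of_nonpos_of_nonpos (Mathlib.Tactic.Linarith.sub_nonpos_of_le hη) (Mathlib.Tactic.Linarith.sub_nonpos_of_le a2r)])).trans ?_
    gcongr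
  have hG2 : ∀ v ∈ s, ∀ w ∈ s, ¬ |(v : ℝ) - w| ≤ 2 * η * V → ‖G v w‖ ≤ η * P / V := by
    intro v hv w hw h
    rcases lt_abs.1 (not_le.1 h) with h | h
    · rw [hGs]; exact hG2' w hw v hv h
    · exact hG2' v hv w hw (by linarith only [h])
  have hrow : ∀ v ∈ s, ∑ w ∈ s, ‖G v w‖ ≤ 9 * η * P + 2 * P / V := by
    intro v hv
    rw [← sum_filter_add_sum_filter_not s fun w : ℕ => |(v : ℝ) - w| ≤ 2 * η * V]
    have b1 : ∑ w ∈ s.filter (fun w : ℕ => |(v : ℝ) - w| ≤ 2 * η * V), ‖G v w‖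
        ≤ (2 * (2 * η * V) + 1) * (2 * P / V) := by
      refine (sum_le_card_nsmul _ _ _ fun w _ => hG1 v hv w).trans ?_
      rw [nsmul_eq_mul]
      gcongr
      exact card_near_le s v _ (by positivity)
    have b2 : ∑ w ∈ s.filter (fun w : ℕ => ¬ |(v : ℝ) - w| ≤ 2 * η * V), ‖G v w‖ ≤ V * (η * P / V) := by
      refine (sum_le_card_nsmul _ _ _ fun w hw =>
        hG2 v hv w (mem_filter.1 hw).1 (mem_filter.1 hw).2).trans ?_
      rw [nsmul_eq_mul]
      exact mul_le_mul_of_nonneg_right ((Nat.cast_le.2 (card_filter_le _ _)).trans hcard)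
        (by positivity)
    refine (add_le_add b1 b2).trans (le_of_eq ?_)
    field_simp; ring
  have hZ2 : ∑ u ∈ Icc 1 (2 * P), ‖Z u‖ ^ 2 ≤ V * (9 * η * P + 2 * P / V) := by
    have e : ((∑ u ∈ Icc 1 (2 * P), ‖Z u‖ ^ 2 : ℝ) : ℂ)
        = ∑ v ∈ s, ∑ w ∈ s, (α v * α w : ℂ) * G v w := by
      rw [Complex.ofReal_sum]
      simp only [hZ, normSq_sum_eq, hG, mul_sum]
      rw [sum_comm]
      refine sum_congr rfl fun v _ => ?_
      rw [sum_comm]
      refine sum_congr rfl fun w _ => sum_congr rfl fun u _ => ?_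
      rw [map_mul, Complex.conj_ofReal]; ring
    have h1 := congrArg norm e
    rw [Complex.norm_real, Real.norm_eq_abs,
      abs_of_nonneg (sum_nonneg fun _ _ => sq_nonneg _)] at h1
    rw [h1]
    refine (norm_sum_le _ _).trans ?_
    have : ∀ v ∈ s, ‖∑ w ∈ s, (α v * α w : ℂ) * G v w‖ ≤ 9 * η * P + 2 * P / V := by
      intro v hv
      refine (norm_sum_le _ _).trans (le_trans (sum_le_sum fun w _ => ?_) (hrow v hv))
      rw [norm_mul, norm_mul, Complex.norm_real, Complex.norm_real]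
      exact mul_le_of_le_one_left (norm_nonneg _) (mul_le_one₀ (hα v) (abs_nonneg _) (hα w))
    refine (sum_le_card_nsmul _ _ _ this).trans ?_
    rw [nsmul_eq_mul]
    gcongr
  have e : ∑ v ∈ s, (α v : ℂ) * ∑ u ∈ Icc 1 (2 * P), (β u : ℂ) * κ (u * v)
      = ∑ u ∈ Icc 1 (2 * P), (β u : ℂ) * Z u := by
    simp only [hZ, mul_sum]
    rw [sum_comm]
    exact sum_congr rfl fun u _ => sum_congr rfl fun v _ => by ring
  rw [e]
  have b : ‖∑ u ∈ Icc 1 (2 * P), (β u : ℂ) * Z u‖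
      ≤ ∑ u ∈ Icc 1 (2 * P), (if u ≤ 2 * P / V then L else 0) * ‖Z u‖ := by
    refine (norm_sum_le _ _).trans (sum_le_sum fun u hu => ?_)
    rw [norm_mul, Complex.norm_real]
    split_ifs with h
    · exact mul_le_mul_of_nonneg_right (hβ u (mem_Icc.1 hu).2) (norm_nonneg _)
    · have : Z u = 0 := sum_eq_zero fun v hv => by rw [hzero v hv u h, mul_zero]
      simp [this]
  refine b.trans ?_
  refine (pow_le_pow_iff_left₀ (sum_nonneg fun _ _ => by split_ifs <;> positivity)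
    (by positivity) two_ne_zero).1 ?_
  refine (sum_mul_sq_le_sq_mul_sq _ _ _).trans ?_
  have c1 : ∑ u ∈ Icc 1 (2 * P), (if u ≤ 2 * P / V then L else 0) ^ 2 ≤ 2 * P / V * L ^ 2 := by
    simp only [ite_pow, zero_pow two_ne_zero]
    rw [← sum_filter, sum_const, nsmul_eq_mul]
    gcongr
  refine (mul_le_mul c1 hZ2 (sum_nonneg fun _ _ => sq_nonneg _) (by positivity)).trans ?_
  rw [mul_pow, Real.sq_sqrt (by positivity)]
  have c2 : 1 / (V : ℝ) ≤ 2 * (1 / W) := by
    rw [mul_one_div, div_le_div_iff₀ hVr hWr]; linarith only [hWVr]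
  have c3 : 2 * (P : ℝ) / V * L ^ 2 * (V * (9 * η * P + 2 * P / V))
      = L ^ 2 * P ^ 2 * (18 * η + 4 * (1 / V)) := by field_simp; ring
  rw [c3]
  have : (0 : ℝ) ≤ 1 / W := by positivity
  calc _ ≤ L ^ 2 * P ^ 2 * (25 * (η + 1 / W)) := by gcongr; linarith only [hη, c2, this]
    _ = _ := by ring

end Vau

open Pool.Agent.Lib.LargeSieve Pool.Agent.Lib.ANT in
theorem vaughan_bound (κ : ℕ → ℂ) (P W : ℕ) (η : ℝ) (hW : 1 ≤ W) (hWP : W ≤ P) (hη : 0 ≤ η)
    (hκ : ∀ n, ‖κ n‖ ≤ 1) (hs : ∀ n, n ≤ P ∨ 2 * P < n → κ n = 0)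
    (h1 : ∀ d, 1 ≤ d → d ≤ W ^ 2 → ∀ y, ‖∑ m ∈ Icc 1 y, κ (d * m)‖ ≤ η * P / d)
    (h2 : ∀ v w : ℕ, W < v → v < w → w < 2 * v → w * W ≤ 2 * P → η * v ≤ (w : ℝ) - v →
      ‖∑ u ∈ Icc 1 (2 * P), κ (u * v) * (starRingEnd ℂ) (κ (u * w))‖ ≤ η * P / v) :
    ‖∑ n ∈ Icc 1 (2 * P), (vonMangoldt n : ℂ) * κ n‖
      ≤ 20 * (1 + Real.log (2 * P)) ^ 3 * P * (η + √(η + 1 / W)) := by
  set x := 2 * P with hx
  have hcast : (2 * P : ℝ) = (x : ℝ) := by rw [hx]; push_cast; ring
  rw [hcast]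
  set L := Real.log x with hLdef
  have hL : 0 ≤ L := Real.log_natCast_nonneg x
  have hWx : W ≤ x := by omega
  have hH : HH W ≤ 1 + L := (HH_le _).trans (by linarith only [hWx, log_nat_mono hWx])
  have hH0 := HH_nonneg W
  have e : ∑ n ∈ Icc 1 x, (vonMangoldt n : ℂ) * κ n
      = ∑ n ∈ Icc 1 x, (lowPart vonMangoldt W n : ℂ) * κ n
        + ∑ n ∈ Icc 1 x, ((lowPart muR W * ArithmeticFunction.log) n : ℂ) * κ n
        - ∑ n ∈ Icc 1 x, ((lowPart muR W * (lowPart vonMangoldt W * zetaR)) n : ℂ) * κ n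
        + ∑ n ∈ Icc 1 x, ((highPart muR W * (highPart vonMangoldt W * zetaR)) n : ℂ) * κ n := by
    rw [← sum_add_distrib, ← sum_sub_distrib, ← sum_add_distrib]
    refine sum_congr rfl fun n _ => ?_
    have := congrArg (fun f : ArithmeticFunction ℝ => (f n : ℂ)) (vaughan W W)
    simp only [ArithmeticFunction.add_apply, Complex.ofReal_add] at this
    linear_combination κ n * this
  have b1 : ∑ n ∈ Icc 1 x, (lowPart vonMangoldt W n : ℂ) * κ n = 0 := by
    refine sum_eq_zero fun n _ => ?_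
    rw [lowPart_apply]
    split_ifs with h
    · rw [hs n (Or.inl (h.trans hWP)), mul_zero]
    · simp
  have hμ := Vau.sum_low_div_le muR W x 1 zero_le_one fun n _ => abs_muR_le n
  have hΛ := fun X => Vau.sum_low_div_le vonMangoldt W X L hL fun n hn => by
    rw [abs_of_nonneg vonMangoldt_nonneg]
    exact vonMangoldt_le_log.trans (log_nat_mono (hn.trans hWx))
  have hW2 : W ≤ W ^ 2 := by nlinarith only [hW]
  have b2 : ‖∑ n ∈ Icc 1 x, ((lowPart muR W * ArithmeticFunction.log) n : ℂ) * κ n‖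
      ≤ (1 + L) * (2 * η * P * L) := by
    rw [sum_mul_weight_complex]
    refine (norm_sum_le _ _).trans ?_
    calc _ ≤ ∑ d ∈ Icc 1 x, |lowPart muR W d| * (1 / (d : ℝ)) * (2 * η * P * L) := by
          refine sum_le_sum fun d hd => ?_
          rw [← mul_sum, norm_mul, Complex.norm_real, mul_assoc, lowPart_apply]
          split_ifs with hdW
          swap
          · simp
          refine mul_le_mul_of_nonneg_left ?_ (abs_nonneg _)
          have h0 : κ (d * 0) = 0 := hs _ (Or.inl (by simp))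
          have k := norm_sum_mono_mul_le (fun m => κ (d * m)) (K := η * P / d) (fun n => by
            rcases n with _ | n
            · simp only [range_zero, sum_empty, norm_zero]; positivity
            · rw [range_eq_Ico, sum_eq_sum_Ico_succ_bot (Nat.succ_pos n), h0, zero_add]
              exact h1 d (mem_Icc.1 hd).1 (hdW.trans hW2) n)
            (fun m => Real.log m) log_nat_mono (fun m => Real.log_natCast_nonneg m) (x / d)
          rw [range_eq_Ico, sum_eq_sum_Ico_succ_bot (Nat.succ_pos _), h0, mul_zero, zero_add] at k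
          refine le_trans k ?_
          have : Real.log ((x / d : ℕ) : ℝ) ≤ L := log_nat_mono (Nat.div_le_self _ _)
          calc 2 * (η * P / d) * Real.log ((x / d : ℕ) : ℝ) ≤ 2 * (η * P / d) * L := by gcongr
            _ = _ := by ring
      _ ≤ _ := by rw [← sum_mul]; exact mul_le_mul_of_nonneg_right (by linarith only [hH, hμ]) (by positivity)
  have b3 : ‖∑ n ∈ Icc 1 x, ((lowPart muR W * (lowPart vonMangoldt W * zetaR)) n : ℂ) * κ n‖
      ≤ (1 + L) * (L * (1 + L) * (η * P)) := by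
    rw [sum_mul_weight_complex]
    refine (norm_sum_le _ _).trans ?_
    calc _ ≤ ∑ d ∈ Icc 1 x, |lowPart muR W d| * (1 / (d : ℝ)) * (L * (1 + L) * (η * P)) := by
          refine sum_le_sum fun d hd => ?_
          rw [← mul_sum, norm_mul, Complex.norm_real, mul_assoc, lowPart_apply]
          split_ifs with hdW
          swap
          · simp
          refine mul_le_mul_of_nonneg_left ?_ (abs_nonneg _)
          rw [sum_mul_weight_complex _ _ (fun m => κ (d * m))]
          refine (norm_sum_le _ _).trans (le_trans (sum_le_sum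
            (g := fun e => |lowPart vonMangoldt W e| * (1 / (e : ℝ)) * (1 / (d : ℝ) * (η * P)))
            fun e he => ?_) ?_)
          · rw [← mul_sum, norm_mul, Complex.norm_real, mul_assoc, lowPart_apply]
            split_ifs with heW
            swap
            · simp
            refine mul_le_mul_of_nonneg_left ?_ (abs_nonneg _)
            have := h1 (d * e) (Nat.mul_pos (mem_Icc.1 hd).1 (mem_Icc.1 he).1)
              (by rw [sq]; exact Nat.mul_le_mul hdW heW) (x / d / e)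
            refine le_of_eq_of_le (congrArg _ (sum_congr rfl fun m hm => ?_))
              (this.trans (le_of_eq ?_))
            · rw [zetaR_apply (by have := (mem_Icc.1 hm).1; omega), mul_assoc]; simp
            · push_cast; ring
          · rw [← sum_mul]
            have : L * HH W ≤ L * (1 + L) := by gcongr
            calc _ ≤ L * (1 + L) * (1 / (d : ℝ) * (η * P)) :=
                  mul_le_mul_of_nonneg_right ((hΛ _).trans this) (by positivity)
              _ = _ := by ring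
      _ ≤ _ := by rw [← sum_mul]; exact mul_le_mul_of_nonneg_right (by linarith only [hH, hμ]) (by positivity)
  have b4 : ‖∑ n ∈ Icc 1 x, ((highPart muR W * (highPart vonMangoldt W * zetaR)) n : ℂ) * κ n‖
      ≤ (2 * (1 + L)) * (5 * L * P * √(η + 1 / W)) := by
    set α := highPart muR W with hα
    set β := highPart vonMangoldt W * zetaR with hβ
    rw [sum_mul_weight_complex]
    have e1 : ∑ v ∈ Icc 1 x, ∑ u ∈ Icc 1 (x / v), (α v : ℂ) * (β u * κ (v * u))
        = ∑ v ∈ Icc 1 x with W < v ∧ v * W ≤ x, (α v : ℂ) * ∑ u ∈ Icc 1 x, (β u : ℂ) * κ (u * v) := by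
      rw [sum_filter]
      refine sum_congr rfl fun v hv => ?_
      have hv0 : 0 < v := (mem_Icc.1 hv).1
      rw [← mul_sum]
      split_ifs with h
      · congr 1
        simp only [mul_comm v]
        refine sum_subset (Icc_subset_Icc_right (Nat.div_le_self _ _)) fun u hu hu' => ?_
        rw [hs _ (Or.inr ?_), mul_zero]
        simp only [mem_Icc, not_and, not_le] at hu hu'
        exact (Nat.div_lt_iff_lt_mul hv0).1 (hu' hu.1)
      · rcases not_and_or.1 h with h | h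
        · rw [hα, highPart_apply, if_pos (not_lt.1 h)]; simp
        · rw [sum_eq_zero, mul_zero]
          intro u hu
          have : u ≤ W := by
            have a := (Nat.le_div_iff_mul_le hv0).1 (mem_Icc.1 hu).2
            by_contra hc
            have : W * v ≤ u * v := Nat.mul_le_mul_right _ (by omega)
            rw [mul_comm W] at this
            omega
          rw [hβ, high_zeta_eq_zero this]; simp
    rw [e1, ← sum_fiberwise_of_maps_to (t := range (Nat.log 2 x + 1)) (g := fun v => Nat.log 2 v)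
      (fun v hv => mem_range.2 (Nat.lt_succ_of_le
        (Nat.log_mono_right (mem_Icc.1 (mem_filter.1 hv).1).2)))]
    refine (norm_sum_le _ _).trans ?_
    refine (sum_le_card_nsmul _ _ (5 * L * P * √(η + 1 / W)) fun j _ => ?_).trans ?_
    · refine Vau.block κ P W η hW hη hκ hs h2 α β L hL (fun v => ?_) (fun u hu => ?_) (2 ^ j) _
        fun v hv => ?_
      · rw [hα, highPart_apply]; split_ifs
        · simp
        · exact abs_muR_le v
      · rw [abs_of_nonneg (high_zeta_nonneg _ _)]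
        exact (high_zeta_le _ _).trans (log_nat_mono hu)
      · simp only [mem_filter, mem_Icc] at hv
        obtain ⟨⟨⟨a1, _⟩, a3, a4⟩, rfl⟩ := hv
        refine ⟨Nat.pow_log_le_self 2 (by omega), ?_, a3, a4⟩
        have := Nat.lt_pow_succ_log_self one_lt_two v
        rwa [pow_succ, mul_comm] at this
    · rw [card_range, nsmul_eq_mul]
      refine mul_le_mul_of_nonneg_right ?_ (by positivity)
      have hx0 : x ≠ 0 := by omega
      have a : ((2 ^ Nat.log 2 x : ℕ) : ℝ) ≤ x := by exact_mod_cast Nat.pow_log_le_self 2 hx0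
      have b := Real.log_le_log (by positivity) a
      rw [Nat.cast_pow, Real.log_pow] at b
      have c := Real.log_two_gt_d9
      have d : (0 : ℝ) ≤ Nat.log 2 x := by positivity
      push_cast at b ⊢
      linarith only [hL, b, c, mul_nonneg_of_nonpos_of_nonpos (Mathlib.Tactic.Linarith.sub_nonpos_of_le (Mathlib.Tactic.Linarith.natCast_nonneg ℝ (Nat.log (2 : ℕ) x))) (le_of_lt (Mathlib.Tactic.Linarith.sub_neg_of_lt c))]
  rw [e, b1, zero_add]
  refine (norm_add_le _ _).trans ((add_le_add ((norm_sub_le _ _).trans (add_le_add b2 b3)) b4).trans ?_)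
  have s0 : 0 ≤ √(η + 1 / W) := Real.sqrt_nonneg _
  have p0 : (0 : ℝ) ≤ P := by positivity
  have t1 : (1 + L) * (2 * η * P * L) + (1 + L) * (L * (1 + L) * (η * P))
      ≤ 20 * (1 + L) ^ 3 * P * η := by
    have : (1 + L) * (2 * L) + (1 + L) * (L * (1 + L)) ≤ 20 * (1 + L) ^ 3 := by linarith only [hL, sq_nonneg L, mul_nonneg hL (sq_nonneg L), sq_nonneg L]
    calc _ = ((1 + L) * (2 * L) + (1 + L) * (L * (1 + L))) * (P * η) := by ring
      _ ≤ 20 * (1 + L) ^ 3 * (P * η) := by gcongr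
      _ = _ := by ring
  have t2 : (2 * (1 + L)) * (5 * L * P * √(η + 1 / W)) ≤ 20 * (1 + L) ^ 3 * P * √(η + 1 / W) := by
    have : (2 * (1 + L)) * (5 * L) ≤ 20 * (1 + L) ^ 3 := by linarith only [hL, sq_nonneg L, mul_nonneg hL (sq_nonneg L), sq_nonneg L]
    calc _ = ((2 * (1 + L)) * (5 * L)) * (P * √(η + 1 / W)) := by ring
      _ ≤ 20 * (1 + L) ^ 3 * (P * √(η + 1 / W)) := by gcongr
      _ = _ := by ring
  exact (add_le_add t1 t2).trans (le_of_eq (by ring))

end Pool.Agent.Work.MP_453366_nt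
end

-- merged part: Pool.Agent.Work.MP_453366_nt.Real
section
/-! Test functions and the real-variable lower bound. -/

set_option autoImplicit false

namespace Pool.Agent.Work.MP_453366_nt

open Finset Pool.Agent.Lib.LargeSieve

namespace RealAux

lemma cos_sq_eq (y : ℝ) :
    Real.cos (Real.pi * y) ^ 2 = 1 - Real.sin (Real.pi * (y - round y)) ^ 2 := by
  have e : Real.pi * y = Real.pi * (y - round y) + round y * Real.pi := by ring
  rw [e, Real.cos_add_int_mul_pi, mul_pow, ← zpow_natCast, ← zpow_mul, mul_comm (round y), zpow_mul,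
    ← Real.cos_sq']
  simp

lemma cos_sq_le (y : ℝ) : Real.cos (Real.pi * y) ^ 2 ≤ 1 - 4 * dZ y ^ 2 := by
  have h2 : |Real.pi * (y - round y)| ≤ Real.pi / 2 := by
    rw [abs_mul, abs_of_pos Real.pi_pos]
    linarith only [Real.pi_pos, abs_sub_round y, mul_nonneg_of_nonpos_of_nonpos (le_of_lt (Mathlib.Tactic.Linarith.sub_neg_of_lt Real.pi_pos)) (Mathlib.Tactic.Linarith.sub_nonpos_of_le (abs_sub_round y))]
  have h3 := Real.mul_abs_le_abs_sin h2
  rw [abs_mul, abs_of_pos Real.pi_pos, ← mul_assoc, div_mul_cancel₀ _ Real.pi_ne_zero] at h3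
  have := pow_le_pow_left₀ (by positivity) h3 2
  rw [sq_abs (Real.sin _)] at this
  rw [cos_sq_eq, dZ]
  linarith only [this]

lemma le_cos_sq (y : ℝ) : 1 - 10 * dZ y ^ 2 ≤ Real.cos (Real.pi * y) ^ 2 := by
  have h := Real.sin_sq_le_sq (x := Real.pi * (y - round y))
  have h2 : Real.pi ^ 2 ≤ 10 := by linarith only [Real.pi_lt_d2, Real.pi_pos, mul_pos_of_neg_of_neg (Mathlib.Tactic.Linarith.sub_neg_of_lt Real.pi_lt_d2) (Mathlib.Tactic.Linarith.sub_neg_of_lt Real.pi_pos)]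
  rw [cos_sq_eq, dZ, sq_abs]
  linarith only [h, h2, sq_nonneg (y - round y), mul_nonneg_of_nonpos_of_nonpos (Mathlib.Tactic.Linarith.sub_nonpos_of_le (sq_nonneg (y - ↑(round y)))) (Mathlib.Tactic.Linarith.sub_nonpos_of_le h2)]

lemma cos_sq_ee (y : ℝ) :
    ((Real.cos (Real.pi * y) : ℝ) : ℂ) ^ 2 = (ee y + 1) ^ 2 * ee (-y) / 4 := by
  have h1 : ee y * ee (-y) = 1 := by rw [← ee_add]; simp
  have h2 : ee y + ee (-y) = 2 * Complex.cos (2 * (Real.pi * y)) := by
    rw [Complex.two_cos]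
    unfold ee
    push_cast
    congr 2 <;> ring
  rw [Complex.ofReal_cos, Complex.cos_sq]
  push_cast
  linear_combination (-(ee y + 2) / 4) * h1 - h2 / 4

/-- many good integers -/
lemma good (τ x : ℝ) (h0 : 0 < τ) (h1 : τ ≤ 1 / 2) (hx : 20 ≤ x) : ∃ S : Finset ℕ,
    x / (10 * τ) ≤ S.card ∧ ∀ b ∈ S, x / 2 ≤ τ * b ∧ τ * b ≤ x - 22 / 100 ∧
      ∃ j : ℕ, |τ * b - j - 1 / 2| ≤ 28 / 100 := by
  set I := ⌊56 / 100 / τ⌋₊
  let f : ℕ × ℕ → ℕ := fun p => ⌈(p.1 + 22 / 100) / τ⌉₊ + p.2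
  have hI : τ * I ≤ 56 / 100 := by
    have := Nat.floor_le (show 0 ≤ 56 / 100 / τ by positivity)
    rwa [le_div_iff₀' h0] at this
  have hI' : 28 / 100 ≤ τ * I := by
    have h2 := Nat.lt_floor_add_one (56 / 100 / τ)
    rw [div_lt_iff₀' h0] at h2
    have h3 : 1 ≤ I := Nat.le_floor (by rw [le_div_iff₀ h0]; push_cast; linarith only [h0, h1])
    have h4 : (1 : ℝ) ≤ I := by exact_mod_cast h3
    change 56 / 100 < τ * (I + 1) at h2
    linarith only [h2, h4, h0, mul_le_mul_of_nonneg_left h4 h0.le]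
  have hf : ∀ p : ℕ × ℕ, p.2 < I → p.1 + 22 / 100 ≤ τ * f p ∧ τ * f p ≤ p.1 + 78 / 100 := by
    intro p hp
    have a := Nat.le_ceil ((p.1 + 22 / 100) / τ)
    have b := Nat.ceil_lt_add_one (show 0 ≤ (p.1 + 22 / 100) / τ by positivity)
    rw [div_le_iff₀' h0] at a
    rw [← sub_lt_iff_lt_add, lt_div_iff₀' h0] at b
    have c : (p.2 : ℝ) + 1 ≤ I := by exact_mod_cast hp
    have := mul_le_mul_of_nonneg_left c h0.le
    have : 0 ≤ τ * p.2 := by positivity
    simp only [f]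
    push_cast
    constructor <;> nlinarith
  refine ⟨(Ico ⌈x / 2⌉₊ ⌊x⌋₊ ×ˢ range I).image f, ?_, ?_⟩
  · rw [card_image_of_injOn, card_product, Nat.card_Ico, card_range]
    · have a := Nat.ceil_lt_add_one (show 0 ≤ x / 2 by linarith only [h0, h1, hx])
      have b := Nat.lt_floor_add_one x
      have c : ⌈x / 2⌉₊ ≤ ⌊x⌋₊ := by exact_mod_cast (by linarith only [h0, h1, hx, a, b] : (⌈x / 2⌉₊ : ℝ) ≤ ⌊x⌋₊)
      rw [div_le_iff₀ (by positivity)]
      push_cast [c]
      have d : 2 / 5 * x ≤ (⌊x⌋₊ : ℝ) - ⌈x / 2⌉₊ := by linarith only [hx, a, b]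
      linarith only [h0, h1, hx, d, hI', a, b, mul_le_mul d hI' (by norm_num) (by linarith)]
    · rintro ⟨j, i⟩ hp ⟨j', i'⟩ hp' e
      have a := hf _ (mem_range.1 (mem_product.1 hp).2)
      have b := hf _ (mem_range.1 (mem_product.1 hp').2)
      rw [e] at a
      have h1 : j < j' + 1 := by exact_mod_cast (by linarith only [h0, h1, a, b, a.1, b.2] : (j : ℝ) < j' + 1)
      have h2 : j' < j + 1 := by exact_mod_cast (by linarith [a.2, b.1] : (j' : ℝ) < j + 1)
      obtain rfl : j = j' := by omega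
      simpa [f] using e
  · intro b hb
    obtain ⟨p, hp, rfl⟩ := mem_image.1 hb
    obtain ⟨a1, a2⟩ := hf _ (mem_range.1 (mem_product.1 hp).2)
    obtain ⟨b1, b2⟩ := mem_Ico.1 (mem_product.1 hp).1
    have c1 := Nat.ceil_le.1 b1
    have c2 : (p.1 : ℝ) + 1 ≤ x := by
      have := (Nat.le_floor_iff (by linarith only [h0, h1, hx])).1 (Nat.succ_le_of_lt b2)
      exact_mod_cast this
    exact ⟨by linarith only [h0, h1, a1, c1], by linarith only [a2, c2], p.1, abs_le.2 ⟨by linarith only [a1], by linarith only [a2]⟩⟩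

end RealAux

open RealAux

lemma bump_nonneg (r : ℕ) (y : ℝ) : 0 ≤ bump r y := pow_nonneg (sq_nonneg _) _

lemma bump_le_one (r : ℕ) (y : ℝ) : bump r y ≤ 1 :=
  pow_le_one₀ (sq_nonneg _) (Real.cos_sq_le_one _)

lemma continuous_bump (r : ℕ) : Continuous (bump r) := by
  unfold bump
  fun_prop

lemma bump_le (r : ℕ) {y δ : ℝ} (hδ : 0 ≤ δ) (h : δ ≤ dZ y) : bump r y ≤ (1 - 4 * δ ^ 2) ^ r :=
  pow_le_pow_left₀ (sq_nonneg _) (by linarith only [hδ, h, cos_sq_le y, pow_le_pow_left₀ hδ h 2]) r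

lemma le_bump (r : ℕ) {y δ : ℝ} (h : dZ y ≤ δ) (hδ : 10 * δ ^ 2 ≤ 1) :
    (1 - 10 * δ ^ 2) ^ r ≤ bump r y :=
  pow_le_pow_left₀ (by linarith)
    (by linarith [le_cos_sq y, pow_le_pow_left₀ (dZ_nonneg y) h 2]) r

/-- Fourier expansion of the test function -/
lemma bump_eq (r : ℕ) : ∃ c : ℕ → ℝ, (∀ j, 0 ≤ c j) ∧ ∑ j ∈ range (2 * r + 1), c j = 1 ∧
    ∀ y : ℝ, (bump r y : ℂ) = ∑ j ∈ range (2 * r + 1), (c j : ℂ) * ee (((j : ℝ) - r) * y) := by
  refine ⟨fun j => (2 * r).choose j / 4 ^ r, fun j => by positivity, ?_, fun y => ?_⟩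
  · rw [← sum_div, ← Nat.cast_sum, Nat.sum_range_choose, pow_mul]
    norm_num
  · rw [bump, Complex.ofReal_pow, Complex.ofReal_pow, cos_sq_ee, div_pow, mul_pow, ← pow_mul,
      add_pow, sum_mul, sum_div]
    refine sum_congr rfl fun j _ => ?_
    rw [show ((j : ℝ) - r) * y = j * y + r * -y by ring, ee_add, ee_nat_mul, ee_nat_mul]
    push_cast
    ring

theorem integral_lower (P N M y₀ ρ c : ℝ) (F : ℝ → ℝ) (hP : 0 < P) (hM : 20 * P ≤ M)
    (hN : 20 * P ≤ N - M) (hρ : 0 < ρ) (hρy : ρ ≤ y₀) (hy : y₀ ≤ 1 / 100) (hc : 0 ≤ c)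
    (hF : ContinuousOn F (Set.Icc P (2 * P))) (hF0 : ∀ t ∈ Set.Icc P (2 * P), 0 ≤ F t)
    (h : ∀ t ∈ Set.Icc P (2 * P), dZ (N / t - y₀) ≤ ρ → dZ (M / t - 1 / 2) ≤ 3 / 10 → c ≤ F t) :
    c * ρ * P / 100 ≤ ∫ t in P..(2 * P), F t := by
  have N0 : 0 < N := by linarith only [hP, hM, hN]
  obtain ⟨τ, t0, t1, t2, t3⟩ : ∃ τ : ℝ, 0 < τ ∧ τ ≤ 1 / 2 ∧ 20 * P ≤ τ * N ∧ ∀ b j : ℕ,
      |τ * b - j - 1 / 2| ≤ 28 / 100 → ∃ m : ℤ, |M / N * b - 1 / 2 - m| ≤ 28 / 100 := by
    rcases le_total M (N - M) with e | e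
    · refine ⟨M / N, div_pos (by linarith only [hP, hM]) N0, by rw [div_le_iff₀ N0]; linarith only [e],
        by rwa [div_mul_cancel₀ _ N0.ne'], fun b j hb => ⟨j, ?_⟩⟩
      rwa [sub_right_comm, Int.cast_natCast]
    · refine ⟨(N - M) / N, div_pos (by linarith only [hP, hN]) N0, by rw [div_le_iff₀ N0]; linarith only [e],
        by rwa [div_mul_cancel₀ _ N0.ne'], fun b j hb => ⟨b - j - 1, ?_⟩⟩
      rw [← abs_neg]
      convert hb using 2
      push_cast
      field_simp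
      ring
  obtain ⟨S, hS, hS'⟩ := good τ (τ * N / P) t0 t1 (by rwa [le_div_iff₀ hP])
  have hb : ∀ b ∈ S, N / (2 * P) ≤ b ∧ b + 2 / 100 ≤ N / P := fun b hb => by
    obtain ⟨a1, a2, -⟩ := hS' b hb
    refine ⟨le_of_mul_le_mul_left (by rw [← mul_div_assoc, mul_comm 2, ← div_div]; exact a1) t0,
      le_of_mul_le_mul_left (by rw [← mul_div_assoc]; linarith only [hρ, hρy, hy, t1, a2]) t0⟩
  have q0 : 0 < N / (2 * P) := by positivity
  let I : ℕ → Set ℝ := fun b => Set.Icc (N / (b + y₀ + ρ)) (N / (b + y₀ - ρ))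
  have hI : ∀ b ∈ S, ∀ t ∈ I b, t ∈ Set.Icc P (2 * P) ∧ b + y₀ - ρ ≤ N / t ∧
      N / t ≤ b + y₀ + ρ := fun b hb' t ht => by
    obtain ⟨a1, a2⟩ := hb b hb'
    have p1 : 0 < b + y₀ - ρ := by linarith only [hρy, q0, a1]
    have p2 : 0 < b + y₀ + ρ := by linarith only [hρ, hρy, q0, a1]
    have tp : 0 < t := (div_pos N0 p2).trans_le ht.1
    refine ⟨⟨le_trans ?_ ht.1, ht.2.trans ?_⟩, (le_div_comm₀ tp p1).1 ht.2,
      (div_le_comm₀ p2 tp).1 ht.1⟩
    · exact (le_div_comm₀ hP p2).2 (by linarith only [hρy, hy, a2])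
    · exact (div_le_comm₀ p1 (by positivity)).2 (by linarith only [hρy, a1])
  have hint : MeasureTheory.IntegrableOn F (Set.Icc P (2 * P)) := hF.integrableOn_Icc
  have hsub : ∀ b ∈ S, I b ⊆ Set.Icc P (2 * P) := fun b hb t ht => (hI b hb t ht).1
  have each : ∀ b ∈ S, c * (2 * ρ * P ^ 2 / N) ≤ ∫ t in I b, F t := fun b hb' => by
    refine le_trans ?_ (MeasureTheory.setIntegral_ge_of_const_le_real (c := c) measurableSet_Icc
      measure_Icc_lt_top.ne (fun t ht => ?_) (hint.mono_set (hsub b hb')))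
    · obtain ⟨a1, a2⟩ := hb b hb'
      have p1 : 0 < b + y₀ - ρ := by linarith only [hρy, q0, a1]
      have p2 : 0 < b + y₀ + ρ := by linarith only [hρ, hρy, q0, a1]
      refine mul_le_mul_of_nonneg_left ?_ hc
      rw [Real.volume_real_Icc]
      refine le_trans ?_ (le_max_left _ _)
      have e : N / (b + y₀ - ρ) - N / (b + y₀ + ρ) =
          2 * ρ * N / ((b + y₀ - ρ) * (b + y₀ + ρ)) := by
        field_simp
        ring
      have e' : 2 * ρ * P ^ 2 / N = 2 * ρ * N / (N / P * (N / P)) := by field_simp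
      rw [e, e']
      gcongr <;> linarith only [hρ, hρy, hy, a2]
    · obtain ⟨a1, a2, a3⟩ := hI b hb' t ht
      obtain ⟨j, hj⟩ := (hS' b hb').2.2
      obtain ⟨m, hm⟩ := t3 b j hj
      refine h t a1 ((dZ_le _ b).trans (abs_le.2 ⟨by push_cast; linarith only [a2], by push_cast; linarith only [a3]⟩))
        ((dZ_le _ m).trans ?_)
      have e : M / t = M / N * b + M / N * (N / t - b) := by
        field_simp
        ring
      have m0 : 0 ≤ M / N := div_nonneg (by linarith only [hP, hM]) N0.le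
      have m1 : M / N ≤ 1 := (div_le_one N0).2 (by linarith only [hP, hN])
      have k0 := mul_nonneg m0 (show 0 ≤ N / t - b by linarith only [hρy, a2])
      have k1 := mul_le_mul_of_nonneg_right m1 (show 0 ≤ N / t - b by linarith only [hρy, a2])
      rw [abs_le] at hm ⊢
      constructor <;> linarith only [hρ, hρy, hy, hm, e, k0, a3, k1, hm.1, hm.2]
  have disj : Set.Pairwise (S : Set ℕ) (Function.onFun Disjoint I) := fun b hb b' hb' hne =>
    Set.disjoint_left.2 fun t ht ht' => by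
      obtain ⟨-, a1, a2⟩ := hI b hb t ht
      obtain ⟨-, a3, a4⟩ := hI b' hb' t ht'
      have h1 : b < b' + 1 := by exact_mod_cast (by linarith only [hρ, hρy, hy, a1, a4] : (b : ℝ) < b' + 1)
      have h2 : b' < b + 1 := by exact_mod_cast (by linarith only [hρ, hρy, hy, a2, a3] : (b' : ℝ) < b + 1)
      omega
  rw [intervalIntegral.integral_of_le (by linarith only [hP]), ← MeasureTheory.integral_Icc_eq_integral_Ioc]
  refine le_trans ?_ (MeasureTheory.setIntegral_mono_set (s := ⋃ b ∈ S, I b) hint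
    ((MeasureTheory.ae_restrict_iff' measurableSet_Icc).2 (Filter.Eventually.of_forall hF0))
    (Set.iUnion₂_subset hsub).eventuallyLE)
  rw [MeasureTheory.integral_biUnion_finset S (fun _ _ => measurableSet_Icc) disj
    fun b hb => hint.mono_set (hsub b hb)]
  refine le_trans ?_ (card_nsmul_le_sum S _ _ each)
  rw [nsmul_eq_mul]
  refine le_trans ?_ (mul_le_mul_of_nonneg_right hS (by positivity))
  have : τ * N / P / (10 * τ) * (c * (2 * ρ * P ^ 2 / N)) = c * ρ * P / 5 := by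
    field_simp
    ring
  rw [this]
  have : 0 ≤ c * ρ * P := by positivity
  linarith only [this]

end Pool.Agent.Work.MP_453366_nt
end
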