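import Pool.Agent.Work.MP_453366_nt.Vin
import Pool.Agent.Work.MP_453366_nt.Real
import Pool.Agent.Lib.ANT.PNTError
import Mathlib
import Pool.Agent.Lib.ANT.PNT

-- merged part: Pool.Agent.Work.MP_453366_nt.Transfer
section
/-! Exponential sums `e(X/p)` over primes. -/

set_option autoImplicit false

namespace Pool.Agent.Work.MP_453366_nt

open Finset Filter ArithmeticFunction Pool.Agent.Lib.LargeSieve Pool.Agent.Lib.ANT

namespace Transfer

lemma tlog : Tendsto (fun P : ℕ => Real.log P) atTop atTop :=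
  Real.tendsto_log_atTop.comp tendsto_natCast_atTop_atTop

lemma evL (c : ℝ) : ∀ᶠ P : ℕ in atTop, c ≤ Real.log P := tlog.eventually_ge_atTop c

lemma evP (c : ℝ) (n : ℕ) : ∀ᶠ P : ℕ in atTop, c * Real.log P ^ n ≤ P := by
  have h := (Real.isLittleO_pow_log_id_atTop (n := n)).const_mul_left c
  filter_upwards [tendsto_natCast_atTop_atTop.eventually (h.bound one_pos)] with P hP
  have := le_abs_self (c * Real.log P ^ n)
  simp only [Real.norm_eq_abs, id, one_mul, Nat.abs_cast] at hP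
  linarith only [this, hP]

lemma sqrt_facts (P : ℕ) (hP : 1 ≤ P) : 1 ≤ P.sqrt.sqrt ∧ P.sqrt.sqrt ^ 4 ≤ P ∧
    P ≤ 16 * P.sqrt.sqrt ^ 4 := by
  have h1 : 1 ≤ P.sqrt.sqrt := Nat.le_sqrt.2 (Nat.le_sqrt.2 hP)
  have h2 := Nat.sqrt_le' P
  have h3 := Nat.sqrt_le' P.sqrt
  have h4 := Nat.lt_succ_sqrt' P
  have h5 := Nat.lt_succ_sqrt' P.sqrt
  refine ⟨h1, ?_, ?_⟩
  · calc P.sqrt.sqrt ^ 4 = (P.sqrt.sqrt ^ 2) ^ 2 := by ring
      _ ≤ P.sqrt ^ 2 := Nat.pow_le_pow_left h3 2
      _ ≤ P := h2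
  · calc P ≤ P.sqrt.succ ^ 2 := h4.le
      _ ≤ (P.sqrt.sqrt.succ ^ 2) ^ 2 := Nat.pow_le_pow_left h5 2
      _ ≤ ((2 * P.sqrt.sqrt) ^ 2) ^ 2 :=
          Nat.pow_le_pow_left (Nat.pow_le_pow_left (by omega) 2) 2
      _ = _ := by ring

lemma evW (c : ℝ) (n : ℕ) :
    ∀ᶠ P : ℕ in atTop, c * Real.log P ^ n ≤ (P.sqrt.sqrt : ℝ) / 2 := by
  filter_upwards [evP (256 * c ^ 4) (4 * n), eventually_ge_atTop 1] with P h1 h2
  have h3 : (P : ℝ) ≤ 16 * (P.sqrt.sqrt : ℝ) ^ 4 := by exact_mod_cast (sqrt_facts P h2).2.2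
  refine le_of_pow_le_pow_left₀ (by norm_num : 4 ≠ 0) (by positivity) ?_
  rw [mul_pow, ← pow_mul, mul_comm n 4]
  linarith only [h1, h3]

lemma peel (θ : ℝ) (hθ : θ < 3 / 2) (K : ℕ) : ∀ᶠ U : ℝ in atTop, ∀ (Y : ℝ) (A B : ℕ), Y ≠ 0 →
    |Y| ≤ Real.exp (Real.log U ^ θ) → U ≤ A + 1 → (B : ℝ) ≤ 2 * U →
    ‖∑ u ∈ Ioc A B, ee (Y / u)‖ ≤ 1 + 2 * U ^ 2 / |Y| + U / Real.log U ^ K := by
  filter_upwards [expsum θ hθ K, eventually_ge_atTop 1] with U h hU Y A B h1 h2 h3 h4
  have h5 := h Y (A + 1) B h1 h2 (by exact_mod_cast h3) h4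
  rcases le_or_gt B A with h6 | h6
  · rw [Ioc_eq_empty (by omega), sum_empty, norm_zero]
    have := Real.log_nonneg hU
    positivity
  · rw [← Finset.insert_Ioc_add_one_left_eq_Ioc h6, sum_insert (by simp)]
    refine (norm_add_le _ _).trans ?_
    rw [norm_ee]
    linarith only [h5]

lemma key (θ : ℝ) (hθ : θ < 3 / 2) (K : ℕ) : ∀ᶠ P : ℕ in atTop, ∀ (U Y : ℝ) (A B : ℕ),
    (P.sqrt.sqrt : ℝ) / 2 ≤ U → |Y| ≤ Real.exp (Real.log P ^ θ) → U ≤ A + 1 → (B : ℝ) ≤ 2 * U →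
    6 * U * Real.log P ^ K ≤ |Y| → ‖∑ u ∈ Ioc A B, ee (Y / u)‖ ≤ U / Real.log P ^ K := by
  set θ₀ := max θ 1 with h₀
  have h₁ : θ₀ < 3 / 2 := max_lt hθ (by norm_num)
  have h₂ : 1 ≤ θ₀ := le_max_right _ _
  set θ' := (θ₀ + 3 / 2) / 2 with h'
  obtain ⟨U₀, hU₀⟩ := eventually_atTop.1 (peel θ' (by linarith only [h₁, h']) (K + 1))
  have hr := ((tendsto_rpow_atTop (y := θ' - θ₀) (by linarith only [h₁, h'])).comp tlog).eventually_ge_atTop
    ((5 : ℝ) ^ θ')
  filter_upwards [hr, evW U₀ 0, evW 256 0, evW 3 K, evL (3 * 5 ^ (K + 1)), eventually_ge_atTop 1]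
    with P e1 e2 e3 e4 e5 e6 U Y A B g1 g2 g3 g4 g5
  simp only [pow_zero, mul_one, Function.comp] at e1 e2 e3
  set L := Real.log P with hL
  have hL1 : 1 ≤ L := by
    have : (1 : ℝ) ≤ 5 ^ (K + 1) := one_le_pow₀ (by norm_num)
    linarith only [e5, this]
  have hU : 256 ≤ U := e3.trans g1
  have hLK : 0 < L ^ K := by positivity
  have hY : 0 < |Y| := lt_of_lt_of_le (by positivity) g5
  have hlog : L / 5 ≤ Real.log U := by
    have a1 : (P : ℝ) ≤ 16 * (P.sqrt.sqrt : ℝ) ^ 4 := by exact_mod_cast (sqrt_facts P e6).2.2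
    have a2 : (P.sqrt.sqrt : ℝ) ^ 4 ≤ (2 * U) ^ 4 := pow_le_pow_left₀ (by positivity) (by linarith only [g1]) 4
    have a3 : (P : ℝ) ≤ U ^ 5 := by
      have : 256 * U ^ 4 ≤ U * U ^ 4 := by gcongr
      linarith only [a1, a2, this]
    have a4 := Real.log_le_log (by exact_mod_cast e6) a3
    rw [Real.log_pow] at a4
    push_cast at a4
    linarith only [a4]
  have hexp : L ^ θ ≤ Real.log U ^ θ' := by
    refine le_trans ?_ (Real.rpow_le_rpow (by positivity) hlog (by linarith only [h₂, h']))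
    refine (Real.rpow_le_rpow_of_exponent_le hL1 (le_max_left θ 1)).trans ?_
    rw [Real.div_rpow (by linarith only [hL1]) (by norm_num), le_div_iff₀ (by positivity)]
    calc L ^ θ₀ * 5 ^ θ' ≤ L ^ θ₀ * L ^ (θ' - θ₀) := by gcongr
      _ = L ^ θ' := by rw [← Real.rpow_add (by linarith only [hL1])]; ring_nf
  refine (hU₀ U (e2.trans g1) Y A B (abs_pos.1 hY) (g2.trans (Real.exp_le_exp.2 hexp))
    g3 g4).trans ?_
  have b1 : 1 ≤ U / L ^ K / 3 := by
    rw [le_div_iff₀ (by norm_num), le_div_iff₀ hLK]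
    linarith only [g1, e4]
  have b2 : 2 * U ^ 2 / |Y| ≤ U / L ^ K / 3 := by
    rw [div_div, div_le_div_iff₀ hY (by positivity)]
    linarith only [g5, g4, mul_nonneg_of_nonpos_of_nonpos (Mathlib.Tactic.Linarith.sub_nonpos_of_le (Mathlib.Tactic.Linarith.natCast_nonneg ℝ B)) (Mathlib.Tactic.Linarith.sub_nonpos_of_le g5), mul_nonneg_of_nonpos_of_nonpos (Mathlib.Tactic.Linarith.sub_nonpos_of_le g4) (Mathlib.Tactic.Linarith.sub_nonpos_of_le g5)]
  have b3 : U / Real.log U ^ (K + 1) ≤ U / L ^ K / 3 := by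
    rw [div_div]
    refine div_le_div_of_nonneg_left (by linarith only [g1, e3]) (by positivity) ?_
    refine le_trans ?_ (pow_le_pow_left₀ (by positivity) hlog (K + 1))
    rw [div_pow, le_div_iff₀ (by positivity), pow_succ L]
    linarith only [e5, hLK, mul_nonneg_of_nonpos_of_nonpos (Mathlib.Tactic.Linarith.sub_nonpos_of_le e5) (le_of_lt (Mathlib.Tactic.Linarith.sub_neg_of_lt hLK))]
  linarith only [b1, b2, b3]

end Transfer

open Transfer

theorem minor_arc (θ : ℝ) (hθ : θ < 3 / 2) (K : ℕ) : ∃ B : ℕ, ∀ᶠ P : ℕ in atTop, ∀ X : ℝ,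
    P * Real.log P ^ B ≤ |X| → |X| ≤ Real.exp (Real.log P ^ θ) →
    ‖∑ n ∈ Ioc P (2 * P), (vonMangoldt n : ℂ) * ee (X / n)‖ ≤ P / Real.log P ^ K := by
  obtain ⟨K', hK'⟩ : ∃ K', K' = 2 * K + 8 := ⟨_, rfl⟩
  refine ⟨2 * K' + 1, ?_⟩
  filter_upwards [key θ hθ K', evW 1 K', evL 480, eventually_ge_atTop 1] with P e1 e2 e3 e4 X g1 g2
  obtain ⟨w1, w2, -⟩ := sqrt_facts P e4
  set W := P.sqrt.sqrt with hW
  set L := Real.log P with hL
  have hP : (1 : ℝ) ≤ P := by exact_mod_cast e4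
  have hW1 : (1 : ℝ) ≤ W := by exact_mod_cast w1
  have hW4 : (W : ℝ) ^ 4 ≤ P := by exact_mod_cast w2
  have hLK : 1 ≤ L ^ K' := one_le_pow₀ (by linarith only [e3])
  have hB : L ^ (2 * K' + 1) = L ^ K' * L ^ K' * L := by ring
  rw [hB] at g1
  set κ : ℕ → ℂ := fun n => if P < n ∧ n ≤ 2 * P then ee (X / n) else 0 with hκ
  have hv := vaughan_bound κ P W (1 / L ^ K') w1
    (le_trans (Nat.le_self_pow (by norm_num) W) w2) (by positivity)
    (fun n => by simp only [hκ]; split_ifs <;> simp)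
    (fun n hn => by simp only [hκ]; rw [if_neg (by omega)])
    (fun d hd1 hd2 y => by
      have hd : (1 : ℝ) ≤ d := by exact_mod_cast hd1
      have hdW : (d : ℝ) ≤ (W : ℝ) ^ 2 := by exact_mod_cast hd2
      have e : ∑ m ∈ Icc 1 y, κ (d * m) = ∑ m ∈ Ioc (P / d) (min y (2 * P / d)), ee (X / d / m) := by
        simp only [hκ]
        rw [← sum_filter]
        refine sum_congr ?_ fun m _ => by rw [div_div]; push_cast; rfl
        ext m
        simp only [mem_filter, mem_Icc, mem_Ioc, le_min_iff, Nat.div_lt_iff_lt_mul hd1,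
          Nat.le_div_iff_mul_le hd1, mul_comm m d]
        refine ⟨fun h => ⟨h.2.1, h.1.2, h.2.2⟩, fun h => ⟨⟨?_, h.2.1⟩, h.1, h.2.2⟩⟩
        rcases Nat.eq_zero_or_pos m with rfl | hm
        · simp at h
        · exact hm
      have a1 : |X / d| = |X| / d := by rw [abs_div, Nat.abs_cast]
      have := e1 (P / d) (X / d) (P / d) (min y (2 * P / d)) (by
          clear * - W P d hd hdW e4 L K' e2 hW4 hLK
          rw [le_div_iff₀ (by linarith only [hd])]
          have : (W : ℝ) / 2 * d ≤ W / 2 * W ^ 2 := by gcongr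
          (refine le_of_not_gt fun h_nl => ?_; linarith only [h_nl, e2, hW4, hLK, hd, hdW, pow_pos (by linarith : (0 : ℝ) < W) 3, mul_nonneg_of_nonpos_of_nonpos (Mathlib.Tactic.Linarith.sub_nonpos_of_le (sq_nonneg ((1 : ℝ) * ↑W))) (Mathlib.Tactic.Linarith.sub_nonpos_of_le hd), mul_nonneg_of_nonpos_of_nonpos (Mathlib.Tactic.Linarith.sub_nonpos_of_le (sq_nonneg ((1 : ℝ) * ↑W))) (Mathlib.Tactic.Linarith.sub_nonpos_of_le hdW), mul_nonneg_of_nonpos_of_nonpos (Mathlib.Tactic.Linarith.sub_nonpos_of_le (Mathlib.Tactic.Linarith.natCast_nonneg ℝ P)) (Mathlib.Tactic.Linarith.sub_nonpos_of_le e2), mul_nonneg_of_nonpos_of_nonpos (Mathlib.Tactic.Linarith.sub_nonpos_of_le (Mathlib.Tactic.Linarith.natCast_nonneg ℝ P)) (Mathlib.Tactic.Linarith.sub_nonpos_of_le hLK), mul_nonneg_of_nonpos_of_nonpos (Mathlib.Tactic.Linarith.sub_nonpos_of_le (Mathlib.Tactic.Linarith.natCast_nonneg ℝ W)) (Mathlib.Tactic.Linarith.sub_nonpos_of_le e2), mul_nonneg_of_nonpos_of_nonpos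 (Mathlib.Tactic.Linarith.sub_nonpos_of_le (Mathlib.Tactic.Linarith.natCast_nonneg ℝ W)) (Mathlib.Tactic.Linarith.sub_nonpos_of_le hLK), mul_nonneg_of_nonpos_of_nonpos (Mathlib.Tactic.Linarith.sub_nonpos_of_le (Mathlib.Tactic.Linarith.natCast_nonneg ℝ W)) (le_of_lt (Mathlib.Tactic.Linarith.sub_neg_of_lt h_nl))]))
        (by rw [a1]; exact (div_le_self (abs_nonneg _) hd).trans g2)
        (by
          rw [div_le_iff₀ (by linarith only [hd])]
          have := Nat.lt_div_mul_add (a := P) hd1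
          have : (P : ℝ) ≤ (P / d : ℕ) * d + d := by exact_mod_cast this.le
          linarith only [this])
        (by
          refine le_trans (b := ((2 * P / d : ℕ) : ℝ)) (by exact_mod_cast min_le_right _ _) ?_
          refine Nat.cast_div_le.trans (le_of_eq ?_)
          push_cast
          ring)
        (by
          clear * - P d L K' X a1 hd hd1 e3 e4 hLK g1
          rw [a1, le_div_iff₀ (by linarith only [hd])]
          refine le_trans ?_ g1
          have : 6 * (P / d) * L ^ K' * d = P * (L ^ K' * 1 * 6) := by field_simp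
          rw [this]
          gcongr
          linarith only [e3])
      rw [e]
      refine this.trans (le_of_eq ?_)
      field_simp)
    (fun v w hv1 hvw hw2 hwW hη => by
      have hv0 : 0 < v := by omega
      have hw0 : 0 < w := by omega
      have hv : (1 : ℝ) ≤ v := by exact_mod_cast hv0
      have hvw' : (v : ℝ) < w := by exact_mod_cast hvw
      have hw2' : (w : ℝ) < 2 * v := by exact_mod_cast hw2
      have hwW' : (w : ℝ) * W ≤ 2 * P := by exact_mod_cast hwW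
      have e : ∑ u ∈ Icc 1 (2 * P), κ (u * v) * (starRingEnd ℂ) (κ (u * w)) =
          ∑ u ∈ Ioc (P / v) (2 * P / w), ee (X * ((w - v) / (v * w)) / u) := by
        clear * - P v w X κ hκ hv0 hw0 hvw
        symm
        refine sum_subset_zero_on_sdiff (fun u hu => ?_) (fun u hu => ?_) fun u hu => ?_
        · rw [mem_Ioc] at hu
          exact mem_Icc.2 ⟨(Nat.zero_le _).trans_lt hu.1, hu.2.trans (Nat.div_le_self _ _)⟩
        · simp only [Finset.mem_sdiff, mem_Ioc, Nat.div_lt_iff_lt_mul hv0, Nat.le_div_iff_mul_le hw0,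
            not_and_or] at hu
          simp only [hκ]
          rcases hu.2 with h | h
          · rw [if_neg (fun h' => h h'.1), zero_mul]
          · rw [if_neg (c := P < u * w ∧ u * w ≤ 2 * P) (fun h' => h h'.2), _root_.map_zero, mul_zero]
        · simp only [mem_Ioc, Nat.div_lt_iff_lt_mul hv0, Nat.le_div_iff_mul_le hw0] at hu
          have h3 : u * v ≤ u * w := Nat.mul_le_mul_left u hvw.le
          have hu0 : (u : ℝ) ≠ 0 := by
            rintro h
            have : u = 0 := by exact_mod_cast h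
            subst this
            simp at hu
          simp only [hκ]
          rw [if_pos ⟨hu.1, h3.trans hu.2⟩, if_pos ⟨hu.1.trans_le h3, hu.2⟩, conj_ee, ← ee_add]
          congr 1
          push_cast
          field_simp
          ring
      have a1 : |X * ((w - v) / (v * w))| = |X| * ((w - v) / (v * w)) := by
        rw [abs_mul, abs_of_nonneg (a := ((w : ℝ) - v) / (v * w))
          (div_nonneg (by linarith only [hvw']) (by positivity))]
      have := e1 (P / v) (X * ((w - v) / (v * w))) (P / v) (2 * P / w) (by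
          rw [le_div_iff₀ (by linarith only [hvw', hw2'])]
          linarith only [hwW', hvw', mul_nonneg_of_nonpos_of_nonpos (Mathlib.Tactic.Linarith.sub_nonpos_of_le (Mathlib.Tactic.Linarith.natCast_nonneg ℝ W)) (le_of_lt (Mathlib.Tactic.Linarith.sub_neg_of_lt hvw'))])
        (by
          rw [a1]
          refine (mul_le_of_le_one_right (abs_nonneg _) ?_).trans g2
          rw [div_le_one (by positivity)]
          linarith only [hw2', hv, hvw', mul_nonneg_of_nonpos_of_nonpos (Mathlib.Tactic.Linarith.sub_nonpos_of_le (Mathlib.Tactic.Linarith.natCast_nonneg ℝ v)) (Mathlib.Tactic.Linarith.sub_nonpos_of_le hv), mul_nonneg_of_nonpos_of_nonpos (Mathlib.Tactic.Linarith.sub_nonpos_of_le (Mathlib.Tactic.Linarith.natCast_nonneg ℝ v)) (le_of_lt (Mathlib.Tactic.Linarith.sub_neg_of_lt hvw'))])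
        (by
          rw [div_le_iff₀ (by linarith only [hvw', hw2'])]
          have := Nat.lt_div_mul_add (a := P) hv0
          have : (P : ℝ) ≤ (P / v : ℕ) * v + v := by exact_mod_cast this.le
          linarith only [this])
        (by
          refine Nat.cast_div_le.trans ?_
          push_cast
          rw [mul_div_assoc]
          gcongr)
        (by
          clear * - P v L K' X w a1 hv0 hw0 hη hw2' hvw' e3 e4 g1
          rw [a1]
          have b1 : 1 / L ^ K' / (2 * v) ≤ (w - v) / (v * w) := by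
            rw [div_le_div_iff₀ (by positivity) (by positivity)]
            have : 1 / L ^ K' * v * w ≤ (w - v) * (2 * v) :=
              mul_le_mul hη hw2'.le (by positivity) (by linarith only [hvw'])
            linarith only [this]
          refine le_trans ?_ (mul_le_mul g1 b1 (by positivity) (abs_nonneg _))
          have : P * (L ^ K' * L ^ K' * L) * (1 / L ^ K' / (2 * v)) =
              (L / 2) * (P / v) * L ^ K' := by field_simp
          rw [this]
          gcongr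
          linarith only [e3])
      rw [e]
      refine this.trans (le_of_eq ?_)
      field_simp)
  have e : ∑ n ∈ Icc 1 (2 * P), (vonMangoldt n : ℂ) * κ n =
      ∑ n ∈ Ioc P (2 * P), (vonMangoldt n : ℂ) * ee (X / n) := by
    symm
    refine sum_subset_zero_on_sdiff (fun u hu => ?_) (fun u hu => ?_) fun u hu => ?_
    · rw [mem_Ioc] at hu
      exact mem_Icc.2 ⟨by omega, hu.2⟩
    · simp only [Finset.mem_sdiff, mem_Ioc] at hu
      simp only [hκ]
      rw [if_neg hu.2, mul_zero]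
    · simp only [hκ]
      rw [if_pos (mem_Ioc.1 hu)]
  rw [e] at hv
  refine hv.trans ?_
  have c1 : 1 + Real.log (2 * P) ≤ 2 * L := by
    rw [Real.log_mul (by norm_num) (by linarith only [hP])]
    have := Real.log_two_lt_d9
    linarith only [e3, this]
  have c0 : 0 ≤ Real.log (2 * P) := Real.log_nonneg (by linarith only [hP])
  have c2 : 1 / L ^ K' ≤ 1 / L ^ (K + 4) :=
    one_div_le_one_div_of_le (by positivity) (pow_le_pow_right₀ (by linarith only [e3]) (by omega))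
  have c3 : √(1 / L ^ K' + 1 / W) ≤ 2 / L ^ (K + 4) := by
    refine Real.sqrt_le_iff.2 ⟨by positivity, ?_⟩
    have d1 : 1 / (W : ℝ) ≤ 1 / L ^ K' := one_div_le_one_div_of_le (by positivity) (by linarith only [e2, hLK])
    have d2 : (2 / L ^ (K + 4)) ^ 2 = 4 * (1 / L ^ K') := by
      rw [hK']
      field_simp
      ring
    have d3 : 0 ≤ 1 / L ^ K' := by positivity
    linarith only [d1, d2, d3]
  calc _ ≤ 20 * (2 * L) ^ 3 * P * (1 / L ^ (K + 4) + 2 / L ^ (K + 4)) := by clear * - P L K' W K c0 c1 e4 c2 c3 e3; gcongr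
    _ = 480 / L * (P / L ^ K) := by field_simp; ring
    _ ≤ _ := mul_le_of_le_one_left (by positivity) ((div_le_one (by linarith only [e3])).2 e3)

theorem major_arc (B K : ℕ) : ∀ᶠ P : ℕ in atTop, ∀ X : ℝ, |X| ≤ P * Real.log P ^ B →
    ‖∑ n ∈ Ioc P (2 * P), (vonMangoldt n : ℂ) * ee (X / n) - ∫ t in (P : ℝ)..(2 * P), ee (X / t)‖
      ≤ P / Real.log P ^ K := by
  obtain ⟨X₀, hX₀⟩ := eventually_atTop.1 (pnt_error (B + K + 1))
  filter_upwards [evP 14 (B + K), evL 64, eventually_ge_atTop 1, eventually_ge_atTop X₀]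
    with P e1 e2 e3 e4 X g1
  set L := Real.log P with hL
  have hP : (1 : ℝ) ≤ P := by exact_mod_cast e3
  have hLB : 1 ≤ L ^ B := one_le_pow₀ (by linarith only [e2])
  have hpsi : ∀ x ≤ 2 * P, |∑ n ∈ Ioc 0 x, (vonMangoldt n - 1)| ≤ 2 * P / L ^ (B + K + 1) := by
    intro x hx
    have a1 := hX₀ (2 * P) (by omega) x hx
    rw [sum_sub_distrib, sum_const, Nat.card_Ioc, nsmul_eq_mul, mul_one, Nat.sub_zero]
    refine a1.trans ?_
    push_cast
    gcongr
    exact Real.log_le_log (by linarith only [hP]) (by linarith only [hP])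
  have h1 := abel_ee_div X (A := P) (B := 2 * P) e3 (fun u => vonMangoldt u - 1)
    (E := 4 * P / L ^ (B + K + 1)) (by positivity) fun x hx1 hx2 => by
      have a1 := sum_Ioc_consecutive (fun u => vonMangoldt u - 1) (Nat.zero_le P) hx1
      have a2 := abs_le.1 (hpsi x hx2)
      have a3 := abs_le.1 (hpsi P (by omega))
      have a4 : 4 * P / L ^ (B + K + 1) = 2 * P / L ^ (B + K + 1) + 2 * P / L ^ (B + K + 1) := by
        ring
      rw [abs_le]
      constructor <;> linarith only [a1, a2, a3, a4, a2.1, a2.2, a3.1, a3.2]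
  have h2 := norm_sum_sub_integral_le X (A := P) (B := 2 * P) e3 (by omega)
  push_cast at h1 h2
  have h3 : 7 * |X| / P ≤ 7 * L ^ B := by
    rw [div_le_iff₀ (by linarith only [hP])]
    linarith only [g1]
  have e : ∑ n ∈ Ioc P (2 * P), (vonMangoldt n : ℂ) * ee (X / n)
      - ∫ t in (P : ℝ)..(2 * P), ee (X / t) =
      ∑ n ∈ Ioc P (2 * P), ((vonMangoldt n : ℂ) - 1) * ee (X / n) +
        (∑ n ∈ Ioc P (2 * P), ee (X / n) - ∫ t in (P : ℝ)..(2 * P), ee (X / t)) := by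
    simp only [sub_mul, one_mul, sum_sub_distrib]
    ring
  rw [e]
  refine (norm_add_le _ _).trans ?_
  have h4 : 4 * P / L ^ (B + K + 1) * (1 + 7 * |X| / P) ≤ P / L ^ K / 2 := by
    calc _ ≤ 4 * P / L ^ (B + K + 1) * (8 * L ^ B) := by gcongr; linarith only [hLB, h3]
      _ = 64 / L * (P / L ^ K / 2) := by field_simp; ring
      _ ≤ _ := mul_le_of_le_one_left (by positivity) ((div_le_one (by linarith only [e2])).2 e2)
  have h5 : 7 * L ^ B ≤ P / L ^ K / 2 := by
    rw [le_div_iff₀ (by norm_num), le_div_iff₀ (by positivity)]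
    rw [pow_add] at e1
    linarith only [e1]
  linarith only [h1, h2, h3, h4, h5]

theorem prime_transfer (θ : ℝ) (hθ : θ < 3 / 2) (K : ℕ) : ∀ᶠ P : ℕ in atTop, ∀ X : ℝ,
    |X| ≤ Real.exp (Real.log P ^ θ) →
    ‖∑ p ∈ (Ioc P (2 * P)).filter Nat.Prime, (Real.log p : ℂ) * ee (X / p)
      - ∫ t in (P : ℝ)..(2 * P), ee (X / t)‖ ≤ P / Real.log P ^ K := by
  obtain ⟨B, hB⟩ := minor_arc θ hθ (K + 1)
  filter_upwards [hB, major_arc (B + (K + 1)) (K + 1), evP 64 (2 * (K + 2)), evL 4,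
    eventually_ge_atTop 1] with P e1 e2 e3 e4 e5 X g
  set L := Real.log P with hL
  have hP : (1 : ℝ) ≤ P := by exact_mod_cast e5
  have hq : 0 ≤ P / L ^ (K + 1) := by positivity
  have h1 : ‖∑ n ∈ Ioc P (2 * P), (vonMangoldt n : ℂ) * ee (X / n)
      - ∫ t in (P : ℝ)..(2 * P), ee (X / t)‖ ≤ 3 * (P / L ^ (K + 1)) := by
    rcases le_total |X| (P * L ^ (B + (K + 1))) with h | h
    · linarith only [hq, e2, h, e2 X h]
    · have a0 : 0 < |X| := lt_of_lt_of_le (by positivity) h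
      have a1 := e1 X (le_trans (mul_le_mul_of_nonneg_left
        (pow_le_pow_right₀ (by linarith only [e4]) (by omega)) (by linarith only [hP])) h) g
      have a2 := norm_integral_ee_div_le X (abs_pos.1 a0) (A := P) (B := 2 * P) (by linarith only [hP])
        (by linarith only [hP])
      have a3 : (2 * P : ℝ) ^ 2 / (2 * |X|) ≤ 2 * (P / L ^ (K + 1)) := by
        have b1 : P * L ^ (K + 1) ≤ |X| := le_trans (mul_le_mul_of_nonneg_left
          (pow_le_pow_right₀ (by linarith only [e4]) (by omega)) (by linarith only [hP])) h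
        calc (2 * P : ℝ) ^ 2 / (2 * |X|) ≤ (2 * P) ^ 2 / (2 * (P * L ^ (K + 1))) := by gcongr
          _ = _ := by field_simp
      linarith only [a1, a2, a3, norm_sub_le (∑ n ∈ Ioc P (2 * P), (vonMangoldt n : ℂ) * ee (X / n))
        (∫ t in (P : ℝ)..(2 * P), ee (X / t))]
  have h2 : ∑ n ∈ Ioc P (2 * P) with ¬ n.Prime, vonMangoldt n ≤ P / L ^ (K + 1) := by
    have a1 := Chebyshev.psi_sub_theta_le (x := ((2 * P : ℕ) : ℝ)) (by push_cast; linarith only [hP])
    rw [Chebyshev.psi_sub_theta_eq_sum_not_prime, Nat.floor_natCast] at a1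
    refine (sum_le_sum_of_subset_of_nonneg (filter_subset_filter _
      (Ioc_subset_Ioc_left (Nat.zero_le P))) fun _ _ _ => vonMangoldt_nonneg).trans (a1.trans ?_)
    push_cast
    have c1 : Real.log (2 * P) ≤ 2 * L := by
      rw [Real.log_mul (by norm_num) (by linarith only [hP])]
      have := Real.log_two_lt_d9
      linarith only [e4, this]
    have c0 : 0 ≤ Real.log (2 * P) := Real.log_nonneg (by linarith only [hP])
    have c2 : √(2 * P : ℝ) ≤ 2 * √P := by
      refine Real.sqrt_le_iff.2 ⟨by positivity, ?_⟩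
      rw [mul_pow, Real.sq_sqrt (by linarith only [hP])]
      linarith only [hP]
    have c3 : 8 * L ^ (K + 2) ≤ √(P : ℝ) := by
      refine Real.le_sqrt_of_sq_le ?_
      rw [mul_pow, ← pow_mul, mul_comm (K + 2)]
      linarith only [e3]
    rw [le_div_iff₀ (by positivity)]
    calc 2 * √(2 * P : ℝ) * Real.log (2 * P) * L ^ (K + 1)
        ≤ 2 * (2 * √P) * (2 * L) * L ^ (K + 1) := by gcongr
      _ = √P * (8 * L ^ (K + 2)) := by ring
      _ ≤ √P * √P := by gcongr
      _ = P := Real.mul_self_sqrt (by linarith only [hP])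
  have e : ∑ p ∈ (Ioc P (2 * P)).filter Nat.Prime, (Real.log p : ℂ) * ee (X / p)
      - ∫ t in (P : ℝ)..(2 * P), ee (X / t) =
      (∑ n ∈ Ioc P (2 * P), (vonMangoldt n : ℂ) * ee (X / n)
        - ∫ t in (P : ℝ)..(2 * P), ee (X / t)) -
      ∑ n ∈ Ioc P (2 * P) with ¬ n.Prime, (vonMangoldt n : ℂ) * ee (X / n) := by
    rw [← sum_filter_add_sum_filter_not (Ioc P (2 * P)) Nat.Prime
      (fun n => (vonMangoldt n : ℂ) * ee (X / n))]
    have : ∑ p ∈ (Ioc P (2 * P)).filter Nat.Prime, (Real.log p : ℂ) * ee (X / p) =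
        ∑ p ∈ (Ioc P (2 * P)).filter Nat.Prime, (vonMangoldt p : ℂ) * ee (X / p) :=
      sum_congr rfl fun p hp => by rw [vonMangoldt_apply_prime (mem_filter.1 hp).2]
    rw [this]
    ring
  rw [e]
  refine (norm_sub_le _ _).trans ?_
  have h3 : ‖∑ n ∈ Ioc P (2 * P) with ¬ n.Prime, (vonMangoldt n : ℂ) * ee (X / n)‖
      ≤ P / L ^ (K + 1) := by
    refine (norm_sum_le _ _).trans (le_trans (le_of_eq (sum_congr rfl fun n _ => ?_)) h2)
    rw [norm_mul, norm_ee, mul_one, Complex.norm_real, Real.norm_of_nonneg vonMangoldt_nonneg]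
  calc _ ≤ 4 * (P / L ^ (K + 1)) := by linarith only [h1, h3]
    _ = 4 / L * (P / L ^ K) := by field_simp; ring
    _ ≤ _ := mul_le_of_le_one_left (by positivity) ((div_le_one (by linarith only [e4])).2 e4)

end Pool.Agent.Work.MP_453366_nt
end

-- merged part: Pool.Agent.Work.MP_453366_nt.Core
section
/-! A prime with prescribed fractional parts of `N/p` and `M/p`. -/

set_option autoImplicit false

namespace Pool.Agent.Work.MP_453366_nt

open Finset Filter Pool.Agent.Lib.LargeSieve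

namespace CoreAux

lemma tendsto_log_nat : Tendsto (fun P : ℕ => Real.log P) atTop atTop :=
  Real.tendsto_log_atTop.comp tendsto_natCast_atTop_atTop

lemma poly_le_exp (C : ℝ) (n : ℕ) : ∀ᶠ L : ℝ in atTop, C * L ^ n ≤ Real.exp L := by
  have h := (Real.isLittleO_pow_exp_atTop (n := n)).bound (c := 1 / (|C| + 1)) (by positivity)
  filter_upwards [h, eventually_ge_atTop 0] with L h1 h2
  rw [Real.norm_of_nonneg (by positivity), Real.norm_of_nonneg (by positivity)] at h1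
  have h3 : 0 < |C| + 1 := by positivity
  calc C * L ^ n ≤ (|C| + 1) * L ^ n := by gcongr; linarith [le_abs_self C]
    _ ≤ (|C| + 1) * (1 / (|C| + 1) * Real.exp L) := by gcongr
    _ = _ := by field_simp

/-- room in the exponent -/
lemma room (θ : ℝ) (hθ : θ < 3 / 2) : ∃ θ' : ℝ, θ' < 3 / 2 ∧ 0 ≤ θ' ∧ ∀ (C : ℝ) (n : ℕ),
    ∀ᶠ L : ℝ in atTop, C * L ^ n * Real.exp (L + 6 * L ^ θ) ≤ Real.exp (L ^ θ') := by
  have h0 : max θ 1 < 3 / 2 := max_lt hθ (by norm_num)
  refine ⟨(max θ 1 + 3 / 2) / 2, by linarith only [h0], by linarith only [le_max_right θ 1], fun C n => ?_⟩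
  have ht := tendsto_rpow_atTop (y := (3 / 2 - max θ 1) / 2) (by linarith only [h0])
  filter_upwards [poly_le_exp C n, eventually_ge_atTop 1, ht.eventually_ge_atTop 8] with L h1 h2 h3
  have a1 : L ^ θ ≤ L ^ max θ 1 := Real.rpow_le_rpow_of_exponent_le h2 (le_max_left _ _)
  have a2 : L ≤ L ^ max θ 1 := by
    simpa using Real.rpow_le_rpow_of_exponent_le h2 (le_max_right θ 1)
  have a3 : L ^ ((max θ 1 + 3 / 2) / 2) = L ^ max θ 1 * L ^ ((3 / 2 - max θ 1) / 2) := by
    rw [← Real.rpow_add (by linarith only [h2])]; congr 1; ring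
  calc _ ≤ Real.exp L * Real.exp (L + 6 * L ^ θ) := by gcongr
    _ = Real.exp (L + (L + 6 * L ^ θ)) := (Real.exp_add _ _).symm
    _ ≤ _ := by
      rw [Real.exp_le_exp, a3]
      linarith only [h3, a1, a2, h2, mul_nonneg_of_nonpos_of_nonpos (Mathlib.Tactic.Linarith.sub_nonpos_of_le h2) (Mathlib.Tactic.Linarith.sub_nonpos_of_le h3), mul_nonneg_of_nonpos_of_nonpos (Mathlib.Tactic.Linarith.sub_nonpos_of_le h3) (Mathlib.Tactic.Linarith.sub_nonpos_of_le a2)]

/-- transfer from exponentials to products of test functions -/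
lemma transfer_bump (P : ℕ) (hP : 0 < P) (N M y₀ y₁ R E : ℝ) (r r' : ℕ) (hM : 0 ≤ M) (hMN : M ≤ N)
    (hR : (r + r') * N ≤ R)
    (h : ∀ X : ℝ, |X| ≤ R → ‖∑ p ∈ (Ioc P (2 * P)).filter Nat.Prime, (Real.log p : ℂ) * ee (X / p)
      - ∫ t in (P : ℝ)..(2 * P), ee (X / t)‖ ≤ E) :
    |∑ p ∈ (Ioc P (2 * P)).filter Nat.Prime,
        Real.log p * (bump r (N / p - y₀) * bump r' (M / p - y₁))
      - ∫ t in (P : ℝ)..(2 * P), bump r (N / t - y₀) * bump r' (M / t - y₁)| ≤ E := by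
  obtain ⟨c, hc0, hc1, hc⟩ := bump_eq r
  obtain ⟨d, hd0, hd1, hd⟩ := bump_eq r'
  have hP' : (0 : ℝ) < P := by exact_mod_cast hP
  set S := range (2 * r + 1) ×ˢ range (2 * r' + 1) with hS
  set X : ℕ × ℕ → ℝ := fun j => ((j.1 : ℝ) - r) * N + ((j.2 : ℝ) - r') * M with hX
  set w : ℕ × ℕ → ℂ := fun j => (c j.1 * d j.2 : ℝ) *
    ee (-(((j.1 : ℝ) - r) * y₀ + ((j.2 : ℝ) - r') * y₁)) with hw
  have e : ∀ t : ℝ, ((bump r (N / t - y₀) * bump r' (M / t - y₁) : ℝ) : ℂ)
      = ∑ j ∈ S, w j * ee (X j / t) := fun t => by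
    rw [Complex.ofReal_mul, hc, hd, sum_mul_sum, hS, sum_product]
    refine sum_congr rfl fun i _ => sum_congr rfl fun j _ => ?_
    simp only [hw, hX]
    rw [mul_mul_mul_comm, ← ee_add, mul_assoc (((c i * d j : ℝ)) : ℂ), ← ee_add]
    push_cast
    congr 2
    ring
  have hXR : ∀ j ∈ S, |X j| ≤ R := fun j hj => by
    obtain ⟨h1, h2⟩ := mem_product.1 hj
    have a1 : (j.1 : ℝ) ≤ 2 * r := by exact_mod_cast Nat.lt_succ_iff.1 (mem_range.1 h1)
    have a2 : (j.2 : ℝ) ≤ 2 * r' := by exact_mod_cast Nat.lt_succ_iff.1 (mem_range.1 h2)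
    have a3 : |(j.1 : ℝ) - r| ≤ r := abs_le.2 ⟨by linarith only [j.1.cast_nonneg (α := ℝ)], by linarith⟩
    have a4 : |(j.2 : ℝ) - r'| ≤ r' :=
      abs_le.2 ⟨by linarith [j.2.cast_nonneg (α := ℝ)], by linarith only [a2]⟩
    refine (abs_add_le _ _).trans (le_trans ?_ hR)
    rw [abs_mul, abs_mul, abs_of_nonneg hM, abs_of_nonneg (hM.trans hMN), add_mul]
    gcongr
    exact hM.trans hMN
  have key : ((∑ p ∈ (Ioc P (2 * P)).filter Nat.Prime,
        Real.log p * (bump r (N / p - y₀) * bump r' (M / p - y₁))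
      - ∫ t in (P : ℝ)..(2 * P), bump r (N / t - y₀) * bump r' (M / t - y₁) : ℝ) : ℂ)
      = ∑ j ∈ S, w j * (∑ p ∈ (Ioc P (2 * P)).filter Nat.Prime, (Real.log p : ℂ) * ee (X j / p)
        - ∫ t in (P : ℝ)..(2 * P), ee (X j / t)) := by
    rw [Complex.ofReal_sub, ← intervalIntegral.integral_ofReal, Complex.ofReal_sum]
    simp only [Complex.ofReal_mul (Real.log _), e]
    rw [intervalIntegral.integral_finsetSum fun j _ =>
      (intervalIntegrable_ee_div (X j) hP' (by positivity)).const_mul _]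
    simp only [intervalIntegral.integral_const_mul, mul_sub, sum_sub_distrib, mul_sum]
    rw [sum_comm]
    congr 1
    exact sum_congr rfl fun j _ => sum_congr rfl fun p _ => by ring
  rw [← Real.norm_eq_abs, ← Complex.norm_real, key]
  refine (norm_sum_le _ _).trans ?_
  calc _ ≤ ∑ j ∈ S, c j.1 * d j.2 * E := by
        refine sum_le_sum fun j hj => ?_
        rw [norm_mul, hw]
        simp only [norm_mul, norm_ee, mul_one, Complex.norm_real]
        rw [Real.norm_of_nonneg (hc0 _), Real.norm_of_nonneg (hd0 _)]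
        exact mul_le_mul_of_nonneg_left (h _ (hXR j hj)) (mul_nonneg (hc0 _) (hd0 _))
    _ = E := by rw [← sum_mul, hS, sum_product, ← sum_mul_sum, hc1, hd1]; ring

lemma sum_log_le (P : ℕ) : ∑ p ∈ (Ioc P (2 * P)).filter Nat.Prime, Real.log p ≤ 3 * P := by
  have h := Chebyshev.theta_le_log4_mul_x (x := ((2 * P : ℕ) : ℝ)) (by positivity)
  have h4 : Real.log 4 ≤ 3 / 2 := by
    rw [show (4 : ℝ) = 2 ^ 2 by norm_num, Real.log_pow]
    have := Real.log_two_lt_d9
    push_cast; linarith only [this]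
  rw [Chebyshev.theta, Nat.floor_natCast] at h
  refine le_trans (sum_le_sum_of_subset_of_nonneg (filter_subset_filter _
    (Ioc_subset_Ioc_left (Nat.zero_le P))) fun p _ _ => Real.log_natCast_nonneg p) (h.trans ?_)
  push_cast
  linarith only [h4, P.cast_nonneg (α := ℝ), mul_nonneg_of_nonpos_of_nonpos (Mathlib.Tactic.Linarith.sub_nonpos_of_le (Mathlib.Tactic.Linarith.natCast_nonneg ℝ P)) (Mathlib.Tactic.Linarith.sub_nonpos_of_le h4)]

end CoreAux

open CoreAux

theorem core (θ : ℝ) (hθ : θ < 3 / 2) : ∀ᶠ P : ℕ in atTop, ∀ N M : ℝ,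
    N ≤ Real.exp (Real.log P ^ θ) → 20 * P ≤ M → 20 * P ≤ N - M →
    ∃ p : ℕ, p.Prime ∧ P < p ∧ p ≤ 2 * P ∧
      dZ (N / p - 1 / (4 * Real.log P ^ 2)) < 1 / (4 * Real.log P ^ 2) ∧
      dZ (M / p - 1 / 2) < 49 / 100 := by
  obtain ⟨θ', hθ', -, hroom⟩ := room θ hθ
  filter_upwards [prime_transfer θ' hθ' 25, tendsto_log_nat.eventually (hroom 66 6),
    tendsto_log_nat.eventually (poly_le_exp (2 * 10 ^ 6) 23),
    tendsto_log_nat.eventually_ge_atTop 600, eventually_gt_atTop 0] with P hT h1 h2 hL hP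
  intro N M hN hM hNM
  have hP' : (0 : ℝ) < P := by exact_mod_cast hP
  rw [Real.exp_log hP'] at h2
  set L := Real.log P with hLdef
  have hL0 : 0 < L := by linarith only [hL]
  have hM0 : 0 < M := by linarith only [hM, hP']
  have hN0 : 0 < N := by linarith only [hM, hNM, hP']
  by_contra hcon
  push Not at hcon
  obtain ⟨n, hn1, hn2⟩ := exists_nat_pow_near (x := L ^ 5) (y := (2 : ℝ))
    (one_le_pow₀ (by linarith only [hL])) (by norm_num)
  set r' := n + 1 with hr'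
  have hn3 : (2 : ℝ) ^ r' ≤ 2 * L ^ 5 := by rw [hr', pow_succ]; linarith only [hn1]
  obtain hr'le : (r' : ℝ) ≤ 2 * L ^ 5 := by
    refine le_trans ?_ hn3
    exact_mod_cast (Nat.lt_two_pow_self (n := r')).le
  set R : ℕ := ⌈L⌉₊ ^ 3 with hR
  have hc1 : L ≤ ⌈L⌉₊ := Nat.le_ceil L
  have hc2 : (⌈L⌉₊ : ℝ) ≤ 2 * L := by linarith only [hL, hL0, Nat.ceil_lt_add_one hL0.le]
  have hR1 : L ^ 3 ≤ R := by rw [hR]; push_cast; gcongr
  obtain hR2 : (R : ℝ) ≤ 8 * L ^ 3 := by
    rw [hR]; push_cast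
    calc _ ≤ (2 * L) ^ 3 := by gcongr
      _ = _ := by ring
  have hL3 : 0 < L ^ 3 := by positivity
  have hR0 : (0 : ℝ) < R := by linarith only [hR1, hL3]
  set y₀ : ℝ := 1 / (4 * L ^ 2) with hy₀
  have hy0 : 0 < y₀ := by positivity
  obtain hfreq : (((R ^ 2 : ℕ) : ℝ) + r') * N ≤ Real.exp (L ^ θ') := by
    clear * - R r' N L θ θ' hL hR2 hL0 hr'le hN hN0 h1
    refine le_trans ?_ h1
    obtain a1 : ((R ^ 2 : ℕ) : ℝ) ≤ 64 * L ^ 6 := by
      push_cast
      calc _ ≤ (8 * L ^ 3) ^ 2 := by gcongr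
        _ = _ := by ring
    have a2 : L ^ 5 ≤ L ^ 6 := pow_le_pow_right₀ (by linarith only [hL]) (by norm_num)
    obtain a3 : Real.exp (L ^ θ) ≤ Real.exp (L + 6 * L ^ θ) := by
      rw [Real.exp_le_exp]; linarith only [hL, hL0, Real.rpow_nonneg hL0.le θ]
    exact mul_le_mul (by linarith only [hr'le, a1, a2]) (hN.trans a3) hN0.le (by positivity)
  have hB := transfer_bump P hP N M y₀ (1 / 2) _ _ (R ^ 2) r' hM0.le (by linarith only [hNM, hP']) hfreq hT
  set w : ℝ := (1 / 10) ^ r' with hw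
  have hw0 : 0 < w := by positivity
  obtain hw1 : 1 / (16 * L ^ 20) ≤ w := by
    clear * - L r' w hn3 hw
    calc 1 / (16 * L ^ 20) = 1 / (2 * L ^ 5) ^ 4 := by ring
      _ ≤ 1 / ((2 : ℝ) ^ r') ^ 4 := by gcongr
      _ = (1 / 16) ^ r' := by rw [← pow_mul, mul_comm, pow_mul, one_div_pow]; norm_num
      _ ≤ w := by rw [hw]; gcongr; norm_num
  -- upper bound for the sum over primes
  obtain hup : ∑ p ∈ (Ioc P (2 * P)).filter Nat.Prime,
      Real.log p * (bump (R ^ 2) (N / p - y₀) * bump r' (M / p - 1 / 2))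
      ≤ 3 * P * (1 / P + w / L ^ 5) := by
    clear * - P R N y₀ r' M w L hcon hL hn2 hw hP n hy0 hR1 hy₀ hLdef hP'
    refine le_trans (sum_le_sum (g := fun p : ℕ => Real.log p * (1 / P + w / L ^ 5))
      fun p hp => ?_) ?_
    · obtain ⟨hp1, hp2⟩ := mem_filter.1 hp
      obtain ⟨hp3, hp4⟩ := mem_Ioc.1 hp1
      refine mul_le_mul_of_nonneg_left ?_ (Real.log_natCast_nonneg p)
      by_cases hc : dZ (N / p - y₀) < y₀
      · have b1 := bump_le r' (by norm_num) (hcon p hp2 hp3 hp4 hc)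
        obtain b2 : (1 - 4 * (49 / 100 : ℝ) ^ 2) ^ r' ≤ w / L ^ 5 := by
          clear * - r' w L hL hn2 hw
          rw [le_div_iff₀ (by positivity)]
          calc _ ≤ (1 - 4 * (49 / 100 : ℝ) ^ 2) ^ r' * 2 ^ r' := by gcongr
            _ = ((1 - 4 * (49 / 100 : ℝ) ^ 2) * 2) ^ r' := (mul_pow _ _ _).symm
            _ ≤ w := by rw [hw]; gcongr; norm_num
        have b3 := mul_le_of_le_one_left (bump_nonneg r' (M / p - 1 / 2))
          (bump_le_one (R ^ 2) (N / p - y₀))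
        have : (0 : ℝ) < 1 / P := by positivity
        linarith only [b1, b2, b3, this]
      · have b1 := bump_le (R ^ 2) hy0.le (not_lt.1 hc)
        obtain b0 : 4 * y₀ ^ 2 ≤ 1 := by
          have := (not_lt.1 hc).trans (dZ_le_half _)
          linarith only [this, hy0, mul_nonneg_of_nonpos_of_nonpos (le_of_lt (Mathlib.Tactic.Linarith.sub_neg_of_lt hy0)) (Mathlib.Tactic.Linarith.sub_nonpos_of_le this)]
        obtain b2 : (1 - 4 * y₀ ^ 2) ^ (R ^ 2) ≤ 1 / P := by
          clear * - y₀ R L P b0 hL hR1 hy₀ hLdef hP'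
          calc _ ≤ Real.exp (-(4 * y₀ ^ 2)) ^ (R ^ 2) := by
                gcongr
                linarith only [Real.add_one_le_exp (-(4 * y₀ ^ 2))]
            _ = Real.exp ((R ^ 2 : ℕ) * -(4 * y₀ ^ 2)) := (Real.exp_nat_mul _ _).symm
            _ ≤ Real.exp (-L) := by
                rw [Real.exp_le_exp]
                have c1 : (L ^ 3) ^ 2 ≤ ((R ^ 2 : ℕ) : ℝ) := by push_cast; gcongr
                obtain c2 : (L ^ 3) ^ 2 * (4 * y₀ ^ 2) = L * (L / 4) := by
                  rw [hy₀]; field_simp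
                have c3 := mul_le_mul_of_nonneg_right c1 (by positivity : 0 ≤ 4 * y₀ ^ 2)
                linarith only [hL, c2, c3, mul_nonneg_of_nonpos_of_nonpos (Mathlib.Tactic.Linarith.sub_nonpos_of_le hL) (Mathlib.Tactic.Linarith.sub_nonpos_of_le hL)]
            _ = 1 / P := by rw [Real.exp_neg, hLdef, Real.exp_log hP', one_div]
        have b3 := mul_le_of_le_one_right (bump_nonneg (R ^ 2) (N / p - y₀))
          (bump_le_one r' (M / p - 1 / 2))
        have : (0 : ℝ) < w / L ^ 5 := by positivity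
        linarith only [b1, b2, b3, this]
    · rw [← sum_mul]
      exact mul_le_mul_of_nonneg_right (sum_log_le P) (by positivity)
  -- lower bound for the integral
  have hne : ∀ t ∈ Set.Icc (P : ℝ) (2 * P), t ≠ 0 := fun t ht => by linarith only [hP', ht, ht.1] |> ne_of_gt
  have hlow := integral_lower P N M y₀ (1 / (5 * R)) (3 / 5 * w)
    (fun t => bump (R ^ 2) (N / t - y₀) * bump r' (M / t - 1 / 2)) hP' hM hNM (by positivity)
    (one_div_le_one_div_of_le (by positivity) (by linarith only [hR1, hL3, hL, mul_nonneg_of_nonpos_of_nonpos (Mathlib.Tactic.Linarith.sub_nonpos_of_le (sq_nonneg L)) (Mathlib.Tactic.Linarith.sub_nonpos_of_le hL)]))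
    (one_div_le_one_div_of_le (by norm_num) (by linarith only [hL, mul_nonneg_of_nonpos_of_nonpos (Mathlib.Tactic.Linarith.sub_nonpos_of_le hL) (Mathlib.Tactic.Linarith.sub_nonpos_of_le hL)])) (by positivity)
    (((continuous_bump _).comp_continuousOn
        ((continuousOn_const.div continuousOn_id hne).sub continuousOn_const)).mul
      ((continuous_bump _).comp_continuousOn
        ((continuousOn_const.div continuousOn_id hne).sub continuousOn_const)))
    (fun t _ => mul_nonneg (bump_nonneg _ _) (bump_nonneg _ _)) fun t _ a1 a2 => by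
      clear * - R L r' n hL hn2 hn3 hR1 hR0 hL3 N t y₀ a1 M a2 w hw hw0
      have hR1' : (1 : ℝ) ≤ R := by (refine le_of_not_gt fun h_nl => ?_; linarith only [h_nl, hL, hn2, hn3, hR1, mul_nonneg_of_nonpos_of_nonpos (Mathlib.Tactic.Linarith.sub_nonpos_of_le (sq_nonneg L)) (Mathlib.Tactic.Linarith.sub_nonpos_of_le hL), mul_nonneg_of_nonpos_of_nonpos (Mathlib.Tactic.Linarith.sub_nonpos_of_le (sq_nonneg L)) (Mathlib.Tactic.Linarith.sub_nonpos_of_le hR1), mul_nonneg_of_nonpos_of_nonpos (Mathlib.Tactic.Linarith.sub_nonpos_of_le (sq_nonneg L)) (le_of_lt (Mathlib.Tactic.Linarith.sub_neg_of_lt h_nl)), mul_nonneg_of_nonpos_of_nonpos (Mathlib.Tactic.Linarith.sub_nonpos_of_le hL) (Mathlib.Tactic.Linarith.sub_nonpos_of_le hL)])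
      have c0 : 10 * (1 / (5 * (R : ℝ))) ^ 2 = 2 / 5 / (R : ℝ) ^ 2 := by field_simp; norm_num
      have c1 : 2 / 5 / (R : ℝ) ^ 2 ≤ 1 := by rw [div_le_one (by positivity)]; linarith only [hR1, hL3, hR1', mul_nonneg_of_nonpos_of_nonpos (Mathlib.Tactic.Linarith.sub_nonpos_of_le (Mathlib.Tactic.Linarith.natCast_nonneg ℝ R)) (Mathlib.Tactic.Linarith.sub_nonpos_of_le hR1')]
      have b1 := le_bump (R ^ 2) a1 (by rw [c0]; exact c1)
      have b2 := le_bump r' a2 (by norm_num)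
      have b3 := one_add_mul_le_pow (a := -(2 / 5 / (R : ℝ) ^ 2)) (by linarith only [c1]) (R ^ 2)
      obtain c2 : 1 + ((R ^ 2 : ℕ) : ℝ) * -(2 / 5 / (R : ℝ) ^ 2) = 3 / 5 := by
        push_cast; field_simp; norm_num
      rw [c2, ← sub_eq_add_neg, ← c0] at b3
      refine mul_le_mul (b3.trans b1) (le_trans (le_of_eq ?_) b2) hw0.le (bump_nonneg _ _)
      rw [hw]; norm_num
  obtain f1 : w * P / (7000 * L ^ 3) ≤ 3 / 5 * w * (1 / (5 * R)) * P / 100 := by
    clear * - w P L R hL hP hR0 hw0 r' hR2 hL3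
    rw [div_le_iff₀ (by positivity)]
    have : 3 / 5 * w * (1 / (5 * R)) * P / 100 * (7000 * L ^ 3) = w * P * (42 / 5 * L ^ 3 / R) := by
      field_simp; norm_num
    rw [this]
    refine le_mul_of_one_le_right (by positivity) ?_
    rw [le_div_iff₀ hR0]; linarith only [hR2, hL3]
  have hL2 : 360000 ≤ L ^ 2 := by linarith only [hL, mul_nonneg_of_nonpos_of_nonpos (Mathlib.Tactic.Linarith.sub_nonpos_of_le hL) (Mathlib.Tactic.Linarith.sub_nonpos_of_le hL)]
  obtain f2 : 3 * P * (w / L ^ 5) ≤ w * P / (21000 * L ^ 3) := by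
    clear * - P w L hL hw0 hP r' hL2
    rw [le_div_iff₀ (by positivity)]
    have : 3 * P * (w / L ^ 5) * (21000 * L ^ 3) = w * P * (63000 / L ^ 2) := by
      field_simp; norm_num
    rw [this]
    refine mul_le_of_le_one_right (by positivity) ?_
    rw [div_le_one (by positivity)]; linarith only [hL2]
  obtain f0 : P / (336000 * L ^ 23) ≤ w * P / (21000 * L ^ 3) := by
    clear * - P L w hL hP hw1
    calc P / (336000 * L ^ 23) = 1 / (16 * L ^ 20) * P / (21000 * L ^ 3) := by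
          field_simp; norm_num
      _ ≤ _ := by gcongr
  obtain f3 : P / L ^ 25 ≤ P / (336000 * L ^ 23) := by
    clear * - P L hP' hL hL2
    refine div_le_div_of_nonneg_left hP'.le (by positivity) ?_
    rw [show L ^ 25 = L ^ 2 * L ^ 23 by ring]
    gcongr; linarith only [hL2]
  obtain f4 : 3 < P / (336000 * L ^ 23) := by
    rw [lt_div_iff₀ (by positivity)]
    have : 0 < L ^ 23 := by positivity
    linarith only [h2, this]
  have f5 : 3 * (P : ℝ) * (1 / P + w / L ^ 5) = 3 + 3 * P * (w / L ^ 5) := by field_simp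
  have f6 : w * P / (7000 * L ^ 3) = 3 * (w * P / (21000 * L ^ 3)) := by field_simp; norm_num
  have := (abs_le.1 hB).1
  clear * - P R N y₀ r' M w L n hup hlow f1 f2 f0 f3 f4 f5 f6 this; linarith only [hup, hlow, f1, f2, f0, f3, f4, f5, f6, this]

end Pool.Agent.Work.MP_453366_nt
end

-- merged part: Pool.Agent.Work.MP_453366_nt.Size
section
/-! Size of the least common multiple of a block. -/

set_option autoImplicit false

namespace Pool.Agent.Work.MP_453366_nt

open Finset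

namespace Size

/-- `(n + l + 1) * C(n + l, l)` divides every common multiple of `n + 1, ..., n + l + 1`. -/
lemma mul_choose_dvd (l : ℕ) : ∀ (n M : ℕ), (∀ x, n + 1 ≤ x → x ≤ n + l + 1 → x ∣ M) →
    (n + l + 1) * (n + l).choose l ∣ M := by
  induction l with
  | zero =>
    intro n M h
    simpa using h (n + 1) le_rfl (by omega)
  | succ l ih =>
    intro n M h
    obtain ⟨a, ha⟩ := ih n M (fun x h1 h2 => h x h1 (by omega))
    obtain ⟨b, hb⟩ := ih (n + 1) M (fun x h1 h2 => h x (by omega) (by omega))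
    have e1 : (n + l + 1) * (n + l).choose l = (n + l + 1).choose (l + 1) * (l + 1) :=
      Nat.add_one_mul_choose_eq (n + l) l
    have e2 : (n + l).choose l * (n + l + 1) = (n + l + 1).choose l * (n + 1) := by
      have := Nat.choose_mul_succ_eq (n + l) l
      rwa [show n + l + 1 - l = n + 1 by omega] at this
    rw [show n + 1 + l = n + l + 1 by ring] at hb
    rw [show n + (l + 1) = n + l + 1 by ring]
    set c0 := (n + l).choose l
    set c1 := (n + l + 1).choose (l + 1)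
    set c2 := (n + l + 1).choose l
    have e1' : ((n : ℤ) + l + 1) * c0 = c1 * (l + 1) := by exact_mod_cast e1
    have e2' : (c0 : ℤ) * (n + l + 1) = c2 * (n + 1) := by exact_mod_cast e2
    have ha' : (M : ℤ) = (n + l + 1) * c0 * a := by exact_mod_cast ha
    have hb' : (M : ℤ) = (n + l + 1 + 1) * c2 * b := by exact_mod_cast hb
    have key : ((l : ℤ) + 1) * M = (l + 1) * (((n + l + 1 + 1) * c1) * (a - b)) := by
      linear_combination (n + l + 2) * ha' - (n + 1) * hb' + (n + l + 2) * (a - b) * e1'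
        + (n + l + 2) * b * e2'
    have hl : ((l : ℤ) + 1) ≠ 0 := by positivity
    have key2 := mul_left_cancel₀ hl key
    have : (((n + l + 1 + 1) * c1 : ℕ) : ℤ) ∣ (M : ℤ) := ⟨a - b, by push_cast; exact key2⟩
    exact Int.natCast_dvd_natCast.1 this

lemma dvd_choose_mul (x c k : ℕ) (hx : 1 ≤ x) (hc : c < k) :
    x ∣ (x + c).choose k * (Icc 1 k).lcm id := by
  rw [Nat.add_choose_eq, sum_mul]
  refine dvd_sum fun ij hij => ?_
  rw [HasAntidiagonal.mem_antidiagonal] at hij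
  obtain ⟨i, j⟩ := ij
  simp only at hij ⊢
  rcases i with _ | i
  · have : c.choose j = 0 := Nat.choose_eq_zero_of_lt (by omega)
    simp [this]
  · obtain ⟨y, rfl⟩ : ∃ y, x = y + 1 := ⟨x - 1, by omega⟩
    have e := Nat.add_one_mul_choose_eq y i
    have hd : i + 1 ∣ (Icc 1 k).lcm id :=
      Finset.dvd_lcm (f := id) (b := i + 1) (mem_Icc.2 ⟨by omega, by omega⟩)
    obtain ⟨t, ht⟩ := hd
    rw [ht]
    refine ⟨y.choose i * c.choose j * t, ?_⟩
    calc (y + 1).choose (i + 1) * c.choose j * ((i + 1) * t)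
        = ((y + 1).choose (i + 1) * (i + 1)) * (c.choose j * t) := by ring
      _ = (y + 1) * (y.choose i * c.choose j * t) := by rw [← e]; ring

lemma choose_growth (n k l : ℕ) (hl : 0 < l) (d : ℕ) (hd : k + d ≤ l) :
    ((n + k).choose k : ℝ) * ((n : ℝ) / l) ^ d ≤ (n + (k + d)).choose (k + d) := by
  induction d with
  | zero => simp
  | succ d ih =>
    have ih' := ih (by omega)
    have e : (n + (k + d) + 1) * (n + (k + d)).choose (k + d)
        = (n + (k + d) + 1).choose (k + d + 1) * (k + d + 1) :=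
      Nat.add_one_mul_choose_eq _ _
    have e' : ((n : ℝ) + (k + d) + 1) * ((n + (k + d)).choose (k + d) : ℕ)
        = ((n + (k + d) + 1).choose (k + d + 1) : ℕ) * ((k : ℝ) + d + 1) := by
      exact_mod_cast e
    rw [show n + (k + (d + 1)) = n + (k + d) + 1 by ring, show k + (d + 1) = k + d + 1 by ring]
    set c0 : ℝ := (((n + (k + d)).choose (k + d) : ℕ) : ℝ)
    set c1 : ℝ := (((n + (k + d) + 1).choose (k + d + 1) : ℕ) : ℝ)
    have hc0 : 0 ≤ c0 := Nat.cast_nonneg _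
    have hc1 : 0 ≤ c1 := Nat.cast_nonneg _
    have hlr : (0 : ℝ) < l := by exact_mod_cast hl
    have hkd : (k : ℝ) + d + 1 ≤ l := by exact_mod_cast hd
    have hn : (0 : ℝ) ≤ n := Nat.cast_nonneg _
    have h1 : c0 * ((n : ℝ) / l) ≤ c1 := by
      rw [← mul_div_assoc, div_le_iff₀ hlr]
      have : c0 * n ≤ ((n : ℝ) + (k + d) + 1) * c0 := by
        have : (0 : ℝ) ≤ (k + d + 1) * c0 := by positivity
        linarith only [this]
      calc c0 * n ≤ c1 * ((k : ℝ) + d + 1) := by rw [← e']; exact this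
        _ ≤ c1 * l := by gcongr
    calc ((n + k).choose k : ℝ) * ((n : ℝ) / l) ^ (d + 1)
        = (((n + k).choose k : ℝ) * ((n : ℝ) / l) ^ d) * ((n : ℝ) / l) := by ring
      _ ≤ c0 * ((n : ℝ) / l) := by gcongr
      _ ≤ c1 := h1

lemma lcm_le_exp (k : ℕ) : (((Icc 1 k).lcm id : ℕ) : ℝ) ≤ Real.exp (6 * k) := by
  have h1 := Chebyshev.psi_eq_log_lcmUpto k
  have h2 := Chebyshev.psi_le_const_mul_self (x := (k : ℝ)) (Nat.cast_nonneg _)
  have hpos : (0 : ℝ) < (Nat.lcmUpto k : ℕ) := by exact_mod_cast Nat.lcmUpto_pos k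
  have h4 : Real.log 4 ≤ 2 := by
    have : Real.log 4 = 2 * Real.log 2 := by
      rw [show (4 : ℝ) = 2 ^ 2 by norm_num, Real.log_pow]; norm_num
    have := Real.log_two_lt_d9
    linarith
  have h3 : Real.log (Nat.lcmUpto k : ℕ) ≤ 6 * k := by
    rw [← h1]
    have : (0 : ℝ) ≤ k := Nat.cast_nonneg _
    linarith only [h2, h4, mul_nonneg_of_nonpos_of_nonpos (Mathlib.Tactic.Linarith.sub_nonpos_of_le (Mathlib.Tactic.Linarith.natCast_nonneg ℝ k)) (Mathlib.Tactic.Linarith.sub_nonpos_of_le h4)]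
  have := (Real.log_le_iff_le_exp hpos).1 h3
  exact this

end Size

lemma choose_dvd_lcm (n l : ℕ) : (n + l).choose l ∣ (Icc (n + 1) (n + l)).lcm id := by
  rcases l with _ | l
  · simp
  · have h := Size.mul_choose_dvd l n ((Icc (n + 1) (n + (l + 1))).lcm id) (fun x h1 h2 =>
      Finset.dvd_lcm (f := id) (b := x) (mem_Icc.2 ⟨h1, by omega⟩))
    rw [Nat.add_one_mul_choose_eq] at h
    exact (Dvd.intro _ rfl).trans h

lemma lcm_dvd_choose_mul (m k : ℕ) :
    (Icc (m + 1) (m + k)).lcm id ∣ (m + k).choose k * (Icc 1 k).lcm id := by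
  refine Finset.lcm_dvd fun x hx => ?_
  rw [mem_Icc] at hx
  have h := Size.dvd_choose_mul x (m + k - x) k (by omega) (by omega)
  rwa [show x + (m + k - x) = m + k by omega] at h

/-- if the second block is longer, it cannot start far out -/
theorem size_bound (m k n l : ℕ) (h : m + k ≤ n) (hkl : k < l)
    (he : (Icc (m + 1) (m + k)).lcm id = (Icc (n + 1) (n + l)).lcm id) :
    (n : ℝ) ≤ l * Real.exp (6 * k / ((l : ℝ) - k)) := by
  have hd : (n + l).choose l ∣ (m + k).choose k * (Icc 1 k).lcm id :=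
    (he ▸ choose_dvd_lcm n l).trans (lcm_dvd_choose_mul m k)
  have hL : 0 < (Icc 1 k).lcm id := Nat.lcmUpto_pos k
  have hC : 0 < (m + k).choose k := Nat.choose_pos (by omega)
  have h1 : (n + l).choose l ≤ (n + k).choose k * (Icc 1 k).lcm id :=
    (Nat.le_of_dvd (Nat.mul_pos hC hL) hd).trans
      (Nat.mul_le_mul_right _ (Nat.choose_le_choose k (by omega)))
  have h1' : ((n + l).choose l : ℝ) ≤ ((n + k).choose k : ℝ) * Real.exp (6 * k) := by
    have : ((n + l).choose l : ℝ) ≤ ((n + k).choose k : ℝ) * (((Icc 1 k).lcm id : ℕ) : ℝ) := by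
      exact_mod_cast h1
    refine this.trans ?_
    gcongr
    exact Size.lcm_le_exp k
  obtain ⟨d, rfl⟩ : ∃ d, l = k + d := ⟨l - k, by omega⟩
  have hd0 : 0 < d := by omega
  have h2 := Size.choose_growth n k (k + d) (by omega) d le_rfl
  have hCn : (0 : ℝ) < ((n + k).choose k : ℝ) := by
    exact_mod_cast Nat.choose_pos (by omega)
  have h3 : ((n : ℝ) / (k + d : ℕ)) ^ d ≤ Real.exp (6 * k) :=
    le_of_mul_le_mul_left (h2.trans h1') hCn
  have hdr : (0 : ℝ) < d := by exact_mod_cast hd0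
  have hlr : (0 : ℝ) < (k + d : ℕ) := by exact_mod_cast (by omega : 0 < k + d)
  have e : (((k + d : ℕ) : ℝ) - k) = d := by push_cast; ring
  rw [e]
  have e2 : Real.exp (6 * k) = Real.exp (6 * k / d) ^ d := by
    rw [← Real.exp_nat_mul]; congr 1; field_simp
  rw [e2] at h3
  have h4 : (n : ℝ) / (k + d : ℕ) ≤ Real.exp (6 * k / d) :=
    le_of_pow_le_pow_left₀ hd0.ne' (Real.exp_pos _).le h3
  rw [div_le_iff₀ hlr] at h4
  linarith only [h4]

end Pool.Agent.Work.MP_453366_nt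
end

-- merged part: Pool.Agent.Work.MP_453366_nt.Main
section
/-! Blocks of consecutive integers with the same prime divisors. -/

set_option autoImplicit false

namespace Pool.Agent.Work.MP_453366_nt

open Finset Filter ArithmeticFunction Pool.Agent.Lib.LargeSieve Pool.Agent.Lib.ANT CoreAux

lemma dvd_lcm_iff {p : ℕ} (hp : p.Prime) (s : Finset ℕ) : p ∣ s.lcm id ↔ ∃ i ∈ s, p ∣ i := by
  refine ⟨fun h => ?_, fun ⟨i, hi, h⟩ => h.trans (Finset.dvd_lcm (f := id) hi)⟩
  have : s.lcm id ∣ ∏ i ∈ s, i := Finset.lcm_dvd fun i hi => dvd_prod_of_mem (fun i => i) hi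
  exact hp.prime.exists_mem_finset_dvd (h.trans this)

lemma hit {p n l : ℕ} (hp : 0 < p) {δ : ℝ} (h : dZ (((n + l : ℕ) : ℝ) / p - δ) < δ)
    (hl : 2 * δ * p ≤ l) : ∃ i ∈ Icc (n + 1) (n + l), p ∣ i := by
  have hp' : (0 : ℝ) < p := by exact_mod_cast hp
  unfold dZ at h
  generalize round (((n + l : ℕ) : ℝ) / p - δ) = j at h
  obtain ⟨h1, h2⟩ := abs_lt.1 h
  have a1 : (j : ℝ) * p < (n + l : ℕ) := by rw [← lt_div_iff₀ hp']; linarith only [h1]
  have a2 : ((n + l : ℕ) : ℝ) < (j + 2 * δ) * p := by rw [← div_lt_iff₀ hp']; linarith only [h2]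
  have a3 : (n : ℝ) < j * p := by push_cast at a2; linarith only [hl, a2]
  have b1 : j * p < (n + l : ℕ) := by exact_mod_cast a1
  have b3 : (n : ℤ) < j * p := by exact_mod_cast a3
  refine ⟨(j * p).toNat, mem_Icc.2 ⟨by omega, by omega⟩, ?_⟩
  rw [← Int.natCast_dvd_natCast, Int.toNat_of_nonneg (by omega)]
  exact dvd_mul_left _ _

lemma miss {p m k : ℕ} (hp : 0 < p) (hk : 100 * k ≤ p)
    (h : dZ (((m + k : ℕ) : ℝ) / p - 1 / 2) < 49 / 100) : ¬ ∃ i ∈ Icc (m + 1) (m + k), p ∣ i := by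
  rintro ⟨i, hi, j, rfl⟩
  obtain ⟨h1, h2⟩ := mem_Icc.1 hi
  have hp' : (0 : ℝ) < p := by exact_mod_cast hp
  have a1 : (m : ℝ) + 1 ≤ p * j := by exact_mod_cast h1
  have a2 : (p : ℝ) * j ≤ (m + k : ℕ) := by exact_mod_cast h2
  have a3 : (100 : ℝ) * k ≤ p := by exact_mod_cast hk
  have b1 : (j : ℝ) ≤ ((m + k : ℕ) : ℝ) / p := by rw [le_div_iff₀ hp']; linarith only [a2]
  have b2 : ((m + k : ℕ) : ℝ) / p ≤ j + 1 / 100 := by
    rw [div_le_iff₀ hp']; push_cast; linarith only [a1, a3]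
  unfold dZ at h
  generalize round (((m + k : ℕ) : ℝ) / p - 1 / 2) = z at h
  obtain ⟨c1, c2⟩ := abs_lt.1 h
  have d1 : (z : ℝ) < j := by linarith only [b2, c1]
  have d2 : (j : ℝ) < z + 1 := by linarith only [b1, c2, d1]
  have e1 : z < j := by exact_mod_cast d1
  have e2 : (j : ℤ) < z + 1 := by exact_mod_cast d2
  omega

lemma prime_gap : ∀ᶠ X : ℕ in atTop, ∀ n ≤ X, (∀ p, p.Prime → n < p → X < p) →
    (X : ℝ) - n ≤ 3 * (X / Real.log X ^ 2) := by
  have e1 : ∀ᶠ X : ℕ in atTop, 2 * √(X : ℝ) * Real.log X ≤ X / Real.log X ^ 2 := by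
    have := (isLittleO_log_rpow_rpow_atTop (3 : ℝ) (s := 1 / 2) (by norm_num)).bound
      (c := 1 / 2) (by norm_num)
    filter_upwards [tendsto_natCast_atTop_atTop.eventually this,
      tendsto_log_nat.eventually_gt_atTop 0] with X h h0
    rw [Real.norm_of_nonneg (by positivity), Real.norm_of_nonneg (by positivity),
      ← Real.sqrt_eq_rpow, show (3 : ℝ) = (3 : ℕ) by norm_num, Real.rpow_natCast] at h
    rw [le_div_iff₀ (by positivity)]
    calc _ = 2 * √(X : ℝ) * Real.log X ^ 3 := by ring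
      _ ≤ 2 * √(X : ℝ) * (1 / 2 * √(X : ℝ)) := by gcongr
      _ = √(X : ℝ) * √(X : ℝ) := by ring
      _ = _ := Real.mul_self_sqrt (by positivity)
  filter_upwards [pnt_error 2, e1, eventually_ge_atTop 1] with X h1 h2 h3 n hn hp
  have a1 := (abs_le.1 (h1 X le_rfl)).1
  have a2 := (abs_le.1 (h1 n hn)).2
  have a3 := Chebyshev.psi_sub_theta_le (x := X) (by exact_mod_cast h3)
  rw [Chebyshev.psi_sub_theta_eq_sum_not_prime, Nat.floor_natCast] at a3
  have a4 : ∑ i ∈ Icc 1 X, vonMangoldt i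
      = ∑ i ∈ Icc 1 n, vonMangoldt i + ∑ i ∈ Ioc n X, vonMangoldt i :=
    (sum_Ioc_consecutive _ (Nat.zero_le n) hn).symm
  have a5 : ∑ i ∈ Ioc n X, vonMangoldt i ≤ 2 * √(X : ℝ) * Real.log X := by
    refine le_trans (sum_le_sum_of_subset_of_nonneg (fun i hi => ?_)
      fun _ _ _ => vonMangoldt_nonneg) a3
    obtain ⟨b1, b2⟩ := mem_Ioc.1 hi
    exact mem_filter.2 ⟨mem_Ioc.2 ⟨by omega, b2⟩, fun hpr => by have := hp i hpr b1; omega⟩
  linarith only [h2, a1, a2, a4, a5]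

lemma theta_le {m k n l : ℕ}
    (h : ∀ p, p.Prime → (∃ i ∈ Icc (m + 1) (m + k), p ∣ i) → ∃ i ∈ Icc (n + 1) (n + l), p ∣ i) :
    Chebyshev.theta k ≤ l * Real.log ((n + l : ℕ) : ℝ) := by
  have h1 : primorial k ∣ ∏ i ∈ Icc (n + 1) (n + l), i := by
    refine Finset.prod_primes_dvd _ (fun p hp => (mem_filter.1 hp).2.prime) fun p hp => ?_
    obtain ⟨h1, h2⟩ := mem_filter.1 hp
    have h3 : p ≤ k := Nat.lt_succ_iff.1 (mem_range.1 h1)
    have h4 := Nat.div_add_mod m p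
    have h5 := Nat.mod_lt m h2.pos
    obtain ⟨i, hi, hd⟩ := h p h2 ⟨p * (m / p + 1), mem_Icc.2 ⟨by rw [mul_add]; omega,
      by rw [mul_add]; omega⟩, dvd_mul_right _ _⟩
    exact hd.trans (dvd_prod_of_mem (fun i => i) hi)
  have h2 : ∏ i ∈ Icc (n + 1) (n + l), i ≤ (n + l) ^ l := by
    have := prod_le_pow_card (Icc (n + 1) (n + l)) (fun i => i) (n + l) fun i hi => (mem_Icc.1 hi).2
    rwa [Nat.card_Icc, show n + l + 1 - (n + 1) = l by omega] at this
  have h3 := (Nat.le_of_dvd (prod_pos fun i hi => by have := (mem_Icc.1 hi).1; omega) h1).trans h2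
  rw [Chebyshev.theta_eq_log_primorial, Nat.floor_natCast, ← Real.log_pow]
  exact Real.log_le_log (by exact_mod_cast primorial_pos k) (by exact_mod_cast h3)

theorem large (θ : ℝ) (hθ : θ < 3 / 2) : ∃ K₀ : ℕ, ∀ m k n l : ℕ, K₀ ≤ k + l → m + k ≤ n →
    (∀ p, p.Prime → ((∃ i ∈ Icc (m + 1) (m + k), p ∣ i) ↔ ∃ i ∈ Icc (n + 1) (n + l), p ∣ i)) →
    Real.exp (Real.log ((k + l : ℕ) : ℝ) ^ θ) < n := by
  obtain ⟨θ', hθ', hθ0, hroom⟩ := room θ hθ
  obtain ⟨P₀, hcore⟩ := eventually_atTop.1 (core θ' hθ')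
  obtain ⟨X₀, hgap⟩ := eventually_atTop.1 prime_gap
  obtain ⟨k₀, hk₀⟩ := eventually_atTop.1 ((tendsto_theta_div.comp
    tendsto_natCast_atTop_atTop).eventually (eventually_ge_nhds (by norm_num : (1 / 2 : ℝ) < 1)))
  obtain ⟨K₁, hK₁⟩ := eventually_atTop.1 ((tendsto_log_nat.eventually (hroom 2 0)).and
    (tendsto_log_nat.eventually_ge_atTop (10 ^ 14)))
  refine ⟨P₀ + X₀ + 2 * k₀ + K₁ + 2, fun m k n l hK hmn h => ?_⟩
  by_contra hn
  rw [not_lt] at hn
  set K := k + l with hKdef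
  obtain ⟨hr, hL⟩ := hK₁ K (by omega)
  set L := Real.log K with hLdef
  have hK0 : (0 : ℝ) < K := by exact_mod_cast (by omega : 0 < K)
  have hnp : ∀ p, p.Prime → n < p → n + l < p := fun p hp h1 => by
    by_contra h2
    obtain ⟨i, hi, hd⟩ := (h p hp).2 ⟨p, mem_Icc.2 ⟨h1, not_lt.1 h2⟩, dvd_rfl⟩
    obtain ⟨b1, b2⟩ := mem_Icc.1 hi
    have := Nat.le_of_dvd (by omega) hd
    omega
  have hn0 : n ≠ 0 := by
    rintro rfl
    have := hnp 2 Nat.prime_two (by omega)
    omega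
  have hln : l < n := by
    obtain ⟨p, hp, h1, h2⟩ := Nat.exists_prime_lt_and_le_two_mul n hn0
    have := hnp p hp h1
    omega
  set N := n + l with hN
  have hKN : (K : ℝ) ≤ N := by exact_mod_cast (by omega : K ≤ N)
  have hN2 : (N : ℝ) ≤ 2 * n := by exact_mod_cast (by omega : N ≤ 2 * n)
  have hLN : L ≤ Real.log N := Real.log_le_log hK0 hKN
  obtain ⟨q, hq0, hq⟩ : ∃ q : ℝ, 0 ≤ q ∧ q ^ 2 = L := ⟨√L, Real.sqrt_nonneg _,
    Real.sq_sqrt (by linarith only [hL])⟩
  have hq1 : 10 ^ 7 ≤ q := le_of_sq_le_sq (by linarith only [hL, hq]) hq0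
  have hθq : L ^ θ ≤ q ^ 3 := by
    calc L ^ θ ≤ L ^ (3 / 2 : ℝ) := Real.rpow_le_rpow_of_exponent_le (by linarith only [hL]) hθ.le
      _ = q ^ 3 := by
        rw [← hq, ← Real.rpow_natCast, ← Real.rpow_mul hq0, ← Real.rpow_natCast]; norm_num
  have hlogN : Real.log N ≤ 2 * q ^ 3 := by
    have a1 : Real.log N ≤ Real.log (2 * Real.exp (L ^ θ)) :=
      Real.log_le_log (by linarith only [hK0, hKN]) (by linarith only [hn, hN2])
    rw [Real.log_mul (by norm_num) (Real.exp_pos _).ne', Real.log_exp] at a1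
    have : (1 : ℝ) ≤ q ^ 3 := one_le_pow₀ (by linarith only [hq1])
    linarith only [hL, hLN, hθq, a1, Real.log_two_lt_d9]
  have hl0 : (0 : ℝ) ≤ l := l.cast_nonneg
  have hKl : (K : ℝ) ≤ 6 * l * q ^ 3 := by
    have a1 : (K : ℝ) ≤ 3 * (l * Real.log N) := by
      have a0 : (l : ℝ) ≤ l * Real.log N := le_mul_of_one_le_right hl0 (by linarith only [hL, hLN])
      have a2 : (K : ℝ) = k + l := by rw [hKdef]; push_cast; rfl
      rcases le_or_gt k₀ k with c | c
      · have b1 := hk₀ k c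
        have b2 := theta_le fun p hp => (h p hp).1
        rcases Nat.eq_zero_or_pos k with rfl | c0
        · simp only [Nat.cast_zero] at a2; linarith only [a0, hK0, a2]
        · simp only [Function.comp] at b1
          rw [le_div_iff₀ (by exact_mod_cast c0)] at b1
          linarith only [a0, a2, b1, b2]
      · have : (k : ℝ) ≤ l := by exact_mod_cast (by omega : k ≤ l)
        linarith only [hK0, a0, a2, this]
    linarith only [a1, hlogN, mul_nonneg_of_nonpos_of_nonpos (Mathlib.Tactic.Linarith.sub_nonpos_of_le (Mathlib.Tactic.Linarith.natCast_nonneg ℝ l)) (Mathlib.Tactic.Linarith.sub_nonpos_of_le hlogN)]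
  have hq3 : 0 < q ^ 3 := by positivity
  have hbig : 84000 * (K : ℝ) ≤ N := by
    clear * - K N n hgap X₀ P₀ k₀ K₁ m k l hmn hK hnp hN q L hq hK0 hL hLN hq1 hKl
    by_contra c
    have a1 := hgap N (by omega) n (by omega) hnp
    have a2 : (N : ℝ) - n = l := by rw [hN]; push_cast; ring
    have a3 : (N : ℝ) / Real.log N ^ 2 ≤ 84000 * K / (q ^ 2) ^ 2 := by
      rw [hq]; gcongr
      linarith only [c]
    have a4 : (l : ℝ) * (q ^ 2) ^ 2 ≤ 3 * (84000 * K) := by
      rw [← le_div_iff₀ (by positivity), mul_div_assoc]; linarith only [a1, a2, a3]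
    have a5 : K * q ≤ 6 * l * q ^ 3 * q := by gcongr
    linarith only [hK0, a4, a5, hq1, mul_nonneg_of_nonpos_of_nonpos (Mathlib.Tactic.Linarith.sub_nonpos_of_le (Mathlib.Tactic.Linarith.natCast_nonneg ℝ K)) (Mathlib.Tactic.Linarith.sub_nonpos_of_le hq1)]
  -- the prime given by `core` always divides the second block
  have key : ∀ (P : ℕ) (M : ℝ), K ≤ P → P ≤ 2100 * K → 20 * P ≤ M → 20 * P ≤ N - M →
      ∃ p : ℕ, p.Prime ∧ P < p ∧ (∃ i ∈ Icc (m + 1) (m + k), p ∣ i) ∧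
        (∃ i ∈ Icc (n + 1) (n + l), p ∣ i) ∧ dZ (M / p - 1 / 2) < 49 / 100 := by
    clear * - K N L hK0 m k n l hcore P₀ X₀ k₀ K₁ hK θ hL θ' hθ0 hn hr hN2 q hq hKl hq1 h
    intro P M h1 h2 h3 h4
    have h1' : (K : ℝ) ≤ P := by exact_mod_cast h1
    have h2' : (P : ℝ) ≤ 2100 * K := by exact_mod_cast h2
    have hLP : L ≤ Real.log P := Real.log_le_log hK0 h1'
    obtain ⟨p, hp, a1, a2, a3, a4⟩ := hcore P (by omega) N M (by
      have b1 : Real.exp (L ^ θ) ≤ Real.exp (L + 6 * L ^ θ) := by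
        rw [Real.exp_le_exp]; linarith only [hL, Real.rpow_nonneg (by linarith : 0 ≤ L) θ]
      have b2 : Real.exp (L ^ θ') ≤ Real.exp (Real.log P ^ θ') :=
        Real.exp_le_exp.2 (Real.rpow_le_rpow (by linarith only [hL]) hLP hθ0)
      rw [pow_zero, mul_one] at hr
      linarith only [hn, hr, hN2, b1, b2]) h3 h4
    have a5 := hit hp.pos a3 (by
      clear * - p P a2 q L hq hL hLP l K hKl hq1 hK0 h2'
      have b1 : (p : ℝ) ≤ 2 * P := by exact_mod_cast a2
      have b2 : (q ^ 2) ^ 2 ≤ Real.log P ^ 2 := by rw [hq]; gcongr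
      have b3 : 0 < Real.log P ^ 2 := pow_pos (by linarith only [hL, hLP]) 2
      rw [show 2 * (1 / (4 * Real.log P ^ 2)) * p = p / (2 * Real.log P ^ 2) by field_simp; norm_num,
        div_le_iff₀ (by positivity)]
      have b4 : l * (q ^ 2) ^ 2 ≤ l * Real.log P ^ 2 := by gcongr
      have b5 : K * q ≤ 6 * l * q ^ 3 * q := by gcongr
      linarith only [hK0, h2', b1, b4, b5, hq1, mul_nonneg_of_nonpos_of_nonpos (Mathlib.Tactic.Linarith.sub_nonpos_of_le (Mathlib.Tactic.Linarith.natCast_nonneg ℝ K)) (Mathlib.Tactic.Linarith.sub_nonpos_of_le hq1)])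
    exact ⟨p, hp, a1, (h p hp).2 a5, a5, a4⟩
  by_cases c1 : m + k < 2000 * K
  · obtain ⟨p, hp, a1, ⟨i, hi, hd⟩, -, -⟩ := key (2000 * K) (N / 2) (by omega) (by omega)
      (by push_cast; linarith only [hK0, hbig]) (by push_cast; linarith only [hK0, hbig])
    obtain ⟨b1, b2⟩ := mem_Icc.1 hi
    have := Nat.le_of_dvd (by omega) hd
    omega
  by_cases c2 : N < m + k + 2000 * K
  · obtain ⟨p, hp, a1, ⟨i, hi, hd⟩, ⟨j, hj, hd'⟩, -⟩ := key (2100 * K) (N / 2) (by omega) le_rfl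
      (by push_cast; linarith only [hbig]) (by push_cast; linarith only [hbig])
    obtain ⟨b1, b2⟩ := mem_Icc.1 hi
    obtain ⟨b3, b4⟩ := mem_Icc.1 hj
    have := Nat.le_of_dvd (by omega) (Nat.dvd_sub hd' hd)
    omega
  · have d1 : ((2000 * K : ℕ) : ℝ) ≤ (m + k : ℕ) := by exact_mod_cast not_lt.1 c1
    have d2 : ((m + k + 2000 * K : ℕ) : ℝ) ≤ N := by exact_mod_cast not_lt.1 c2
    obtain ⟨p, hp, a1, a2, -, a3⟩ := key (100 * K) (m + k : ℕ) (by omega) (by omega)
      (by push_cast at d1 ⊢; linarith only [d1]) (by push_cast at d2 ⊢; linarith only [d2])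
    exact miss hp.pos (by omega) a3 a2

lemma finite_of_bound (S : Set (ℕ × ℕ × ℕ × ℕ)) (K₀ : ℕ) (g : ℕ → ℝ)
    (h : ∀ x ∈ S, x.1 ≤ x.2.2.1 ∧ x.2.1 + x.2.2.2 < K₀ ∧ (x.2.2.1 : ℝ) ≤ g (x.2.1 + x.2.2.2)) :
    S.Finite := by
  set B := ∑ j ∈ range K₀, ⌈g j⌉₊ with hB
  refine ((Set.finite_Iic B).prod ((Set.finite_Iic K₀).prod
    ((Set.finite_Iic B).prod (Set.finite_Iic K₀)))).subset fun x hx => ?_
  obtain ⟨h1, h2, h3⟩ := h x hx
  have h4 : x.2.2.1 ≤ B := by
    refine le_trans ?_ (single_le_sum (f := fun j => ⌈g j⌉₊) (fun _ _ => Nat.zero_le _)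
      (mem_range.2 h2))
    exact_mod_cast h3.trans (Nat.le_ceil _)
  simp only [Set.mem_prod, Set.mem_Iic]
  omega

theorem finite_range (θ : ℝ) (hθ : θ < 3 / 2) : Set.Finite {x : ℕ × ℕ × ℕ × ℕ |
    x.1 + x.2.1 ≤ x.2.2.1 ∧
    (∀ p : ℕ, p.Prime → (p ∣ (Icc (x.1 + 1) (x.1 + x.2.1)).lcm id ↔
      p ∣ (Icc (x.2.2.1 + 1) (x.2.2.1 + x.2.2.2)).lcm id)) ∧
    (x.2.2.1 : ℝ) ≤ Real.exp (Real.log ((x.2.1 : ℝ) + x.2.2.2) ^ θ)} := by
  obtain ⟨K₀, hK⟩ := large θ hθ
  refine finite_of_bound _ K₀ (fun j => Real.exp (Real.log j ^ θ)) ?_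
  rintro ⟨m, k, n, l⟩ ⟨h1, h2, h3⟩
  rw [← Nat.cast_add] at h3
  refine ⟨by omega, not_le.1 fun c => ?_, h3⟩
  exact (hK m k n l c h1 fun p hp => by
    rw [← dvd_lcm_iff hp, ← dvd_lcm_iff hp]; exact h2 p hp).not_ge h3

lemma const_le (θ C : ℝ) (hθ : θ < 3 / 2) :
    ∃ θ₂ : ℝ, θ₂ < 3 / 2 ∧ ∀ᶠ L : ℝ in atTop, C * L ^ θ ≤ L ^ θ₂ := by
  refine ⟨(θ + 3 / 2) / 2, by linarith only [hθ], ?_⟩
  have ht := tendsto_rpow_atTop (y := (3 / 2 - θ) / 2) (by linarith only [hθ])
  filter_upwards [eventually_gt_atTop 0, ht.eventually_ge_atTop C] with L h2 h3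
  have a3 : L ^ ((θ + 3 / 2) / 2) = L ^ ((3 / 2 - θ) / 2) * L ^ θ := by
    rw [← Real.rpow_add h2]; congr 1; ring
  rw [a3]
  exact mul_le_mul_of_nonneg_right h3 (Real.rpow_nonneg h2.le _)

theorem finite_long (θ C : ℝ) (hθ : θ < 3 / 2) : Set.Finite {x : ℕ × ℕ × ℕ × ℕ |
    x.2.1 < x.2.2.2 ∧ x.1 + x.2.1 ≤ x.2.2.1 ∧
    (Icc (x.1 + 1) (x.1 + x.2.1)).lcm id = (Icc (x.2.2.1 + 1) (x.2.2.1 + x.2.2.2)).lcm id ∧
    (x.2.1 : ℝ) ≤ C * ((x.2.2.2 : ℝ) - x.2.1) * Real.log ((x.2.1 : ℝ) + x.2.2.2) ^ θ} := by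
  obtain ⟨θ₂, hθ₂, hC⟩ := const_le θ C hθ
  obtain ⟨θ', hθ', -, hroom⟩ := room θ₂ hθ₂
  obtain ⟨K₀, hK⟩ := large θ' hθ'
  obtain ⟨K₁, hK₁⟩ := eventually_atTop.1 (tendsto_log_nat.eventually ((hroom 1 0).and hC))
  refine finite_of_bound _ (K₀ + K₁)
    (fun j => Real.exp (Real.log j + 6 * (C * Real.log j ^ θ))) ?_
  rintro ⟨m, k, n, l⟩ ⟨hkl, h1, h2, h3⟩
  simp only at hkl h1 h2 h3 ⊢
  rw [← Nat.cast_add] at h3
  have hK0 : (1 : ℝ) ≤ (k + l : ℕ) := by exact_mod_cast (by omega : 1 ≤ k + l)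
  have hkl' : (0 : ℝ) < (l : ℝ) - k := sub_pos.2 (by exact_mod_cast hkl)
  have h4 : (n : ℝ) ≤ Real.exp (Real.log (k + l : ℕ) + 6 * (C * Real.log (k + l : ℕ) ^ θ)) := by
    refine (size_bound m k n l h1 hkl h2).trans ?_
    rw [Real.exp_add, Real.exp_log (by linarith only [hK0])]
    refine mul_le_mul (by exact_mod_cast Nat.le_add_left l k) (Real.exp_le_exp.2 ?_)
      (Real.exp_pos _).le (by linarith only [hK0])
    rw [div_le_iff₀ hkl']
    linarith only [h3]
  refine ⟨by omega, not_le.1 fun c => ?_, h4⟩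
  obtain ⟨h5, h6⟩ := hK₁ (k + l) (by omega)
  rw [pow_zero, mul_one, one_mul] at h5
  exact (hK m k n l (by omega) h1 fun p hp => by
    rw [← dvd_lcm_iff hp, ← dvd_lcm_iff hp, h2]).not_ge
      (h4.trans ((Real.exp_le_exp.2 (by linarith only [h6])).trans h5))

end Pool.Agent.Work.MP_453366_nt
end
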