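import Pool.Agent.Work.MP_453366_nt.VinInner
import Pool.Agent.Work.MP_453366_nt.Int

/-! Vinogradov's estimate for the sums of `e(Y/u)`. -/

set_option autoImplicit false

namespace Pool.Agent.Work.MP_453366_nt

open Finset Filter Pool.Agent.Lib.LargeSieve Pool.Agent.Work.MP_45c923_nt

namespace Vin

/-- shifting the range of summation -/
lemma norm_sum_sub_shift (f : ℕ → ℂ) (hf : ∀ n, ‖f n‖ ≤ 1) {A B : ℕ} (hAB : A ≤ B) (h : ℕ) :
    ‖∑ u ∈ Ioc A B, f u - ∑ u ∈ Ioc A B, f (u + h)‖ ≤ 2 * h := by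
  have e1 : ∑ u ∈ Ioc A B, f (u + h) = ∑ u ∈ Ioc (A + h) (B + h), f u := by
    rw [← Finset.map_add_right_Ioc, Finset.sum_map]; rfl
  have e2 := Finset.sum_Ioc_consecutive f (Nat.le_add_right A h) (Nat.add_le_add_right hAB h)
  have e3 := Finset.sum_Ioc_consecutive f hAB (Nat.le_add_right B h)
  have b : ∀ C : ℕ, ‖∑ u ∈ Ioc C (C + h), f u‖ ≤ h := fun C =>
    (norm_sum_le _ _).trans ((Finset.sum_le_sum fun u _ => hf u).trans (by simp))
  have e4 : ∑ u ∈ Ioc A B, f u - ∑ u ∈ Ioc A B, f (u + h)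
      = ∑ u ∈ Ioc A (A + h), f u - ∑ u ∈ Ioc B (B + h), f u := by
    rw [e1]; linear_combination e3 - e2
  rw [e4]
  exact (norm_sub_le _ _).trans (by linarith [b A, b B])

/-- the finite geometric expansion of `Y / (u + h)` -/
lemma div_add_expand (Y u h : ℝ) (hu : u ≠ 0) (huh : u + h ≠ 0) (r : ℕ) :
    Y / (u + h) = Y / u + ∑ j : Fin r, ((-1) ^ (j.val + 1) * Y / u ^ (j.val + 2)) * h ^ (j.val + 1)
      + (-1) ^ (r + 1) * Y * h ^ (r + 1) / (u ^ (r + 1) * (u + h)) := by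
  induction r with
  | zero => simp only [Finset.univ_eq_empty, Finset.sum_empty]; field_simp; ring
  | succ r ih =>
    rw [Fin.sum_univ_castSucc, ih]
    simp only [Fin.val_castSucc, Fin.val_last]
    field_simp
    ring

/-- the remainder of the expansion is small -/
lemma remainder_le {U a Y u h : ℝ} {r : ℕ} (hU : 1 ≤ U) (hY : |Y| = U ^ (1 + a)) (hu : U ≤ u)
    (hr : 3 * a + 2 ≤ r) (h0 : 0 ≤ h) (h1 : h ≤ U ^ (2 / 3 : ℝ)) :
    |(-1) ^ (r + 1) * Y * h ^ (r + 1) / (u ^ (r + 1) * (u + h))| ≤ 1 / U := by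
  have hU0 : 0 < U := by linarith
  have hu0 : 0 < u := by linarith
  rw [abs_div, abs_mul, abs_mul, abs_pow, abs_neg, abs_one, one_pow, one_mul, hY,
    abs_of_nonneg (pow_nonneg h0 _), abs_of_pos (by positivity)]
  calc U ^ (1 + a) * h ^ (r + 1) / (u ^ (r + 1) * (u + h))
      ≤ U ^ (1 + a) * (U ^ (2 / 3 : ℝ)) ^ (r + 1) / (U ^ (r + 1) * U) := by
        gcongr
        linarith
    _ = U ^ (1 + a + 2 / 3 * (r + 1 : ℝ) - (r + 2 : ℝ)) := by
        rw [Real.rpow_sub hU0, Real.rpow_add hU0 (1 + a), ← Real.rpow_natCast (U ^ (2 / 3 : ℝ)),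
          ← Real.rpow_mul hU0.le, ← pow_succ, ← Real.rpow_natCast U]
        push_cast
        congr 2
        ring
    _ ≤ U ^ (-1 : ℝ) := Real.rpow_le_rpow_of_exponent_le hU (by linarith only [hr])
    _ = 1 / U := by rw [Real.rpow_neg_one, one_div]

/-- the double sum at a point of the dyadic range -/
lemma double_le {U a Y u : ℝ} {Z : ℕ} (hU : 1 ≤ U) (ha : 4 / 5 ≤ a) (hY : |Y| = U ^ (1 + a))
    (hu1 : U ≤ u) (hu2 : u ≤ 2 * U) (hZ : Z = ⌊U ^ (1 / 3 : ℝ)⌋₊) :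
    ‖∑ x ∈ range Z, ∑ y ∈ range Z, ee (Y / (u + (x : ℝ) * y))‖ ≤
      (Z : ℝ) ^ 2 * (7 / U + (1004 * a ^ 2) ^ 41 * U ^ (-(1 / (3 * 10 ^ 7 * a ^ 2)))) := by
  have hU0 : 0 < U := by linarith only [hU]
  have hu0 : 0 < u := by linarith only [hU, hu1]
  set r : ℕ := ⌈3 * a⌉₊ + 2 with hr
  have hr' : 3 * a + 2 ≤ r := by
    rw [hr]; push_cast; linarith only [Nat.le_ceil (3 * a)]
  have hZU : (Z : ℝ) ≤ U ^ (1 / 3 : ℝ) := by
    rw [hZ]; exact Nat.floor_le (by positivity)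
  have hin := vin_inner U a Y u r Z hU ha hY hu1 hu2 hr hZ
  set P : ℕ → ℕ → ℝ := fun x y =>
    ∑ j : Fin r, ((-1) ^ (j.val + 1) * Y / u ^ (j.val + 2)) * ((x : ℝ) * y) ^ (j.val + 1) with hP
  have key : ∀ x ∈ range Z, ∀ y ∈ range Z,
      ‖ee (Y / (u + (x : ℝ) * y)) - ee (Y / u) * ee (P x y)‖ ≤ 7 / U := by
    intro x hx y hy
    have hx' : (x : ℝ) ≤ U ^ (1 / 3 : ℝ) :=
      le_trans (by exact_mod_cast (Finset.mem_range.mp hx).le) hZU
    have hy' : (y : ℝ) ≤ U ^ (1 / 3 : ℝ) :=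
      le_trans (by exact_mod_cast (Finset.mem_range.mp hy).le) hZU
    have h0 : (0 : ℝ) ≤ (x : ℝ) * y := by positivity
    have h1 : (x : ℝ) * y ≤ U ^ (2 / 3 : ℝ) := by
      calc (x : ℝ) * y ≤ U ^ (1 / 3 : ℝ) * U ^ (1 / 3 : ℝ) := by gcongr
        _ = U ^ (2 / 3 : ℝ) := by rw [← Real.rpow_add hU0]; norm_num
    rw [← ee_add]
    refine (norm_ee_sub_ee _ _).trans ?_
    have e := div_add_expand Y u ((x : ℝ) * y) hu0.ne' (by positivity) r
    have e' : Y / (u + (x : ℝ) * y) - (Y / u + P x y) = (-1) ^ (r + 1) * Y * ((x : ℝ) * y) ^ (r + 1) /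
        (u ^ (r + 1) * (u + (x : ℝ) * y)) := by
      rw [hP]; linear_combination e
    rw [e']
    have := remainder_le hU hY hu1 hr' h0 h1
    calc _ ≤ 7 * (1 / U) := by gcongr
      _ = 7 / U := by ring
  have e : ∑ x ∈ range Z, ∑ y ∈ range Z, ee (Y / (u + (x : ℝ) * y)) =
      ∑ x ∈ range Z, ∑ y ∈ range Z, (ee (Y / (u + (x : ℝ) * y)) - ee (Y / u) * ee (P x y)) +
        ee (Y / u) * ∑ x ∈ range Z, ∑ y ∈ range Z, ee (P x y) := by
    simp only [Finset.sum_sub_distrib, Finset.mul_sum]; ring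
  rw [e, mul_add]
  refine (norm_add_le _ _).trans (add_le_add ?_ ?_)
  · refine (norm_sum_le _ _).trans ?_
    calc _ ≤ ∑ x ∈ range Z, ∑ y ∈ range Z, 7 / U := Finset.sum_le_sum fun x hx =>
          (norm_sum_le _ _).trans (Finset.sum_le_sum fun y hy => key x hx y hy)
      _ = _ := by simp only [Finset.sum_const, Finset.card_range, nsmul_eq_mul]; ring
  · rw [norm_mul, norm_ee, one_mul]; exact hin

end Vin

theorem vin (U a Y : ℝ) (A B : ℕ) (hU : 1 ≤ U) (ha : 4 / 5 ≤ a) (hY : |Y| = U ^ (1 + a))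
    (hA : U ≤ A) (hB : (B : ℝ) ≤ 2 * U) :
    ‖∑ u ∈ Ioc A B, ee (Y / u)‖
      ≤ 2 * (1004 * a ^ 2) ^ 41 * U ^ (1 - 1 / (3 * 10 ^ 7 * a ^ 2)) := by
  have hU0 : 0 < U := by linarith
  have ha0 : 0 < a := by linarith
  rcases lt_or_ge B A with hBA | hAB
  · rw [Finset.Ioc_eq_empty (by omega), Finset.sum_empty, norm_zero]; positivity
  set Z : ℕ := ⌊U ^ (1 / 3 : ℝ)⌋₊ with hZ
  set M : ℝ := (1004 * a ^ 2) ^ 41 with hM
  set c : ℝ := 1 / (3 * 10 ^ 7 * a ^ 2) with hc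
  set S : ℂ := ∑ u ∈ Ioc A B, ee (Y / u) with hS
  have hZ1 : 1 ≤ Z := Nat.le_floor (by simpa using Real.one_le_rpow hU (by norm_num))
  have hZ0 : (0 : ℝ) < Z := by exact_mod_cast hZ1
  have hZU : (Z : ℝ) ≤ U ^ (1 / 3 : ℝ) := Nat.floor_le (by positivity)
  have hZ2 : (Z : ℝ) ^ 2 ≤ U ^ (2 / 3 : ℝ) := by
    calc (Z : ℝ) ^ 2 ≤ (U ^ (1 / 3 : ℝ)) ^ 2 := by gcongr
      _ = U ^ (2 / 3 : ℝ) := by rw [sq, ← Real.rpow_add hU0]; norm_num
  have hM0 : 0 ≤ M := by positivity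
  -- averaging over the shifts
  have e : ((Z : ℂ) ^ 2) * S = ∑ x ∈ range Z, ∑ y ∈ range Z,
      (S - ∑ u ∈ Ioc A B, ee (Y / ((u + x * y : ℕ) : ℝ))) +
      ∑ u ∈ Ioc A B, ∑ x ∈ range Z, ∑ y ∈ range Z, ee (Y / (u + (x : ℝ) * y)) := by
    rw [Finset.sum_comm (s := Ioc A B)]
    simp only [Finset.sum_sub_distrib, Finset.sum_const, Finset.card_range, nsmul_eq_mul]
    have : ∀ x ∈ range Z, ∑ u ∈ Ioc A B, ∑ y ∈ range Z, ee (Y / (u + (x : ℝ) * y)) =
        ∑ y ∈ range Z, ∑ u ∈ Ioc A B, ee (Y / ((u + x * y : ℕ) : ℝ)) := fun x _ => by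
      rw [Finset.sum_comm]; push_cast; rfl
    rw [Finset.sum_congr rfl this]
    ring
  have b1 : ‖∑ x ∈ range Z, ∑ y ∈ range Z,
      (S - ∑ u ∈ Ioc A B, ee (Y / ((u + x * y : ℕ) : ℝ)))‖ ≤ (Z : ℝ) ^ 2 * (2 * (Z : ℝ) ^ 2) := by
    refine (norm_sum_le _ _).trans ?_
    calc _ ≤ ∑ x ∈ range Z, ∑ y ∈ range Z, 2 * (Z : ℝ) ^ 2 := Finset.sum_le_sum fun x hx =>
          (norm_sum_le _ _).trans (Finset.sum_le_sum fun y hy => by
            have hx' : (x : ℝ) ≤ Z := by exact_mod_cast (Finset.mem_range.mp hx).le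
            have hy' : (y : ℝ) ≤ Z := by exact_mod_cast (Finset.mem_range.mp hy).le
            refine (Vin.norm_sum_sub_shift (fun n : ℕ => ee (Y / n)) (fun n => (norm_ee _).le)
              hAB (x * y)).trans ?_
            push_cast
            rw [sq]
            gcongr)
      _ = _ := by simp only [Finset.sum_const, Finset.card_range, nsmul_eq_mul]; ring
  have hcard : ((B - A : ℕ) : ℝ) ≤ U := by
    rw [Nat.cast_sub hAB]; linarith only [hA, hB]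
  have b2 : ‖∑ u ∈ Ioc A B, ∑ x ∈ range Z, ∑ y ∈ range Z, ee (Y / (u + (x : ℝ) * y))‖ ≤
      U * ((Z : ℝ) ^ 2 * (7 / U + M * U ^ (-c))) := by
    refine (norm_sum_le _ _).trans ?_
    calc _ ≤ ∑ u ∈ Ioc A B, (Z : ℝ) ^ 2 * (7 / U + M * U ^ (-c)) :=
          Finset.sum_le_sum fun u hu => by
            have h1 : (A : ℝ) ≤ u := by exact_mod_cast (Finset.mem_Ioc.mp hu).1.le
            have h2 : (u : ℝ) ≤ B := by exact_mod_cast (Finset.mem_Ioc.mp hu).2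
            exact Vin.double_le hU ha hY (by linarith only [hA, h1]) (by linarith only [hB, h2]) hZ
      _ = ((B - A : ℕ) : ℝ) * ((Z : ℝ) ^ 2 * (7 / U + M * U ^ (-c))) := by
          rw [Finset.sum_const, Nat.card_Ioc, nsmul_eq_mul]
      _ ≤ _ := by gcongr
  have b3 : (Z : ℝ) ^ 2 * ‖S‖ ≤ (Z : ℝ) ^ 2 * (2 * (Z : ℝ) ^ 2 + 7 + M * U ^ (1 - c)) := by
    have h1 : (Z : ℝ) ^ 2 * ‖S‖ = ‖((Z : ℂ) ^ 2) * S‖ := by simp
    have h2 : U ^ (1 - c) = U * U ^ (-c) := by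
      rw [sub_eq_add_neg, Real.rpow_add hU0, Real.rpow_one]
    rw [h1, e, h2]
    refine (norm_add_le _ _).trans ((add_le_add b1 b2).trans (le_of_eq ?_))
    field_simp
    ring
  have b4 := le_of_mul_le_mul_left b3 (by positivity)
  have hc1 : c ≤ 1 / 3 := by
    rw [hc]
    exact one_div_le_one_div_of_le (by norm_num) (by nlinarith only [ha, ha0])
  have h1 : U ^ (2 / 3 : ℝ) ≤ U ^ (1 - c) := Real.rpow_le_rpow_of_exponent_le hU (by linarith only [hc1])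
  have h2 : 1 ≤ U ^ (1 - c) := Real.one_le_rpow hU (by linarith only [hc1])
  have h3 : 9 ≤ M := by
    have h4 : (9 : ℝ) ≤ 1004 * a ^ 2 := by nlinarith only [ha, ha0]
    calc (9 : ℝ) ≤ 1004 * a ^ 2 := h4
      _ = (1004 * a ^ 2) ^ 1 := (pow_one _).symm
      _ ≤ M := pow_le_pow_right₀ (by linarith only [h4]) (by norm_num)
  have h5 : 9 * U ^ (1 - c) ≤ M * U ^ (1 - c) := by gcongr
  linarith only [hZ2, b4, h1, h2, h5]

namespace Vin

lemma eventually_small (C b δ : ℝ) (hb : 0 < b) (hδ : 0 < δ) (n : ℕ) :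
    ∀ᶠ L : ℝ in atTop, C * L ^ n * Real.exp (-(b * L ^ δ)) ≤ 1 := by
  have h1 := (tendsto_rpow_mul_exp_neg_mul_atTop_nhds_zero (n / δ) b hb).comp
    (tendsto_rpow_atTop hδ)
  have h2 := h1.const_mul C
  rw [mul_zero] at h2
  filter_upwards [h2.eventually (gt_mem_nhds zero_lt_one), eventually_gt_atTop 0] with L hL hL0
  refine le_trans (le_of_eq ?_) hL.le
  simp only [Function.comp]
  rw [← Real.rpow_mul hL0.le, mul_div_cancel₀ _ hδ.ne', Real.rpow_natCast, neg_mul, mul_assoc]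

end Vin

theorem expsum (θ : ℝ) (hθ : θ < 3 / 2) (K : ℕ) : ∀ᶠ U : ℝ in atTop, ∀ (Y : ℝ) (A B : ℕ), Y ≠ 0 →
    |Y| ≤ Real.exp (Real.log U ^ θ) → U ≤ A → (B : ℝ) ≤ 2 * U →
    ‖∑ u ∈ Ioc A B, ee (Y / u)‖ ≤ 2 * U ^ 2 / |Y| + U / Real.log U ^ K := by
  set η : ℝ := max θ 1 with hη
  have hη1 : 1 ≤ η := le_max_right _ _
  have hη2 : η < 3 / 2 := max_lt hθ (by norm_num)
  have E1 := Real.tendsto_log_atTop.eventually (Vin.eventually_small (2 * 1004 ^ 41)
    (1 / (3 * 10 ^ 7)) (3 - 2 * η) (by norm_num) (by linarith only [hη2]) (41 + K))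
  have E2 := Real.tendsto_log_atTop.eventually (Vin.eventually_small 7 (1 / 5) 1
    (by norm_num) (by norm_num) K)
  filter_upwards [E1, E2, Real.tendsto_log_atTop.eventually (eventually_ge_atTop 1),
    eventually_ge_atTop 1] with U h1 h2 hL hU Y A B hY0 hY hA hB
  have hU0 : 0 < U := by linarith only [hU]
  set L : ℝ := Real.log U with hLdef
  have hL0 : 0 < L := by linarith only [hL]
  have hYp : 0 < |Y| := abs_pos.mpr hY0
  have hpow : ∀ s : ℝ, U ^ s = Real.exp (L * s) := fun s => Real.rpow_def_of_pos hU0 s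
  have hfirst : 0 ≤ 2 * U ^ 2 / |Y| := by positivity
  have hsecond : 0 ≤ U / L ^ K := by positivity
  rcases le_or_gt (U ^ (9 / 5 : ℝ)) |Y| with hc | hc
  · -- large `Y`
    set a : ℝ := Real.log |Y| / L - 1 with ha
    have hlo : L * (9 / 5) ≤ Real.log |Y| := by
      rw [Real.le_log_iff_exp_le hYp, ← hpow]; exact hc
    have hhi : Real.log |Y| ≤ L ^ η := by
      rw [Real.log_le_iff_le_exp hYp]
      exact hY.trans (Real.exp_le_exp.mpr (Real.rpow_le_rpow_of_exponent_le hL (le_max_left _ _)))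
    have ha1 : 4 / 5 ≤ a := by
      have : 9 / 5 ≤ Real.log |Y| / L := by rw [le_div_iff₀ hL0]; linarith only [hlo]
      linarith only [this]
    have ha2 : a ≤ L ^ (η - 1) := by
      have : Real.log |Y| / L ≤ L ^ (η - 1) := by
        rw [Real.rpow_sub_one hL0.ne']; gcongr
      linarith only [this]
    have ha0 : 0 < a := by linarith only [ha1]
    have hYe : |Y| = U ^ (1 + a) := by
      rw [hpow, ha, add_sub_cancel, mul_div_cancel₀ _ hL0.ne', Real.exp_log hYp]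
    have ha3 : a ^ 2 ≤ L ^ (2 * η - 2) := by
      calc a ^ 2 ≤ (L ^ (η - 1)) ^ 2 := by gcongr
        _ = L ^ (2 * η - 2) := by rw [sq, ← Real.rpow_add hL0]; congr 1; ring
    have ha4 : a ^ 2 ≤ L := by
      refine ha3.trans ?_
      conv_rhs => rw [← Real.rpow_one L]
      exact Real.rpow_le_rpow_of_exponent_le hL (by linarith only [hη2])
    have hexp : 1 / (3 * 10 ^ 7) * L ^ (3 - 2 * η) ≤ L * (1 / (3 * 10 ^ 7 * a ^ 2)) := by
      have e1 : L ^ (3 - 2 * η) * L ^ (2 * η - 2) = L := by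
        rw [← Real.rpow_add hL0]; norm_num
      have e2 : L ^ (3 - 2 * η) * a ^ 2 ≤ L := by
        calc _ ≤ L ^ (3 - 2 * η) * L ^ (2 * η - 2) := by gcongr
          _ = L := e1
      rw [mul_one_div, le_div_iff₀ (by positivity)]
      linarith only [e2]
    have hb := vin U a Y A B hU ha1 hYe hA hB
    refine hb.trans (le_add_of_nonneg_of_le hfirst ?_)
    rw [le_div_iff₀ (by positivity), Real.rpow_sub hU0, Real.rpow_one, hpow, div_eq_mul_inv,
      ← Real.exp_neg]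
    calc 2 * (1004 * a ^ 2) ^ 41 * (U * Real.exp (-(L * (1 / (3 * 10 ^ 7 * a ^ 2))))) * L ^ K
        ≤ 2 * (1004 * L) ^ 41 * (U * Real.exp (-(1 / (3 * 10 ^ 7) * L ^ (3 - 2 * η)))) * L ^ K := by
          gcongr
      _ = U * (2 * 1004 ^ 41 * L ^ (41 + K) *
            Real.exp (-(1 / (3 * 10 ^ 7) * L ^ (3 - 2 * η)))) := by ring
      _ ≤ U * 1 := by gcongr
      _ = U := mul_one U
  · -- small `Y`
    rcases lt_or_ge B A with hBA | hAB
    · rw [Finset.Ioc_eq_empty (by omega), Finset.sum_empty, norm_zero]; positivity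
    have hA1 : (1 : ℝ) ≤ A := hU.trans hA
    have hA1' : 1 ≤ A := by exact_mod_cast hA1
    have b1 := norm_integral_ee_div_le Y hY0 (A := A) (B := B) (by linarith only [hU, hA]) (by exact_mod_cast hAB)
    have b2 := norm_sum_sub_integral_le Y hA1' hAB
    have b3 := norm_add_le (∫ t in (A : ℝ)..B, ee (Y / t))
      (∑ u ∈ Ioc A B, ee (Y / u) - ∫ t in (A : ℝ)..B, ee (Y / t))
    rw [add_sub_cancel] at b3
    have c1 : (B : ℝ) ^ 2 / (2 * |Y|) ≤ 2 * U ^ 2 / |Y| := by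
      calc (B : ℝ) ^ 2 / (2 * |Y|) ≤ (2 * U) ^ 2 / (2 * |Y|) := by gcongr
        _ = 2 * U ^ 2 / |Y| := by field_simp
    have c2 : 7 * |Y| / A ≤ U / L ^ K := by
      have e : U ^ (9 / 5 : ℝ) = U ^ 2 * Real.exp (-(1 / 5 * L ^ (1 : ℝ))) := by
        rw [Real.rpow_one, ← Real.rpow_natCast U 2, hpow, hpow, ← Real.exp_add]
        congr 1; push_cast; ring
      calc 7 * |Y| / A ≤ 7 * U ^ (9 / 5 : ℝ) / U := by gcongr
        _ = U * (7 * L ^ K * Real.exp (-(1 / 5 * L ^ (1 : ℝ)))) / L ^ K := by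
            rw [e]; field_simp
        _ ≤ U * 1 / L ^ K := by gcongr
        _ = U / L ^ K := by rw [mul_one]
    linarith only [b1, b2, b3, c1, c2]

end Pool.Agent.Work.MP_453366_nt
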