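import Pool.Agent.Work.MP_453366_nt.Vm
import Pool.Agent.Work.MP_453366_nt.Bil

/-! The bilinear sum in Vinogradov's estimate for the sums of `e(Y/u)`. -/

set_option autoImplicit false

namespace Pool.Agent.Work.MP_453366_nt

open Finset Filter Pool.Agent.Lib.LargeSieve Pool.Agent.Work.MP_45c923_nt

namespace VinInner

lemma Z_bounds (U : ℝ) (Z : ℕ) (hU : 1 ≤ U) (hZ : Z = ⌊U ^ (1 / 3 : ℝ)⌋₊) :
    1 ≤ Z ∧ (Z : ℝ) ≤ U ^ (1 / 3 : ℝ) ∧ U ^ (1 / 3 : ℝ) ≤ 2 * Z := by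
  have h1 : (1 : ℝ) ≤ U ^ (1 / 3 : ℝ) := Real.one_le_rpow hU (by norm_num)
  have h2 : 1 ≤ Z := by rw [hZ]; exact Nat.le_floor (by simpa using h1)
  refine ⟨h2, by rw [hZ]; exact Nat.floor_le (by linarith only [h1]), ?_⟩
  have h3 : U ^ (1 / 3 : ℝ) < Z + 1 := by rw [hZ]; exact Nat.lt_floor_add_one _
  have h4 : (1 : ℝ) ≤ Z := by exact_mod_cast h2
  linarith only [h3, h4]

lemma alpha_bounds (U a Y u : ℝ) (i : ℕ) (hU : 1 ≤ U) (hY : |Y| = U ^ (1 + a))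
    (hu1 : U ≤ u) (hu2 : u ≤ 2 * U) :
    |(-1) ^ i * Y / u ^ (i + 1)| ≤ U ^ (a - i) ∧
      U ^ (a - i) / 2 ^ (i + 1) ≤ |(-1) ^ i * Y / u ^ (i + 1)| := by
  have hU0 : 0 < U := by linarith
  have hu0 : 0 < u := by linarith
  have e1 : |(-1) ^ i * Y / u ^ (i + 1)| = U ^ (1 + a) / u ^ (i + 1) := by
    rw [abs_div, abs_mul, abs_pow, abs_neg, abs_one, one_pow, one_mul, hY,
      abs_of_pos (pow_pos hu0 _)]
  have e2 : U ^ (a - i) = U ^ (1 + a) / U ^ (i + 1) := by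
    rw [← Real.rpow_natCast U (i + 1), ← Real.rpow_sub hU0]
    congr 1; push_cast; ring
  have hp : 0 < U ^ (1 + a) := Real.rpow_pos_of_pos hU0 _
  rw [e1, e2]
  constructor
  · exact div_le_div_of_nonneg_left hp.le (pow_pos hU0 _) (pow_le_pow_left₀ hU0.le hu1 _)
  · rw [div_div, ← mul_pow]
    exact div_le_div_of_nonneg_left hp.le (pow_pos hu0 _)
      (pow_le_pow_left₀ hu0.le (by linarith) _)

lemma good (U a α : ℝ) (r s Z i : ℕ) (hU : 1 ≤ U) (_ha : 0 ≤ a) (hs : 1 ≤ s) (hZ1 : 1 ≤ Z)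
    (hZ : U ^ (1 / 3 : ℝ) ≤ 2 * Z) (hir : i ≤ r) (hr : 1 ≤ r) (hi1 : 11 / 10 * a ≤ i)
    (hi2 : (i : ℝ) ≤ 12 / 5 * a) (h1 : |α| ≤ U ^ (a - i)) (h2 : U ^ (a - i) / 2 ^ (i + 1) ≤ |α|) :
    DD α (s * Z ^ i) ≤ 32 * ((s * Z ^ i : ℕ) : ℝ) ^ 2 / (U ^ (a / 10) / 4 ^ r) := by
  have hU0 : 0 < U := by linarith only [hU]
  have hN : 1 ≤ s * Z ^ i := Nat.mul_pos hs (pow_pos hZ1 _)
  have hρ : 0 < U ^ (a / 10) / 4 ^ r := div_pos (Real.rpow_pos_of_pos hU0 _) (by positivity)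
  have hρ2 : (U ^ (a / 10) / 4 ^ r) ^ 2 = U ^ (a / 5) / 16 ^ r := by
    rw [div_pow, ← Real.rpow_natCast (U ^ (a / 10)) 2, ← Real.rpow_mul hU0.le, ← pow_mul,
      mul_comm r 2, pow_mul]
    congr 2
    · push_cast; ring
    · norm_num
  have hNZ : U ^ ((i : ℝ) / 3) / 2 ^ i ≤ ((s * Z ^ i : ℕ) : ℝ) := by
    have e : U ^ ((i : ℝ) / 3) = (U ^ (1 / 3 : ℝ)) ^ i := by
      rw [← Real.rpow_natCast, ← Real.rpow_mul hU0.le]; congr 1; ring
    rw [e, ← div_pow]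
    have h3 : (U ^ (1 / 3 : ℝ) / 2) ^ i ≤ (Z : ℝ) ^ i :=
      pow_le_pow_left₀ (by positivity) (by linarith only [hZ]) _
    have h4 : (1 : ℝ) ≤ s := by exact_mod_cast hs
    push_cast
    have h5 : (0 : ℝ) ≤ (Z : ℝ) ^ i := by positivity
    nlinarith only [h3, h4, h5]
  apply DD_le α _ _ hN hρ
  · have h4 : (1 : ℝ) ≤ 4 ^ r := one_le_pow₀ (by norm_num)
    have h5 : U ^ (a / 10) / 4 ^ r ≤ U ^ (a / 10) :=
      div_le_self (Real.rpow_pos_of_pos hU0 _).le h4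
    calc |α| * (U ^ (a / 10) / 4 ^ r) ≤ U ^ (a - i) * U ^ (a / 10) :=
          mul_le_mul h1 h5 hρ.le (Real.rpow_pos_of_pos hU0 _).le
      _ = U ^ (a - i + a / 10) := (Real.rpow_add hU0 _ _).symm
      _ ≤ 1 := Real.rpow_le_one_of_one_le_of_nonpos hU (by linarith only [hi1])
  · rw [hρ2]
    refine le_trans ?_ hNZ
    apply div_le_div₀ (Real.rpow_pos_of_pos hU0 _).le
      (Real.rpow_le_rpow_of_exponent_le hU (by linarith only [hi1])) (by positivity)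
    calc (2 : ℝ) ^ i ≤ 2 ^ r := pow_le_pow_right₀ (by norm_num) hir
      _ ≤ 16 ^ r := pow_le_pow_left₀ (by norm_num) (by norm_num) _
  · rw [hρ2]
    have h3 : (U ^ ((i : ℝ) / 3) / 2 ^ i) ^ 2 ≤ ((s * Z ^ i : ℕ) : ℝ) ^ 2 :=
      pow_le_pow_left₀ (by positivity) hNZ _
    have h4 : (U ^ ((i : ℝ) / 3) / 2 ^ i) ^ 2 * (U ^ (a - i) / 2 ^ (i + 1)) =
        U ^ (a - i / 3) / (2 * 8 ^ i) := by
      have e1 : U ^ (a - i / 3) = (U ^ ((i : ℝ) / 3)) ^ 2 * U ^ (a - i) := by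
        rw [← Real.rpow_natCast (U ^ ((i : ℝ) / 3)) 2, ← Real.rpow_mul hU0.le,
          ← Real.rpow_add hU0]
        congr 1; push_cast; ring
      have e2 : (8 : ℝ) ^ i = (2 ^ i) ^ 3 := by rw [← pow_mul, mul_comm, pow_mul]; norm_num
      rw [e1, e2, pow_succ (2 : ℝ) i]
      field_simp
    calc U ^ (a / 5) / 16 ^ r ≤ U ^ (a - i / 3) / (2 * 8 ^ i) := by
          apply div_le_div₀ (Real.rpow_pos_of_pos hU0 _).le
            (Real.rpow_le_rpow_of_exponent_le hU (by linarith only [hi2])) (by positivity)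
          have e3 : (16 : ℝ) ^ r = 2 ^ r * 8 ^ r := by rw [← mul_pow]; norm_num
          rw [e3]
          apply mul_le_mul _ (pow_le_pow_right₀ (by norm_num) hir) (by positivity) (by positivity)
          calc (2 : ℝ) = 2 ^ 1 := by norm_num
            _ ≤ 2 ^ r := pow_le_pow_right₀ (by norm_num) hr
      _ = _ := h4.symm
      _ ≤ _ := mul_le_mul h3 h2 (by positivity) (by positivity)

open Classical in
lemma count (a : ℝ) (r : ℕ) (ha : 4 / 5 ≤ a) (hr : r = ⌈3 * a⌉₊ + 2) :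
    a / 2 ≤ (((univ : Finset (Fin r)).filter
      (fun j => 11 / 10 * a ≤ ((j.val + 1 : ℕ) : ℝ) ∧ ((j.val + 1 : ℕ) : ℝ) ≤ 12 / 5 * a)).card : ℝ) := by
  set p := ⌈11 / 10 * a⌉₊ with hp
  set q := ⌊12 / 5 * a⌋₊ with hq
  have hp1 : 11 / 10 * a ≤ p := Nat.le_ceil _
  have hp2 : (p : ℝ) < 11 / 10 * a + 1 := Nat.ceil_lt_add_one (by linarith only [ha])
  have hq1 : (q : ℝ) ≤ 12 / 5 * a := Nat.floor_le (by linarith only [ha])
  have hq2 : 12 / 5 * a < q + 1 := Nat.lt_floor_add_one _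
  have hr1 : 3 * a ≤ (⌈3 * a⌉₊ : ℝ) := Nat.le_ceil _
  have hp0 : 1 ≤ p := by
    have : (0 : ℝ) < p := by linarith only [ha, hp1]
    exact_mod_cast this
  have hqr : q ≤ r := by
    have : (q : ℝ) ≤ r := by rw [hr]; push_cast; linarith only [ha, hq1, hr1]
    exact_mod_cast this
  have hpq : p ≤ q := by
    have : (p : ℝ) < q + 1 := by linarith only [ha, hp2, hq2]
    have : p < q + 1 := by exact_mod_cast this
    omega
  have hcard : (Icc p q).card ≤ ((univ : Finset (Fin r)).filter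
      (fun j => 11 / 10 * a ≤ ((j.val + 1 : ℕ) : ℝ) ∧
        ((j.val + 1 : ℕ) : ℝ) ≤ 12 / 5 * a)).card := by
    apply Finset.card_le_card_of_surjOn (fun j : Fin r => j.val + 1)
    intro i hi
    have hi' := Finset.mem_Icc.1 (Finset.mem_coe.1 hi)
    refine ⟨⟨i - 1, by omega⟩, ?_, by simp only; omega⟩
    have e : i - 1 + 1 = i := by omega
    simp only [Finset.coe_filter, Finset.mem_univ, true_and, Set.mem_ofPred_eq, e]
    have h1 : (p : ℝ) ≤ i := by exact_mod_cast hi'.1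
    have h2 : (i : ℝ) ≤ q := by exact_mod_cast hi'.2
    constructor <;> linarith only [hp1, h1, hq1, h2]
  rw [Nat.card_Icc] at hcard
  have hc : ((q + 1 - p : ℕ) : ℝ) = q + 1 - p := by
    rw [Nat.cast_sub (by omega)]; push_cast; ring
  have hcard' : ((q + 1 - p : ℕ) : ℝ) ≤ _ := Nat.cast_le.2 hcard
  refine le_trans ?_ hcard'
  rw [hc]
  have h1 : (p : ℝ) ≤ q := by exact_mod_cast hpq
  by_cases h : a ≤ 2
  · linarith only [ha, hp2, hq2, h1]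
  · linarith only [hp2, hq2, h]

lemma prod_N (r s Z : ℕ) :
    ∏ j : Fin r, (32 * ((s * Z ^ (j.val + 1) : ℕ) : ℝ) ^ 2) =
      (32 * (s : ℝ) ^ 2) ^ r * (Z : ℝ) ^ (r * (r + 1)) := by
  induction r with
  | zero => simp
  | succ n ih =>
    rw [Fin.prod_univ_castSucc]
    simp only [Fin.val_castSucc, Fin.val_last]
    rw [ih]
    push_cast
    ring

lemma prod_le (U a : ℝ) (r s Z : ℕ) (α : Fin r → ℝ) (hU : 1 ≤ U) (ha : 4 / 5 ≤ a) (hs : 1 ≤ s)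
    (hZ1 : 1 ≤ Z) (hZ : U ^ (1 / 3 : ℝ) ≤ 2 * Z) (hr : r = ⌈3 * a⌉₊ + 2)
    (h1 : ∀ j : Fin r, |α j| ≤ U ^ (a - ((j.val + 1 : ℕ) : ℝ)))
    (h2 : ∀ j : Fin r, U ^ (a - ((j.val + 1 : ℕ) : ℝ)) / 2 ^ (j.val + 1 + 1) ≤ |α j|) :
    ∏ j : Fin r, DD (α j) (s * Z ^ (j.val + 1)) ≤
      (32 * (s : ℝ) ^ 2) ^ r * (Z : ℝ) ^ (r * (r + 1)) * (4 ^ (r * r) * U ^ (-(a ^ 2 / 20))) := by
  classical
  have hU0 : 0 < U := by linarith only [hU]
  set P : Fin r → Prop := fun j => 11 / 10 * a ≤ ((j.val + 1 : ℕ) : ℝ) ∧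
    ((j.val + 1 : ℕ) : ℝ) ≤ 12 / 5 * a with hP
  set ρ : ℝ := U ^ (a / 10) / 4 ^ r with hρ
  have hρ0 : 0 < ρ := div_pos (Real.rpow_pos_of_pos hU0 _) (by positivity)
  have hstep : ∏ j : Fin r, DD (α j) (s * Z ^ (j.val + 1)) ≤
      ∏ j : Fin r, ((32 * ((s * Z ^ (j.val + 1) : ℕ) : ℝ) ^ 2) * (if P j then ρ⁻¹ else 1)) := by
    apply Finset.prod_le_prod (fun j _ => DD_nonneg _ _)
    intro j _
    split_ifs with h
    · rw [← div_eq_mul_inv]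
      exact good U a (α j) r s Z (j.val + 1) hU (by linarith only [ha]) hs hZ1 hZ j.isLt (by omega)
        h.1 h.2 (h1 j) (h2 j)
    · rw [mul_one]
      exact DD_triv _ _ (Nat.mul_pos hs (pow_pos hZ1 _))
  refine hstep.trans ?_
  rw [Finset.prod_mul_distrib, prod_N, Finset.prod_ite, Finset.prod_const_one, mul_one,
    Finset.prod_const]
  apply mul_le_mul_of_nonneg_left _ (by positivity)
  have hc := count a r ha hr
  set g := ((univ : Finset (Fin r)).filter P).card with hg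
  have hc' : a / 2 ≤ (g : ℝ) := by convert hc
  have hgr : g ≤ r := by
    calc g ≤ (univ : Finset (Fin r)).card := Finset.card_filter_le _ _
      _ = r := by simp
  have e : ρ⁻¹ ^ g = 4 ^ (r * g) * U ^ (-(a / 10 * g)) := by
    rw [hρ, inv_div, div_pow, ← pow_mul, ← Real.rpow_natCast (U ^ (a / 10)) g,
      ← Real.rpow_mul hU0.le, Real.rpow_neg hU0.le, div_eq_mul_inv]
  rw [e]
  apply mul_le_mul (pow_le_pow_right₀ (by norm_num) (Nat.mul_le_mul_left _ hgr))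
    (Real.rpow_le_rpow_of_exponent_le hU (by nlinarith only [hc, ha])) (by positivity) (by positivity)

lemma const_le (r s : ℕ) (hr : 2 ≤ r) (hs : s = r * (10 * r + 1)) :
    (32 * (s : ℝ) ^ 2) ^ r * 4 ^ (r * r) ≤ (2 * s : ℝ) ^ (2 * s ^ 2) := by
  have hs2 : 2 ≤ s := by rw [hs]; nlinarith only [hr]
  have hs2' : (2 : ℝ) ≤ s := by exact_mod_cast hs2
  have h1 : 32 * (s : ℝ) ^ 2 ≤ (2 * s : ℝ) ^ 5 := by
    have : (1 : ℝ) ≤ (s : ℝ) ^ 3 := one_le_pow₀ (by linarith)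
    have h0 : (0 : ℝ) ≤ (s : ℝ) ^ 2 := by positivity
    nlinarith only [this]
  have h2 : (32 * (s : ℝ) ^ 2) ^ r ≤ (2 * s : ℝ) ^ (5 * r) := by
    rw [pow_mul]; exact pow_le_pow_left₀ (by positivity) h1 _
  have h3 : (4 : ℝ) ^ (r * r) ≤ (2 * s : ℝ) ^ (r * r) :=
    pow_le_pow_left₀ (by norm_num) (by linarith) _
  calc _ ≤ (2 * s : ℝ) ^ (5 * r) * (2 * s : ℝ) ^ (r * r) :=
        mul_le_mul h2 h3 (by positivity) (by positivity)
    _ = (2 * s : ℝ) ^ (5 * r + r * r) := (pow_add _ _ _).symm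
    _ ≤ _ := by
        apply pow_le_pow_right₀ (by linarith)
        have h4 : 5 * r + r * r ≤ s := by rw [hs]; nlinarith only [hr]
        nlinarith only [hr, h4, hs]

end VinInner

open VinInner in
/-- the bilinear sum attached to a point `u` of the dyadic range -/
theorem vin_inner (U a Y u : ℝ) (r Z : ℕ) (hU : 1 ≤ U) (ha : 4 / 5 ≤ a) (hY : |Y| = U ^ (1 + a))
    (hu1 : U ≤ u) (hu2 : u ≤ 2 * U) (hr : r = ⌈3 * a⌉₊ + 2) (hZ : Z = ⌊U ^ (1 / 3 : ℝ)⌋₊) :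
    ‖∑ x ∈ range Z, ∑ y ∈ range Z,
        ee (∑ j : Fin r, ((-1) ^ (j.val + 1) * Y / u ^ (j.val + 2)) * ((x : ℝ) * y) ^ (j.val + 1))‖
      ≤ (Z : ℝ) ^ 2 * ((1004 * a ^ 2) ^ 41 * U ^ (-(1 / (3 * 10 ^ 7 * a ^ 2)))) := by
  have hU0 : 0 < U := by linarith only [hU]
  obtain ⟨hZ1, hZ2, hZ3⟩ := Z_bounds U Z hU hZ
  have hr2 : 2 ≤ r := by omega
  obtain ⟨s, hs⟩ : ∃ s, s = r * (10 * r + 1) := ⟨_, rfl⟩
  have hs1 : 1 ≤ s := by rw [hs]; nlinarith only [hr]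
  have hZ1' : (1 : ℝ) ≤ Z := by exact_mod_cast hZ1
  have hrr : (r : ℝ) ≤ 27 / 4 * a := by
    have : (⌈3 * a⌉₊ : ℝ) < 3 * a + 1 := Nat.ceil_lt_add_one (by linarith only [ha])
    rw [hr]; push_cast; linarith only [ha, this]
  have hr0 : (0 : ℝ) ≤ r := by positivity
  have hsa : (s : ℝ) ≤ 502 * a ^ 2 := by
    rw [hs]; push_cast
    have h1 : 10 * (r : ℝ) + 1 ≤ 275 / 4 * a := by linarith only [ha, hrr]
    have h2 : (r : ℝ) * (10 * r + 1) ≤ 27 / 4 * a * (275 / 4 * a) :=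
      mul_le_mul hrr h1 (by positivity) (by linarith only [ha])
    nlinarith only [h2]
  have hs0 : (0 : ℝ) ≤ s := by positivity
  set α : Fin r → ℝ := fun j => (-1) ^ (j.val + 1) * Y / u ^ (j.val + 2) with hα
  have hb := bil_bound r s Z hs1 α
  have hv := vmvt_ten r s Z hr2 hs hZ1
  have hp := prod_le U a r s Z α hU ha hs1 hZ1 hZ3 hr
    (fun j => (alpha_bounds U a Y u (j.val + 1) hU hY hu1 hu2).1)
    (fun j => (alpha_bounds U a Y u (j.val + 1) hU hY hu1 hu2).2)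
  have hc := const_le r s hr2 hs
  have hZU : (Z : ℝ) ^ ((r * (r + 1) / 1024 : ℝ)) ≤ U ^ (a ^ 2 / 40) := by
    calc (Z : ℝ) ^ ((r * (r + 1) / 1024 : ℝ)) ≤ (U ^ (1 / 3 : ℝ)) ^ ((r * (r + 1) / 1024 : ℝ)) :=
          Real.rpow_le_rpow (by positivity) hZ2 (by positivity)
      _ = U ^ (1 / 3 * (r * (r + 1) / 1024 : ℝ)) := (Real.rpow_mul hU0.le _ _).symm
      _ ≤ _ := by
          apply Real.rpow_le_rpow_of_exponent_le hU
          have h1 : (r : ℝ) + 1 ≤ 8 * a := by linarith only [ha, hrr]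
          have h2 : (r : ℝ) * (r + 1) ≤ 27 / 4 * a * (8 * a) :=
            mul_le_mul hrr h1 (by positivity) (by linarith only [ha])
          nlinarith only [h2]
  have ha0 : 0 < a := by linarith only [ha]
  apply le_of_pow_le_pow_left₀ (n := 2 * s ^ 2) (by positivity) (by positivity)
  refine hb.trans ?_
  have e1 : (Z : ℝ) ^ (4 * s * (s - 1)) * (Z : ℝ) ^ (4 * s) = ((Z : ℝ) ^ 2) ^ (2 * s ^ 2) := by
    rw [← pow_add, ← pow_mul]
    congr 1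
    obtain ⟨t, rfl⟩ : ∃ t, s = t + 1 := ⟨s - 1, by omega⟩
    simp only [Nat.add_sub_cancel]
    ring
  have e2 : (2 * s : ℝ) ^ (80 * s ^ 2) * (2 * s : ℝ) ^ (2 * s ^ 2) ≤
      ((1004 * a ^ 2) ^ 41) ^ (2 * s ^ 2) := by
    rw [← pow_add, ← pow_mul]
    have : 80 * s ^ 2 + 2 * s ^ 2 = 41 * (2 * s ^ 2) := by ring
    rw [this]
    exact pow_le_pow_left₀ (by positivity) (by linarith only [hsa]) _
  have e3 : U ^ (a ^ 2 / 40) * U ^ (-(a ^ 2 / 20)) ≤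
      (U ^ (-(1 / (3 * 10 ^ 7 * a ^ 2)))) ^ (2 * s ^ 2) := by
    rw [← Real.rpow_add hU0, ← Real.rpow_natCast _ (2 * s ^ 2), ← Real.rpow_mul hU0.le]
    apply Real.rpow_le_rpow_of_exponent_le hU
    push_cast
    have h1 : (s : ℝ) ^ 2 ≤ (502 * a ^ 2) ^ 2 := pow_le_pow_left₀ hs0 hsa _
    have h2 : 1 / (3 * 10 ^ 7 * a ^ 2) * (2 * (s : ℝ) ^ 2) ≤ a ^ 2 / 40 := by
      rw [one_div, inv_mul_le_iff₀ (by positivity)]
      have : 0 ≤ a ^ 4 := by positivity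
      nlinarith only [h1]
    linarith only [h2]
  calc (Z : ℝ) ^ (4 * s * (s - 1)) * (JJ r s Z : ℝ) ^ 2 *
        ∏ j : Fin r, DD (α j) (s * Z ^ (j.val + 1))
      ≤ (Z : ℝ) ^ (4 * s * (s - 1)) * (JJ r s Z : ℝ) ^ 2 *
        ((32 * (s : ℝ) ^ 2) ^ r * (Z : ℝ) ^ (r * (r + 1)) *
          (4 ^ (r * r) * U ^ (-(a ^ 2 / 20)))) :=
        mul_le_mul_of_nonneg_left hp (by positivity)
    _ = (Z : ℝ) ^ (4 * s * (s - 1)) * ((JJ r s Z : ℝ) ^ 2 * (Z : ℝ) ^ (r * (r + 1))) *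
        ((32 * (s : ℝ) ^ 2) ^ r * 4 ^ (r * r)) * U ^ (-(a ^ 2 / 20)) := by ring
    _ ≤ (Z : ℝ) ^ (4 * s * (s - 1)) *
        ((2 * s : ℝ) ^ (80 * s ^ 2) * (Z : ℝ) ^ (4 * s) * U ^ (a ^ 2 / 40)) *
        (2 * s : ℝ) ^ (2 * s ^ 2) * U ^ (-(a ^ 2 / 20)) := by
        apply mul_le_mul_of_nonneg_right _ (by positivity)
        apply mul_le_mul _ hc (by positivity) (by positivity)
        apply mul_le_mul_of_nonneg_left _ (by positivity)
        exact hv.trans (mul_le_mul_of_nonneg_left hZU (by positivity))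
    _ = ((Z : ℝ) ^ (4 * s * (s - 1)) * (Z : ℝ) ^ (4 * s)) *
        (((2 * s : ℝ) ^ (80 * s ^ 2) * (2 * s : ℝ) ^ (2 * s ^ 2)) *
          (U ^ (a ^ 2 / 40) * U ^ (-(a ^ 2 / 20)))) := by ring
    _ ≤ _ := by
        rw [e1, mul_pow ((Z : ℝ) ^ 2), mul_pow ((1004 * a ^ 2) ^ 41)]
        apply mul_le_mul_of_nonneg_left _ (by positivity)
        exact mul_le_mul e2 e3 (by positivity) (by positivity)

end Pool.Agent.Work.MP_453366_nt
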