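import Pool.Agent.Work.MP_45c923_nt.VmMain

/-! Vinogradov's mean value theorem with an explicit constant. -/

set_option autoImplicit false

namespace Pool.Agent.Work.MP_453366_nt

open Finset Pool.Agent.Work.MP_45c923_nt

namespace Vm

open VmMainAux

/-- the Linnik–Karatsuba step with both constants kept apart -/
theorem step_nat (l m p Z : ℕ) (hm : 1 ≤ m) (hp : p.Prime) (hlp : l < p) (hZ : Z ≤ p ^ l) :
    JJ l (l + m) Z ≤ 2 * (l ^ (2 * (l + m)) * (p ^ (2 * l - 2) * JJ l (l + m) (Z / p + 1))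
      + (l + m).factorial ^ 2 *
        (l ^ l * (p ^ (2 * m + l * (l - 1) / 2) * Z ^ l * JJ l m (Z / p + 1)))) := by
  classical
  have h1 := cnt_cover (tup (l + m) (range Z)) (fun z => ∑ i, pw l (z i)) (univ : Finset Bool)
    (fun b => if b then
      (tup (l + m) (range Z)).filter fun x => (univ.image fun i => x i % p).card ≤ l - 1
      else (tup (l + m) (range Z)).filter fun x => l ≤ (univ.image fun i => x i % p).card) (by
      intro x hx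
      by_cases c : l ≤ (univ.image fun i => x i % p).card
      · exact ⟨false, mem_univ _, by simpa using ⟨hx, c⟩⟩
      · exact ⟨true, mem_univ _, by simpa using ⟨hx, by omega⟩⟩)
  rw [Finset.card_univ, Fintype.card_bool, Fintype.sum_bool] at h1
  simp only [if_true, Bool.false_eq_true, if_false] at h1
  have h2 := VmStepAux.sing_le l (l + m) Z p (by omega) hp.pos hlp
  have h3 := (VmStepAux.nonsing_le l m Z p).trans
    (Nat.mul_le_mul_left _ (VmStepAux.dis_le l m Z p hm hp hlp hZ))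
  exact h1.trans (Nat.mul_le_mul_left _ (Nat.add_le_add h2 h3))

lemma const_one (n s : ℕ) (hn : 1 ≤ n) (hs : 2 * (n + 1) ≤ s) :
    (4 : ℝ) * ((n + 1 : ℕ) : ℝ) ^ (2 * s) * 4 ^ (2 * n) * 2 ^ (2 * s)
      ≤ (2 * ((n + 1 : ℕ) : ℝ)) ^ (4 * s) := by
  have hn' : (1 : ℝ) ≤ n := by exact_mod_cast hn
  have h4 : (4 : ℝ) ≤ 2 * ((n + 1 : ℕ) : ℝ) := by push_cast; linarith only [hn']
  obtain ⟨w, hw⟩ : ∃ w : ℝ, w = ((n + 1 : ℕ) : ℝ) := ⟨_, rfl⟩
  rw [← hw] at h4 ⊢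
  have h1 : (4 : ℝ) ^ (2 * n + 1) ≤ (2 * w) ^ (2 * s) :=
    (pow_le_pow_left₀ (by norm_num) h4 _).trans
      (pow_le_pow_right₀ (by linarith only [h4]) (by omega))
  calc (4 : ℝ) * w ^ (2 * s) * 4 ^ (2 * n) * 2 ^ (2 * s)
      = (2 * w) ^ (2 * s) * 4 ^ (2 * n + 1) := by rw [mul_pow, pow_succ]; ring
    _ ≤ (2 * w) ^ (2 * s) * (2 * w) ^ (2 * s) :=
        mul_le_mul_of_nonneg_left h1 (pow_nonneg (by linarith only [h4]) _)
    _ = _ := by rw [← pow_add]; congr 1; ring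

lemma const_two (l m a : ℕ) (hl : 2 ≤ l) (ha : a ≤ 2 * m + l * l) :
    (4 : ℝ) * (((l + m).factorial : ℕ) : ℝ) ^ 2 * (l : ℝ) ^ l * 4 ^ a * 2 ^ (2 * m)
      ≤ (2 * ((l + m : ℕ) : ℝ)) ^ (20 * (l * (l + m))) := by
  have hl' : (2 : ℝ) ≤ l := by exact_mod_cast hl
  have hm' : (0 : ℝ) ≤ m := Nat.cast_nonneg m
  obtain ⟨w, hw⟩ : ∃ w : ℝ, w = 2 * ((l + m : ℕ) : ℝ) := ⟨_, rfl⟩
  have hw4 : 4 ≤ w := by rw [hw]; push_cast; linarith only [hl']
  have hwl : (l : ℝ) ≤ w := by rw [hw]; push_cast; linarith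
  have hws : ((l + m : ℕ) : ℝ) ≤ w := by rw [hw]; push_cast; linarith
  have hf : (((l + m).factorial : ℕ) : ℝ) ≤ w ^ (l + m) := by
    have h1 : (((l + m).factorial : ℕ) : ℝ) ≤ ((l + m : ℕ) : ℝ) ^ (l + m) := by
      exact_mod_cast Nat.factorial_le_pow (l + m)
    exact h1.trans (pow_le_pow_left₀ (Nat.cast_nonneg _) hws _)
  have b1 : (((l + m).factorial : ℕ) : ℝ) ^ 2 ≤ (w ^ (l + m)) ^ 2 :=
    pow_le_pow_left₀ (Nat.cast_nonneg _) hf 2
  have b2 : (l : ℝ) ^ l ≤ w ^ l := pow_le_pow_left₀ (by linarith) hwl _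
  have b3 : (4 : ℝ) ^ a ≤ w ^ a := pow_le_pow_left₀ (by norm_num) hw4 _
  have b4 : (2 : ℝ) ^ (2 * m) ≤ w ^ (2 * m) := pow_le_pow_left₀ (by norm_num) (by linarith) _
  rw [← hw]
  have hw0 : 0 ≤ w := by linarith
  calc (4 : ℝ) * (((l + m).factorial : ℕ) : ℝ) ^ 2 * (l : ℝ) ^ l * 4 ^ a * 2 ^ (2 * m)
      ≤ w * (w ^ (l + m)) ^ 2 * w ^ l * w ^ a * w ^ (2 * m) := by clear * - l m a w hw4 b1 b2 hl b3 b4; gcongr
    _ = w ^ (1 + (l + m) * 2 + l + a + 2 * m) := by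
        rw [← pow_mul, pow_add, pow_add, pow_add, pow_add, pow_one]
    _ ≤ _ := pow_le_pow_right₀ (by linarith only [hw4]) (by clear * - l m a hl ha; nlinarith only [hl, ha])

theorem step (l m : ℕ) (hl : 2 ≤ l) (hm : l ≤ m) (lam' lam C' K : ℝ) (h0 : 0 ≤ lam')
    (h0' : lam' ≤ 2 * m)
    (hlam : lam = (2 * m + l * (l - 1) / 2) / l + l + (1 - 1 / l) * lam')
    (h2 : 5 * (l + m) / 4 ≤ lam) (h3 : lam ≤ 2 * (l + m))
    (h4 : 2 * (l + m) - lam ≤ l * l) (hC' : 0 ≤ C')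
    (hK1 : (2 * (l : ℝ)) ^ (16 * l ^ 3) ≤ K)
    (hK2 : (2 * ((l + m : ℕ) : ℝ)) ^ (20 * (l * (l + m))) * C' ≤ K)
    (h : ∀ Z : ℕ, 1 ≤ Z → (JJ l m Z : ℝ) ≤ C' * (Z : ℝ) ^ lam') :
    ∀ Z : ℕ, 1 ≤ Z → (JJ l (l + m) Z : ℝ) ≤ K * (Z : ℝ) ^ lam := by
  obtain ⟨n, rfl⟩ : ∃ n, l = n + 1 := ⟨l - 1, by omega⟩
  have hn : 1 ≤ n := by omega
  have hn' : (1 : ℝ) ≤ n := by exact_mod_cast hn
  have hm' : ((n + 1 : ℕ) : ℝ) ≤ m := by exact_mod_cast hm
  obtain ⟨a, ha⟩ : ∃ a : ℕ, a = 2 * m + (n + 1) * (n + 1 - 1) / 2 := ⟨_, rfl⟩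
  have ha' : a ≤ 2 * m + (n + 1) * (n + 1) := by
    have : (n + 1) * (n + 1 - 1) / 2 ≤ (n + 1) * (n + 1) :=
      (Nat.div_le_self _ _).trans (Nat.mul_le_mul_left _ (by omega))
    omega
  have hlam0 : 0 ≤ lam := le_trans (by positivity) h2
  have hexp : ((n + 1 : ℕ) : ℝ) * lam = a + ((n + 1) * (n + 1) : ℕ) + n * lam' := by
    rw [hlam, ha, Nat.cast_add (2 * m), cast_pred _ (by omega)]
    push_cast
    field_simp
    ring
  obtain ⟨w, hw⟩ : ∃ w : ℝ, w = 2 * ((n + 1 : ℕ) : ℝ) := ⟨_, rfl⟩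
  have hw4 : 4 ≤ w := by clear * - w n hw hn'; rw [hw]; push_cast; linarith
  have hwn : ((n + 1 : ℕ) : ℝ) ≤ w := by rw [hw]; push_cast; linarith only [hn']
  have hww : w ≤ w ^ 16 := le_self_pow₀ (by linarith only [hw4]) (by norm_num)
  have hK0 : 0 ≤ K := le_trans (by positivity) hK1
  intro Z
  induction Z using Nat.strong_induction_on with
  | _ Z ih =>
  intro hZ
  have hZ' : (1 : ℝ) ≤ Z := by exact_mod_cast hZ
  have hZ0 : (0 : ℝ) < Z := by linarith only [hZ']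
  obtain ⟨z, hz1, hz⟩ : ∃ z : ℝ, 1 ≤ z ∧ z ^ (n + 1) = Z :=
    ⟨(Z : ℝ) ^ (((n + 1 : ℕ) : ℝ)⁻¹), Real.one_le_rpow hZ' (by positivity),
      Real.rpow_inv_natCast_pow (by linarith only [hZ']) (by omega)⟩
  have hz0 : 0 < z := by clear * - z hz1; linarith
  rcases le_total z (w ^ 16) with hzz | hzz
  · have h1 : (Z : ℝ) ≤ (w ^ 16) ^ (n + 1) := hz ▸ pow_le_pow_left₀ hz0.le hzz _
    have h5 : (Z : ℝ) ^ (2 * (n + 1 + m)) ≤ (Z : ℝ) ^ ((n + 1) * (n + 1)) * (Z : ℝ) ^ lam := by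
      clear * - Z n m lam hZ0 hZ' h4
      rw [← Real.rpow_natCast, ← Real.rpow_natCast, ← Real.rpow_add hZ0]
      refine Real.rpow_le_rpow_of_exponent_le hZ' ?_
      push_cast at h4 ⊢
      linarith
    have h6 : (Z : ℝ) ^ ((n + 1) * (n + 1)) ≤ K := by
      refine (pow_le_pow_left₀ hZ0.le h1 _).trans (le_trans (le_of_eq ?_) hK1)
      rw [← pow_mul, ← pow_mul, ← hw]
      congr 1
      ring
    exact (JJ_le (n + 1) (n + 1 + m) Z).trans
      (h5.trans (mul_le_mul_of_nonneg_right h6 (Real.rpow_nonneg hZ0.le _)))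
  obtain ⟨p, hp, hp1, hp2⟩ := exists_prime z hz1
  have hp0 : (0 : ℝ) < p := by clear * - p w z hw4 hww hzz hp1; linarith
  have hlp : n + 1 < p := by
    clear * - n p w z hw hw4 hww hzz hp1
    have : ((n + 1 : ℕ) : ℝ) < p := by linarith
    exact_mod_cast this
  have hZp : Z ≤ p ^ (n + 1) := by
    have : (Z : ℝ) ≤ (p : ℝ) ^ (n + 1) := hz ▸ pow_le_pow_left₀ hz0.le hp1.le _
    exact_mod_cast this
  have hzn : 1 ≤ z ^ n := one_le_pow₀ hz1
  have hY : ((Z / p + 1 : ℕ) : ℝ) ≤ 2 * z ^ n := by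
    clear * - Z p z n hp0 hz hp1 hzn
    have a1 : ((Z / p : ℕ) : ℝ) ≤ Z / p := Nat.cast_div_le
    have a2 : (Z : ℝ) / p ≤ z ^ n := by
      rw [div_le_iff₀ hp0, ← hz, pow_succ]
      exact mul_le_mul_of_nonneg_left hp1.le (by linarith)
    rw [Nat.cast_add, Nat.cast_one]
    linarith only [hzn, a1, a2]
  have hYZ : Z / p + 1 < Z := by
    clear * - Z p z n hY hz w hw4 hww hzz hzn hz1
    have : ((Z / p + 1 : ℕ) : ℝ) < Z := by
      refine hY.trans_lt ?_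
      rw [← hz, pow_succ]
      nlinarith only [hw4, hww, hzz, hzn, hz1]
    exact_mod_cast this
  have hpw : ∀ t : ℝ, 0 ≤ t → ((Z / p + 1 : ℕ) : ℝ) ^ t ≤ 2 ^ t * z ^ (n * t) := by
    clear * - Z p z n hY hzn hz0
    intro t ht
    refine (Real.rpow_le_rpow (Nat.cast_nonneg _) hY ht).trans (le_of_eq ?_)
    rw [Real.mul_rpow zero_le_two (by linarith), Real.rpow_natCast_mul hz0.le]
  have hZl : (Z : ℝ) ^ lam = z ^ (((n + 1 : ℕ) : ℝ) * lam) := by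
    rw [Real.rpow_natCast_mul hz0.le, hz]
  have two_le : ∀ (t : ℝ) (e : ℕ), t ≤ e → (2 : ℝ) ^ t ≤ 2 ^ e := fun t e ht => by
    rw [← Real.rpow_natCast]
    exact Real.rpow_le_rpow_of_exponent_le one_le_two ht
  have i1 : (JJ (n + 1) (n + 1 + m) (Z / p + 1) : ℝ)
      ≤ K * (2 ^ (2 * (n + 1 + m)) * z ^ (n * lam)) :=
    (ih _ hYZ (Nat.le_add_left _ _)).trans
      (mul_le_mul_of_nonneg_left ((hpw lam hlam0).trans (mul_le_mul_of_nonneg_right
        (two_le _ _ (by clear * - lam n m h3 hK0 hz0 two_le; push_cast at h3 ⊢; linarith)) (Real.rpow_nonneg hz0.le _))) hK0)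
  have i2 : (JJ (n + 1) m (Z / p + 1) : ℝ) ≤ C' * (2 ^ (2 * m) * z ^ (n * lam')) :=
    (h _ (Nat.le_add_left 1 (Z / p))).trans
      (mul_le_mul_of_nonneg_left ((hpw lam' h0).trans (mul_le_mul_of_nonneg_right
        (two_le _ _ (by clear * - lam' m h0' hC' hz0 two_le; push_cast; linarith)) (Real.rpow_nonneg hz0.le _))) hC')
  obtain ⟨U, hU⟩ : ∃ U : ℝ, U = ((n + 1 : ℕ) : ℝ) ^ (2 * (n + 1 + m)) := ⟨_, rfl⟩
  obtain ⟨F, hF⟩ : ∃ F : ℝ, F = (((n + 1 + m).factorial : ℕ) : ℝ) ^ 2 := ⟨_, rfl⟩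
  obtain ⟨G, hG⟩ : ∃ G : ℝ, G = ((n + 1 : ℕ) : ℝ) ^ (n + 1) := ⟨_, rfl⟩
  have hU0 : 0 ≤ U := by rw [hU]; positivity
  have hF0 : 0 ≤ F := by rw [hF]; positivity
  have hG0 : 0 ≤ G := by rw [hG]; positivity
  have i3 : (JJ (n + 1) (n + 1 + m) Z : ℝ) ≤
      2 * (U * ((p : ℝ) ^ (2 * n) * JJ (n + 1) (n + 1 + m) (Z / p + 1)) +
        F * (G * ((p : ℝ) ^ a * (Z : ℝ) ^ (n + 1) * JJ (n + 1) m (Z / p + 1)))) := by
    clear * - n m Z p hl hm a hp hlp hZp U F G hU hF hG ha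
    have := step_nat (n + 1) m p Z (by omega) hp hlp hZp
    rw [← ha, show 2 * (n + 1) - 2 = 2 * n by omega] at this
    rw [hU, hF, hG]
    exact_mod_cast this
  have hpp : ∀ e : ℕ, (p : ℝ) ^ e ≤ 4 ^ e * z ^ e := fun e => by
    rw [← mul_pow]; exact pow_le_pow_left₀ hp0.le hp2 e
  have t1 : U * ((p : ℝ) ^ (2 * n) * JJ (n + 1) (n + 1 + m) (Z / p + 1)) ≤
      K / 4 * (Z : ℝ) ^ lam := by
    clear * - n m hn hm a Z p w z hw4 hzz lam hZl hz0 hz1 h2 hm' K hK0 U hpp i1 hU0 hw hU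
    have c1 := const_one n (n + 1 + m) hn (by omega)
    rw [← hU, ← hw] at c1
    have c2 : w ^ (4 * (n + 1 + m)) ≤ z ^ (((n + 1 + m : ℕ) : ℝ) / 4) := by
      refine le_trans (le_of_eq ?_)
        (Real.rpow_le_rpow (by positivity) hzz (by positivity : (0 : ℝ) ≤ ((n + 1 + m : ℕ) : ℝ) / 4))
      rw [← Real.rpow_natCast_mul (by linarith only [hw4]), ← Real.rpow_natCast]
      congr 1
      push_cast
      ring
    have b1 : z ^ (((n + 1 + m : ℕ) : ℝ) / 4) * (z ^ (2 * n) * z ^ (n * lam))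
        ≤ (Z : ℝ) ^ lam := by
      rw [hZl, ← Real.rpow_natCast z (2 * n), ← Real.rpow_add hz0, ← Real.rpow_add hz0]
      refine Real.rpow_le_rpow_of_exponent_le hz1 ?_
      push_cast at h2 hm' ⊢
      linarith only [h2, hm']
    have b3 : 0 ≤ K / 4 * (z ^ (2 * n) * z ^ (n * lam)) :=
      mul_nonneg (by linarith only [hK0]) (mul_nonneg (pow_nonneg hz0.le _) (Real.rpow_nonneg hz0.le _))
    calc U * ((p : ℝ) ^ (2 * n) * JJ (n + 1) (n + 1 + m) (Z / p + 1))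
        ≤ U * ((4 ^ (2 * n) * z ^ (2 * n)) * (K * (2 ^ (2 * (n + 1 + m)) * z ^ (n * lam)))) :=
          mul_le_mul_of_nonneg_left (mul_le_mul (hpp _) i1 (Nat.cast_nonneg _) (by positivity))
            hU0
      _ = (4 * U * 4 ^ (2 * n) * 2 ^ (2 * (n + 1 + m))) *
            (K / 4 * (z ^ (2 * n) * z ^ (n * lam))) := by ring
      _ ≤ z ^ (((n + 1 + m : ℕ) : ℝ) / 4) * (K / 4 * (z ^ (2 * n) * z ^ (n * lam))) :=
          mul_le_mul_of_nonneg_right (c1.trans c2) b3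
      _ = K / 4 * (z ^ (((n + 1 + m : ℕ) : ℝ) / 4) * (z ^ (2 * n) * z ^ (n * lam))) := by ring
      _ ≤ _ := mul_le_mul_of_nonneg_left b1 (by linarith only [hK0])
  have t2 : F * (G * ((p : ℝ) ^ a * (Z : ℝ) ^ (n + 1) * JJ (n + 1) m (Z / p + 1))) ≤
      K / 4 * (Z : ℝ) ^ lam := by
    clear * - Z lam z a n lam' hZl hexp hz0 hz m hl ha' F G C' K hG hF hC' hK2 p hpp hZ i2 hz1 hG0
      hF0 hZ0
    have b1 : (Z : ℝ) ^ lam = z ^ a * (Z : ℝ) ^ (n + 1) * z ^ (n * lam') := by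
      rw [hZl, hexp, Real.rpow_add hz0, Real.rpow_add hz0, Real.rpow_natCast, Real.rpow_natCast,
        pow_mul, hz]
    have c1 := const_two (n + 1) m a hl ha'
    rw [← hF, ← hG] at c1
    have c2 : 4 * F * G * 4 ^ a * 2 ^ (2 * m) * C' ≤ K :=
      (mul_le_mul_of_nonneg_right c1 hC').trans hK2
    calc F * (G * ((p : ℝ) ^ a * (Z : ℝ) ^ (n + 1) * JJ (n + 1) m (Z / p + 1)))
        ≤ F * (G * ((4 ^ a * z ^ a) * (Z : ℝ) ^ (n + 1) *
            (C' * (2 ^ (2 * m) * z ^ (n * lam'))))) :=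
          mul_le_mul_of_nonneg_left (mul_le_mul_of_nonneg_left (mul_le_mul
            (mul_le_mul_of_nonneg_right (hpp _) (by positivity)) i2 (Nat.cast_nonneg _)
            (by positivity)) hG0) hF0
      _ = (4 * F * G * 4 ^ a * 2 ^ (2 * m) * C') / 4 * (Z : ℝ) ^ lam := by rw [b1]; ring
      _ ≤ _ := mul_le_mul_of_nonneg_right (by linarith only [c2]) (Real.rpow_nonneg hZ0.le _)
  clear * - n m Z K lam U p F G a i3 t1 t2
  linarith only [i3, t1, t2]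

lemma base_bounds (l τ : ℕ) (hl : 2 ≤ l) :
    0 ≤ (1 - 1 / (l : ℝ)) ^ τ ∧ (1 - 1 / (l : ℝ)) ^ τ ≤ 1 ∧
      (l : ℝ) * (l + 1) / 2 - τ * (l + 1) / 2 ≤ l * (l + 1) / 2 * (1 - 1 / (l : ℝ)) ^ τ := by
  have hl' : (2 : ℝ) ≤ l := by exact_mod_cast hl
  have h1 : (1 : ℝ) / l ≤ 1 := by rw [div_le_one (by linarith)]; linarith
  have h1' : (0 : ℝ) ≤ 1 / l := by positivity
  refine ⟨pow_nonneg (by linarith) _, pow_le_one₀ (by linarith) (by linarith), ?_⟩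
  have h := one_add_mul_le_pow (a := -(1 / (l : ℝ))) (by linarith) τ
  rw [← sub_eq_add_neg] at h
  have h2 := mul_le_mul_of_nonneg_left h (by positivity : (0 : ℝ) ≤ l * (l + 1) / 2)
  have h3 : (l : ℝ) * (l + 1) / 2 * (1 + τ * -(1 / l)) = l * (l + 1) / 2 - τ * (l + 1) / 2 := by
    field_simp
    ring
  linarith only [h2, h3]

lemma pow_self_le (l : ℕ) (hl : 2 ≤ l) : (1 - 1 / (l : ℝ)) ^ l ≤ 1 / 2 := by
  have hl' : (2 : ℝ) ≤ l := by exact_mod_cast hl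
  have h0 : (0 : ℝ) ≤ 1 - 1 / l := by
    rw [sub_nonneg, div_le_one (by linarith)]; linarith
  have a1 : (1 - 1 / (l : ℝ)) ≤ Real.exp (-(1 / l)) := by
    linarith only [Real.add_one_le_exp (-(1 / (l : ℝ)))]
  have a2 := pow_le_pow_left₀ h0 a1 l
  rw [← Real.exp_nat_mul, show (l : ℝ) * -(1 / l) = -1 by field_simp] at a2
  refine a2.trans ?_
  rw [Real.exp_neg, one_div]
  exact inv_anti₀ two_pos (by linarith [Real.add_one_le_exp 1])

end Vm

theorem vmvt_explicit (l τ Z : ℕ) (hl : 2 ≤ l) (hZ : 1 ≤ Z) :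
    (JJ l (l * (τ + 1)) Z : ℝ) ≤
      (2 * (l * (τ + 1)) : ℝ) ^ (20 * l ^ 3 + 20 * (l * (τ + 1)) ^ 2) *
        (Z : ℝ) ^ ((2 * (l * (τ + 1)) - l * (l + 1) / 2
          + l * (l + 1) / 2 * (1 - 1 / l) ^ τ : ℝ)) := by
  have hl' : (2 : ℝ) ≤ l := by exact_mod_cast hl
  induction τ generalizing Z with
  | zero =>
    refine (VmMainAux.JJ_le _ _ _).trans ?_
    have e : (Z : ℝ) ^ (2 * (l * (0 + 1))) = (Z : ℝ) ^ ((2 * (l * (((0 : ℕ) : ℝ) + 1))
        - l * (l + 1) / 2 + l * (l + 1) / 2 * (1 - 1 / l) ^ 0 : ℝ)) := by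
      rw [← Real.rpow_natCast]
      congr 1
      push_cast
      ring
    rw [e]
    refine le_mul_of_one_le_left (Real.rpow_nonneg (Nat.cast_nonneg _) _) (one_le_pow₀ ?_)
    push_cast
    linarith only [hl']
  | succ τ ih =>
    have hτ : (0 : ℝ) ≤ τ := Nat.cast_nonneg τ
    obtain ⟨b1, b2, b3⟩ := Vm.base_bounds l τ hl
    obtain ⟨c1, c2, c3⟩ := Vm.base_bounds l (τ + 1) hl
    have hq : (0 : ℝ) ≤ l * (l + 1) / 2 := by positivity
    have b4 := mul_le_mul_of_nonneg_left b2 hq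
    have c4 := mul_le_mul_of_nonneg_left c2 hq
    have c5 := mul_nonneg hq c1
    have hw1 : (1 : ℝ) ≤ 2 * (l * ((τ + 1 : ℕ) + 1)) := by clear * - l τ hl'; push_cast; nlinarith only [hl']
    have es : l * (τ + 1 + 1) = l + l * (τ + 1) := by ring
    conv_lhs => rw [es]
    refine Vm.step l (l * (τ + 1)) hl (Nat.le_mul_of_pos_right _ (by omega)) _ _ _ _
      (le_trans (by positivity) (VmMainAux.lam_ge l τ hl)) ?_ ?_ ?_ ?_ ?_ (by positivity) ?_ ?_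
      (fun Y hY => ih Y hY) Z hZ
    · push_cast
      clear * - l τ b4
      linarith only [b4]
    · push_cast
      rw [pow_succ]
      generalize (1 - 1 / (l : ℝ)) ^ τ = w
      field_simp
      ring
    · push_cast at c3 ⊢
      clear * - l τ hl' c3 hτ
      nlinarith only [hl', c3, hτ, mul_nonneg hτ (sub_nonneg.2 hl')]
    · push_cast at c4 ⊢
      clear * - l τ c4
      linarith only [c4]
    · push_cast at c5 ⊢
      clear * - l τ hl' c5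
      nlinarith only [hl', c5]
    · refine (pow_le_pow_left₀ (by positivity) ?_ _).trans (pow_le_pow_right₀ hw1 (by omega))
      push_cast
      clear * - l τ hl'
      nlinarith only [hl']
    · have e1 : (2 * ((l + l * (τ + 1) : ℕ) : ℝ)) = 2 * (l * ((τ + 1 : ℕ) + 1)) := by
        push_cast; ring
      have e2 : (2 * (l * (τ + 1)) : ℝ) ≤ 2 * (l * ((τ + 1 : ℕ) + 1)) := by
        clear * - l τ hl'
        push_cast; nlinarith
      rw [e1]
      refine (mul_le_mul_of_nonneg_left (pow_le_pow_left₀ (by positivity) e2 _)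
        (by positivity)).trans ?_
      rw [← pow_add]
      refine pow_le_pow_right₀ hw1 ?_
      rw [es]
      generalize l * (τ + 1) = m
      clear * - l m
      nlinarith only [Nat.zero_le (l * m)]

theorem vmvt_ten (r s Z : ℕ) (hr : 2 ≤ r) (hs : s = r * (10 * r + 1)) (hZ : 1 ≤ Z) :
    (JJ r s Z : ℝ) ^ 2 * (Z : ℝ) ^ (r * (r + 1)) ≤
      (2 * s : ℝ) ^ (80 * s ^ 2) * (Z : ℝ) ^ (4 * s) * (Z : ℝ) ^ ((r * (r + 1) / 1024 : ℝ)) := by
  have h := vmvt_explicit r (10 * r) Z hr hZ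
  have hs' : (s : ℝ) = r * (((10 * r : ℕ) : ℝ) + 1) := by rw [hs]; push_cast; ring
  rw [← hs, ← hs'] at h
  have hr' : (2 : ℝ) ≤ r := by exact_mod_cast hr
  have hZ' : (1 : ℝ) ≤ Z := by exact_mod_cast hZ
  have hZ0 : (0 : ℝ) < Z := by linarith only [hZ']
  have hs1 : (1 : ℝ) ≤ 2 * s := by clear * - s r hs' hr'; rw [hs']; push_cast; nlinarith only [hr']
  have h3 : r ^ 3 ≤ s ^ 2 := by
    clear * - r s hs hr
    rw [hs]
    calc r ^ 3 = r ^ 2 * r := by ring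
      _ ≤ r ^ 2 * (10 * r + 1) ^ 2 := Nat.mul_le_mul_left _ (by nlinarith only [hr, hs])
      _ = _ := by ring
  have ht : (1 - 1 / (r : ℝ)) ^ (10 * r) ≤ 1 / 1024 := by
    rw [mul_comm, pow_mul]
    refine (pow_le_pow_left₀ (Vm.base_bounds r r hr).1 (Vm.pow_self_le r hr) 10).trans ?_
    norm_num
  have h2 := pow_le_pow_left₀ (Nat.cast_nonneg _) h 2
  refine (mul_le_mul_of_nonneg_right h2 (by positivity)).trans ?_
  rw [mul_pow, ← pow_mul, mul_assoc, mul_assoc]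
  refine mul_le_mul (pow_le_pow_right₀ hs1 (by omega)) ?_ (by positivity) (by positivity)
  rw [← Real.rpow_natCast, ← Real.rpow_natCast _ (r * (r + 1)), ← Real.rpow_natCast _ (4 * s),
    ← Real.rpow_mul hZ0.le, ← Real.rpow_add hZ0, ← Real.rpow_add hZ0]
  refine Real.rpow_le_rpow_of_exponent_le hZ' ?_
  have hq : (0 : ℝ) ≤ r * (r + 1) := by positivity
  have := mul_le_mul_of_nonneg_left ht hq
  push_cast
  clear * - s r this
  linarith only [this]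

end Pool.Agent.Work.MP_453366_nt
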